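import Pool.Agent.Helper90.TwinP

set_option autoImplicit false

open Finset Filter Topology

namespace Pool.Agent.Helper90.Twin

/-! ### Blocks -/

/-- the sum of `1/p` over the primes in `(√z, z]` is bounded -/
theorem block_sum (z : ℕ) (hz : 4 ≤ z) : ∑ p ∈ Ps z \ Ps (Nat.sqrt z), 1 / (p : ℝ) ≤ 12 := by
  set L := Nat.log 2 z with hL
  set h := L / 2 with hh
  have hL2 : 2 ≤ L := by
    rw [hL]
    exact Nat.le_log_of_pow_le (by norm_num) (by omega)
  have hh1 : 1 ≤ h := by omega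
  have hpow : 2 ^ h ≤ Nat.sqrt z := by
    rw [Nat.le_sqrt, ← pow_add]
    calc 2 ^ (h + h) ≤ 2 ^ L := Nat.pow_le_pow_right (by norm_num) (by omega)
      _ ≤ z := Nat.pow_log_le_self 2 (by omega)
  have hzlt : z < 2 ^ (L + 1) := Nat.lt_pow_succ_log_self (by norm_num) z
  have hmap : ∀ p ∈ Ps z \ Ps (Nat.sqrt z), Nat.log 2 (p - 1) ∈ Icc h L := by
    intro p hp
    rw [Finset.mem_sdiff, mem_Ps, mem_Ps] at hp
    have h1 : Nat.sqrt z < p := by
      by_contra hcon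
      exact hp.2 ⟨hp.1.1, by omega, hp.1.2.2⟩
    rw [Finset.mem_Icc]
    constructor
    · exact Nat.le_log_of_pow_le (by norm_num) (by omega)
    · have : Nat.log 2 (p - 1) < L + 1 := Nat.log_lt_of_lt_pow (by omega) (by omega)
      omega
  rw [← Finset.sum_fiberwise_of_maps_to hmap]
  have hfib : ∀ n ∈ Icc h L, ∑ p ∈ (Ps z \ Ps (Nat.sqrt z)).filter
      (fun p => Nat.log 2 (p - 1) = n), 1 / (p : ℝ) ≤ 4 / h := by
    intro n hn
    rw [Finset.mem_Icc] at hn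
    calc ∑ p ∈ (Ps z \ Ps (Nat.sqrt z)).filter (fun p => Nat.log 2 (p - 1) = n), 1 / (p : ℝ)
        ≤ ∑ p ∈ (Ioc (2 ^ n) (2 ^ (n + 1))).filter Nat.Prime, 1 / (p : ℝ) := by
          apply Finset.sum_le_sum_of_subset_of_nonneg
          · intro p hp
            rw [Finset.mem_filter, Finset.mem_sdiff, mem_Ps] at hp
            rw [Finset.mem_filter, Finset.mem_Ioc]
            have h5 := hp.1.1.1
            have h1 : 2 ^ n ≤ p - 1 := by
              rw [← hp.2]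
              exact Nat.pow_log_le_self 2 (by omega)
            have h2 : p - 1 < 2 ^ (n + 1) := by
              rw [← hp.2]
              exact Nat.lt_pow_succ_log_self (by norm_num) _
            exact ⟨⟨by omega, by omega⟩, hp.1.1.2.2⟩
          · intro p _ _
            positivity
      _ ≤ 4 / n := dyadic_block n (by omega)
      _ ≤ 4 / h := by
          apply div_le_div_of_nonneg_left (by norm_num)
          · exact_mod_cast hh1
          · exact_mod_cast hn.1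
  refine (Finset.sum_le_sum hfib).trans ?_
  rw [Finset.sum_const, Nat.card_Icc, nsmul_eq_mul]
  have h3 : ((L + 1 - h : ℕ) : ℝ) ≤ h + 2 := by
    exact_mod_cast (by omega : L + 1 - h ≤ h + 2)
  have hh0 : (1 : ℝ) ≤ h := by exact_mod_cast hh1
  calc ((L + 1 - h : ℕ) : ℝ) * (4 / h) ≤ (h + 2) * (4 / h) :=
        mul_le_mul_of_nonneg_right h3 (by positivity)
    _ ≤ 12 := by
        rw [mul_div_assoc', div_le_iff₀ (by linarith)]
        linarith

theorem exp_neg_two_mul_le {x : ℝ} (h0 : 0 ≤ x) (h1 : x ≤ 1 / 2) :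
    Real.exp (-2 * x) ≤ 1 - x := by
  have h2 : 1 ≤ (1 - x) * Real.exp (2 * x) := by
    have h3 := Real.add_one_le_exp (2 * x)
    have h4 : (1 - x) * (2 * x + 1) ≤ (1 - x) * Real.exp (2 * x) :=
      mul_le_mul_of_nonneg_left h3 (by linarith)
    nlinarith
  have h5 : Real.exp (-2 * x) = (Real.exp (2 * x))⁻¹ := by
    rw [← Real.exp_neg]
    congr 1
    ring
  rw [h5, inv_le_iff_one_le_mul₀ (Real.exp_pos _)]
  exact h2

theorem exp_le_one_add_two_mul {x : ℝ} (h0 : 0 ≤ x) (h1 : x ≤ 1 / 2) :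
    Real.exp x ≤ 1 + 2 * x := by
  have h2 : 1 - x ≤ Real.exp (-x) := by
    have := Real.add_one_le_exp (-x)
    linarith
  rw [Real.exp_neg] at h2
  have h3 := Real.exp_pos x
  have h4 : (1 - x) * Real.exp x ≤ 1 := by
    have := mul_le_mul_of_nonneg_right h2 h3.le
    rwa [inv_mul_cancel₀ h3.ne'] at this
  have h5 : 1 ≤ (1 + 2 * x) * (1 - x) := by nlinarith
  have h6 : (1 - x) * Real.exp x ≤ (1 - x) * (1 + 2 * x) := by linarith
  exact le_of_mul_le_mul_left h6 (by linarith)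

/-! ### Upper bound sieves with error functions -/

/-- `x` has an upper bound function `U` and an error function `D ≥ U - x`, both controlled. -/
def Sv (Q : ℕ) (x : ℕ → ℝ) (W e σ Λ : ℝ) (J : ℕ) : Prop :=
  ∃ (U D : ℕ → ℝ) (μU μD : ℝ), (∀ t, x t ≤ U t) ∧ (∀ t, U t - x t ≤ D t) ∧
    Ctl Q U μU Λ ∧ Ctl Q D μD ((J + 1) * Λ) ∧ W ≤ μU ∧ μU ≤ (W + e) * Real.exp σ ∧
    0 ≤ μD ∧ μD ≤ (W + e) * σ * Real.exp σ + e * Real.exp σ

theorem Sv.final {Q : ℕ} {x : ℕ → ℝ} {W e σ Λ : ℝ} {J : ℕ} (h : Sv Q x W e σ Λ J)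
    (hW : 0 ≤ W) (he : 0 ≤ e) (hσ0 : 0 ≤ σ) (hσ : σ ≤ 1 / 2) (hΛ : 0 ≤ Λ) (N : ℕ) :
    |∑ t ∈ range N, x t - N * W| ≤ 2 * σ * (N * W) + (3 * N * e + (J + 2) * Λ) := by
  obtain ⟨U, D, μU, μD, h1, h2, h3, h4, h5, h6, h7, h8⟩ := h
  have hN : (0 : ℝ) ≤ N := Nat.cast_nonneg _
  have hJ : (0 : ℝ) ≤ J := Nat.cast_nonneg _
  have hexp := exp_le_one_add_two_mul hσ0 hσ
  have hexp2 : Real.exp σ ≤ 2 := by linarith
  have b1 := abs_le.1 (h3.bound N)
  have b2 := abs_le.1 (h4.bound N)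
  have c1 : ∑ t ∈ range N, x t ≤ ∑ t ∈ range N, U t := Finset.sum_le_sum (fun t _ => h1 t)
  have c2 : ∑ t ∈ range N, U t - ∑ t ∈ range N, x t ≤ ∑ t ∈ range N, D t := by
    rw [← Finset.sum_sub_distrib]
    exact Finset.sum_le_sum (fun t _ => h2 t)
  have d1 : μU ≤ W + 2 * σ * W + 2 * e := by
    have : (W + e) * Real.exp σ ≤ (W + e) * (1 + 2 * σ) :=
      mul_le_mul_of_nonneg_left hexp (by linarith)
    nlinarith
  have d2 : μD ≤ 2 * σ * W + 3 * e := by
    have e1 : (W + e) * σ * Real.exp σ ≤ (W + e) * σ * 2 :=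
      mul_le_mul_of_nonneg_left hexp2 (by positivity)
    have e2 : e * Real.exp σ ≤ e * 2 := mul_le_mul_of_nonneg_left hexp2 he
    nlinarith
  have d3 := mul_le_mul_of_nonneg_left d1 hN
  have d4 := mul_le_mul_of_nonneg_left d2 hN
  have d5 := mul_le_mul_of_nonneg_left h5 hN
  have d6 : 0 ≤ (N : ℝ) * e := by positivity
  have d7 : 0 ≤ (J : ℝ) * Λ := by positivity
  have d8 : 0 ≤ σ * ((N : ℝ) * W) := by positivity
  rw [abs_le]
  constructor
  · nlinarith
  · nlinarith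

section Sieve

variable {w : ℕ → ℕ → ℝ} {κ : ℝ}

theorem nu_nonneg {p : ℕ} (h : ∀ x, 0 ≤ w p x) : 0 ≤ nu w p :=
  Finset.sum_nonneg (fun x _ => h x)

theorem sv_base {S : Finset ℕ} (hpos : ∀ p ∈ S, 0 < p) (hcop : (S : Set ℕ).Pairwise Nat.Coprime)
    (hw0 : ∀ p ∈ S, ∀ x, 0 ≤ w p x) (hw1 : ∀ p ∈ S, ∀ x, w p x ≤ 1)
    (hw : ∀ p ∈ S, ∀ x, w p (x + p) = w p x) (hκ : 0 ≤ κ) (hν : ∀ p ∈ S, nu w p ≤ κ)
    {m : ℕ} (hm : Odd m) {e Λ : ℝ} (he : EE S (fun p => nu w p / p) m ≤ e)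
    (hΛ : (1 + κ * S.card) ^ m ≤ Λ) :
    Sv (∏ p ∈ S, p) (fun t => ∏ p ∈ S, (1 - w p t)) (∏ p ∈ S, (1 - nu w p / p)) e 0 Λ 0 := by
  have hν0 : ∀ p ∈ S, 0 ≤ nu w p := fun p hp => nu_nonneg (hw0 p hp)
  have hp0 : ∀ p ∈ S, (0 : ℝ) < p := fun p hp => by exact_mod_cast hpos p hp
  have hr0 : ∀ p ∈ S, 0 ≤ nu w p / p := fun p hp => div_nonneg (hν0 p hp) (hp0 p hp).le
  have hr1 : ∀ p ∈ S, nu w p / p ≤ 1 := by
    intro p hp
    rw [div_le_one (hp0 p hp)]
    calc nu w p ≤ ∑ x ∈ range p, (1 : ℝ) := Finset.sum_le_sum (fun x _ => hw1 p hp x)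
      _ = p := by simp
  have hE0 : 0 ≤ EE S (fun p => nu w p / p) m := EE_nonneg hr0 m
  have hsum := sum_EE_le hκ hν0 hν m
  rw [Finset.sum_range_succ] at hsum
  have hEm : 0 ≤ EE S (nu w) m := EE_nonneg hν0 m
  have hTm : 0 ≤ ∑ j ∈ range m, EE S (nu w) j := Finset.sum_nonneg (fun j _ => EE_nonneg hν0 j)
  have bW := bonferroni hr0 hr1 m
  rw [hm.neg_one_pow] at bW
  refine ⟨fun t => TT S (fun p => w p t) m, fun t => EE S (fun p => w p t) m,
    TT S (fun p => nu w p / p) m, EE S (fun p => nu w p / p) m, ?_, ?_, ?_, ?_, ?_, ?_, ?_, ?_⟩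
  · intro t
    have b := bonferroni (fun p hp => hw0 p hp t) (fun p hp => hw1 p hp t) m
    rw [hm.neg_one_pow] at b
    linarith [b.1]
  · intro t
    have b := bonferroni (fun p hp => hw0 p hp t) (fun p hp => hw1 p hp t) m
    rw [hm.neg_one_pow] at b
    linarith [b.2]
  · exact (ctl_TT hpos hcop hw0 hw m).mono (by linarith)
  · exact (ctl_EE hpos hcop hw0 hw m).mono (by push_cast; linarith)
  · linarith [bW.1]
  · rw [Real.exp_zero]
    linarith [bW.2]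
  · exact hE0
  · rw [Real.exp_zero]
    linarith

theorem sv_step {B : Finset ℕ} (hpos : ∀ p ∈ B, 0 < p) (hcop : (B : Set ℕ).Pairwise Nat.Coprime)
    (hw0 : ∀ p ∈ B, ∀ x, 0 ≤ w p x) (hw1 : ∀ p ∈ B, ∀ x, w p x ≤ 1)
    (hw : ∀ p ∈ B, ∀ x, w p (x + p) = w p x) (hκ : 0 ≤ κ) (hν : ∀ p ∈ B, nu w p ≤ κ)
    (hbig : ∀ p ∈ B, 2 * κ ≤ p) {c : ℝ} (hc : ∑ p ∈ B, 1 / (p : ℝ) ≤ c)
    {m : ℕ} (hm : Odd m) {Q : ℕ} {x : ℕ → ℝ} {W e σ Λ : ℝ} {J : ℕ}
    (hQ : Nat.Coprime Q (∏ p ∈ B, p)) (hx : ∀ t, 0 ≤ x t) (hW : 0 ≤ W) (he : 0 ≤ e) (hσ : 0 ≤ σ)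
    (hΛ : 0 ≤ Λ) (h : Sv Q x W e σ Λ J) :
    Sv (Q * ∏ p ∈ B, p) (fun t => x t * ∏ p ∈ B, (1 - w p t)) (W * ∏ p ∈ B, (1 - nu w p / p)) e
      (σ + Real.exp (2 * κ * c) * ((κ * c) ^ m / (m.factorial : ℝ)))
      (Λ * (1 + κ * B.card) ^ m) (J + 1) := by
  set ρ := Real.exp (2 * κ * c) * ((κ * c) ^ m / (m.factorial : ℝ)) with hρ
  have hν0 : ∀ p ∈ B, 0 ≤ nu w p := fun p hp => nu_nonneg (hw0 p hp)
  have hp0 : ∀ p ∈ B, (0 : ℝ) < p := fun p hp => by exact_mod_cast hpos p hp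
  have hr0 : ∀ p ∈ B, 0 ≤ nu w p / p := fun p hp => div_nonneg (hν0 p hp) (hp0 p hp).le
  have hr2 : ∀ p ∈ B, nu w p / p ≤ 1 / 2 := by
    intro p hp
    rw [div_le_iff₀ (hp0 p hp)]
    have := hν p hp
    have := hbig p hp
    linarith
  have hr1 : ∀ p ∈ B, nu w p / p ≤ 1 := fun p hp => by linarith [hr2 p hp]
  have hc0 : 0 ≤ c := le_trans (Finset.sum_nonneg (fun _ _ => by positivity)) hc
  have hsumr : ∑ p ∈ B, nu w p / p ≤ κ * c := by
    calc ∑ p ∈ B, nu w p / p ≤ ∑ p ∈ B, κ * (1 / (p : ℝ)) := by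
          apply Finset.sum_le_sum
          intro p hp
          rw [mul_one_div]
          exact div_le_div_of_nonneg_right (hν p hp) (hp0 p hp).le
      _ = κ * ∑ p ∈ B, 1 / (p : ℝ) := by rw [Finset.mul_sum]
      _ ≤ _ := mul_le_mul_of_nonneg_left hc hκ
  have hsumr0 : 0 ≤ ∑ p ∈ B, nu w p / p := Finset.sum_nonneg hr0
  set WB := ∏ p ∈ B, (1 - nu w p / p) with hWB
  have hWB1 : WB ≤ 1 := Finset.prod_le_one (fun p hp => by linarith [hr1 p hp])
    (fun p hp => by linarith [hr0 p hp])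
  have hWBge : Real.exp (-(2 * κ * c)) ≤ WB := by
    calc Real.exp (-(2 * κ * c)) ≤ Real.exp (∑ p ∈ B, -2 * (nu w p / p)) := by
          apply Real.exp_le_exp.2
          rw [← Finset.mul_sum]
          linarith
      _ = ∏ p ∈ B, Real.exp (-2 * (nu w p / p)) := Real.exp_sum _ _
      _ ≤ WB := Finset.prod_le_prod (fun p _ => (Real.exp_pos _).le)
          (fun p hp => exp_neg_two_mul_le (hr0 p hp) (hr2 p hp))
  have hWB0 : 0 < WB := lt_of_lt_of_le (Real.exp_pos _) hWBge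
  set μE := EE B (fun p => nu w p / p) m with hμE
  have hμE0 : 0 ≤ μE := EE_nonneg hr0 m
  have hρ0 : 0 ≤ ρ := by positivity
  have hμE1 : μE ≤ WB * ρ := by
    calc μE ≤ (∑ p ∈ B, nu w p / p) ^ m / (m.factorial : ℝ) := EE_le hr0 m
      _ ≤ (κ * c) ^ m / (m.factorial : ℝ) := by
          apply div_le_div_of_nonneg_right _ (by positivity)
          exact pow_le_pow_left₀ hsumr0 hsumr m
      _ = Real.exp (-(2 * κ * c)) * ρ := by
          rw [hρ, ← mul_assoc, ← Real.exp_add, neg_add_cancel, Real.exp_zero, one_mul]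
      _ ≤ WB * ρ := mul_le_mul_of_nonneg_right hWBge hρ0
  set μT := TT B (fun p => nu w p / p) m with hμT
  have bW := bonferroni hr0 hr1 m
  rw [hm.neg_one_pow] at bW
  have hμT0 : WB ≤ μT := by linarith [bW.1]
  have hμT1 : μT ≤ WB * (1 + ρ) := by
    have := bW.2
    have h2 : μT - WB ≤ μE := by linarith
    linarith
  have hsum := sum_EE_le hκ hν0 hν m
  rw [Finset.sum_range_succ] at hsum
  have hEm : 0 ≤ EE B (nu w) m := EE_nonneg hν0 m
  have hTm : 0 ≤ ∑ j ∈ range m, EE B (nu w) j := Finset.sum_nonneg (fun j _ => EE_nonneg hν0 j)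
  obtain ⟨U, D, μU, μD, h1, h2, h3, h4, h5, h6, h7, h8⟩ := h
  have ctT := ctl_TT hpos hcop hw0 hw m
  have ctE := ctl_EE hpos hcop hw0 hw m
  have hpt : ∀ t, 0 ≤ ∏ p ∈ B, (1 - w p t) := fun t =>
    Finset.prod_nonneg (fun p hp => by linarith [hw1 p hp t])
  have hJ : (0 : ℝ) ≤ J := Nat.cast_nonneg _
  refine ⟨fun t => U t * TT B (fun p => w p t) m,
    fun t => D t * TT B (fun p => w p t) m + U t * EE B (fun p => w p t) m,
    μU * μT, μD * μT + μU * μE, ?_, ?_, ?_, ?_, ?_, ?_, ?_, ?_⟩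
  · intro t
    have b := bonferroni (fun p hp => hw0 p hp t) (fun p hp => hw1 p hp t) m
    rw [hm.neg_one_pow] at b
    exact mul_le_mul (h1 t) (by linarith [b.1]) (hpt t) ((hx t).trans (h1 t))
  · intro t
    have b := bonferroni (fun p hp => hw0 p hp t) (fun p hp => hw1 p hp t) m
    rw [hm.neg_one_pow] at b
    set T := TT B (fun p => w p t) m
    set E := EE B (fun p => w p t) m
    set xB := ∏ p ∈ B, (1 - w p t)
    have hT0 : 0 ≤ T := by linarith [b.1, hpt t]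
    have hTx : T - xB ≤ E := by linarith [b.2]
    have hTx0 : 0 ≤ T - xB := by linarith [b.1]
    have e1 : U t * T - x t * xB = (U t - x t) * T + x t * (T - xB) := by ring
    show U t * T - x t * xB ≤ D t * T + U t * E
    rw [e1]
    apply add_le_add
    · exact mul_le_mul_of_nonneg_right (h2 t) hT0
    · exact mul_le_mul (h1 t) hTx hTx0 ((hx t).trans (h1 t))
  · refine (h3.mul hQ ctT).mono ?_
    exact mul_le_mul_of_nonneg_left (by linarith) hΛ
  · refine ((h4.mul hQ ctT).add (h3.mul hQ ctE)).mono ?_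
    have e1 : (J + 1) * Λ * ∑ j ∈ range m, EE B (nu w) j ≤ (J + 1) * Λ * (1 + κ * B.card) ^ m :=
      mul_le_mul_of_nonneg_left (by linarith) (by positivity)
    have e2 : Λ * EE B (nu w) m ≤ Λ * (1 + κ * B.card) ^ m :=
      mul_le_mul_of_nonneg_left (by linarith) hΛ
    push_cast
    linarith
  · exact mul_le_mul h5 hμT0 hWB0.le (hW.trans h5)
  · have hexpρ : 1 + ρ ≤ Real.exp ρ := by
      have := Real.add_one_le_exp ρ
      linarith
    calc μU * μT ≤ ((W + e) * Real.exp σ) * (WB * (1 + ρ)) :=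
          mul_le_mul h6 hμT1 (hWB0.le.trans hμT0) (by positivity)
      _ ≤ ((W + e) * Real.exp σ) * (WB * Real.exp ρ) := by
          apply mul_le_mul_of_nonneg_left _ (by positivity)
          exact mul_le_mul_of_nonneg_left hexpρ hWB0.le
      _ = (W * WB + e * WB) * Real.exp (σ + ρ) := by
          rw [Real.exp_add]
          ring
      _ ≤ (W * WB + e) * Real.exp (σ + ρ) := by
          apply mul_le_mul_of_nonneg_right _ (Real.exp_pos _).le
          have : e * WB ≤ e * 1 := mul_le_mul_of_nonneg_left hWB1 he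
          linarith
  · have hμU0 : 0 ≤ μU := hW.trans h5
    have hμT0' : 0 ≤ μT := hWB0.le.trans hμT0
    positivity
  · have hexpρ : 1 + ρ ≤ Real.exp ρ := by
      have := Real.add_one_le_exp ρ
      linarith
    have hexp1 : 1 ≤ Real.exp ρ := by linarith
    have hμU0 : 0 ≤ μU := hW.trans h5
    have hμT0' : 0 ≤ μT := hWB0.le.trans hμT0
    have e1 : μD * μT ≤ ((W + e) * σ * Real.exp σ + e * Real.exp σ) * (WB * Real.exp ρ) := by
      apply mul_le_mul h8 _ hμT0' (by positivity)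
      exact hμT1.trans (mul_le_mul_of_nonneg_left hexpρ hWB0.le)
    have e2 : μU * μE ≤ ((W + e) * Real.exp σ) * (WB * ρ) :=
      mul_le_mul h6 hμE1 hμE0 (by positivity)
    have e3 : ((W + e) * Real.exp σ) * (WB * ρ) ≤ ((W + e) * Real.exp σ) * (WB * (ρ * Real.exp ρ)) := by
      apply mul_le_mul_of_nonneg_left _ (by positivity)
      apply mul_le_mul_of_nonneg_left _ hWB0.le
      nlinarith
    have e4 : ((W + e) * σ * Real.exp σ + e * Real.exp σ) * (WB * Real.exp ρ)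
        + ((W + e) * Real.exp σ) * (WB * (ρ * Real.exp ρ))
        = (W * WB + e * WB) * (σ + ρ) * Real.exp (σ + ρ) + (e * WB) * Real.exp (σ + ρ) := by
      rw [Real.exp_add]
      ring
    have e5 : e * WB ≤ e := by
      have : e * WB ≤ e * 1 := mul_le_mul_of_nonneg_left hWB1 he
      linarith
    have e6 : (W * WB + e * WB) * (σ + ρ) * Real.exp (σ + ρ)
        ≤ (W * WB + e) * (σ + ρ) * Real.exp (σ + ρ) := by
      apply mul_le_mul_of_nonneg_right _ (Real.exp_pos _).le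
      apply mul_le_mul_of_nonneg_right _ (by positivity)
      linarith
    have e7 : (e * WB) * Real.exp (σ + ρ) ≤ e * Real.exp (σ + ρ) :=
      mul_le_mul_of_nonneg_right e5 (Real.exp_pos _).le
    linarith

end Sieve

end Pool.Agent.Helper90.Twin
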