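import Pool.Agent.Helper90.TwinQ

set_option autoImplicit false

open Finset Filter Topology

namespace Pool.Agent.Helper90.Twin

theorem Sv.mono {Q : ℕ} {x : ℕ → ℝ} {W e σ Λ Λ' : ℝ} {J : ℕ} (h : Sv Q x W e σ Λ J)
    (hΛ : Λ ≤ Λ') : Sv Q x W e σ Λ' J := by
  obtain ⟨U, D, μU, μD, h1, h2, h3, h4, h5, h6, h7, h8⟩ := h
  exact ⟨U, D, μU, μD, h1, h2, h3.mono hΛ,
    h4.mono (mul_le_mul_of_nonneg_left hΛ (by positivity)), h5, h6, h7, h8⟩

/-- the total relative error of the blocks -/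
noncomputable def sg (κ : ℝ) (J M : ℕ) : ℝ :=
  ∑ i ∈ range J, Real.exp (2 * κ * 12) * ((κ * 12) ^ (M + 2 * i) / ((M + 2 * i).factorial : ℝ))

theorem sg_succ (κ : ℝ) (J M : ℕ) : sg κ (J + 1) M
    = sg κ J (M + 2) + Real.exp (2 * κ * 12) * ((κ * 12) ^ M / (M.factorial : ℝ)) := by
  unfold sg
  rw [Finset.sum_range_succ']
  simp only [mul_zero, add_zero]
  congr 1
  apply Finset.sum_congr rfl
  intro i _
  have : M + 2 * (i + 1) = M + 2 + 2 * i := by ring
  rw [this]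

theorem sg_nonneg {κ : ℝ} (hκ : 0 ≤ κ) (J M : ℕ) : 0 ≤ sg κ J M :=
  Finset.sum_nonneg (fun i _ => by positivity)

theorem sg_le {κ : ℝ} (hκ : 0 ≤ κ) (J M : ℕ) : sg κ J M
    ≤ Real.exp (2 * κ * 12) * Real.exp (κ * 12) * ((κ * 12) ^ M / (M.factorial : ℝ)) := by
  unfold sg
  rw [← Finset.mul_sum, mul_assoc (Real.exp (2 * κ * 12))]
  apply mul_le_mul_of_nonneg_left _ (Real.exp_pos _).le
  set x := κ * 12 with hx
  have hx0 : 0 ≤ x := by positivity
  have h1 : ∀ i ∈ range J, x ^ (M + 2 * i) / ((M + 2 * i).factorial : ℝ)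
      ≤ (x ^ M / (M.factorial : ℝ)) * (x ^ (2 * i) / ((2 * i).factorial : ℝ)) := by
    intro i _
    have h2 : (M.factorial : ℝ) * ((2 * i).factorial : ℝ) ≤ ((M + 2 * i).factorial : ℝ) := by
      exact_mod_cast Nat.le_of_dvd (Nat.factorial_pos _) (Nat.factorial_mul_factorial_dvd_factorial_add M (2 * i))
    have h3 : (0 : ℝ) < (M.factorial : ℝ) := by exact_mod_cast M.factorial_pos
    have h4 : (0 : ℝ) < ((2 * i).factorial : ℝ) := by exact_mod_cast (2 * i).factorial_pos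
    rw [div_mul_div_comm, ← pow_add]
    exact div_le_div_of_nonneg_left (by positivity) (by positivity) h2
  refine (Finset.sum_le_sum h1).trans ?_
  rw [← Finset.mul_sum, mul_comm]
  apply mul_le_mul_of_nonneg_right _ (by positivity)
  have h5 : ∑ i ∈ range J, x ^ (2 * i) / ((2 * i).factorial : ℝ)
      ≤ ∑ i ∈ range (2 * J), x ^ i / (i.factorial : ℝ) := by
    have h6 : ∑ i ∈ range J, x ^ (2 * i) / ((2 * i).factorial : ℝ)
        = ∑ i ∈ (range J).image (fun i => 2 * i), x ^ i / (i.factorial : ℝ) := by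
      rw [Finset.sum_image]
      intro a _ b _ hab
      simp only at hab
      omega
    rw [h6]
    apply Finset.sum_le_sum_of_subset_of_nonneg
    · intro a ha
      rw [Finset.mem_image] at ha
      obtain ⟨b, hb, rfl⟩ := ha
      rw [mem_range] at hb ⊢
      omega
    · intro i _ _
      positivity
  exact h5.trans (Real.sum_le_exp_of_nonneg hx0 _)

theorem iterate_sqrt_le (J z : ℕ) : Nat.sqrt^[J] z ≤ z := by
  induction J generalizing z with
  | zero => simp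
  | succ J ih =>
    rw [Function.iterate_succ_apply]
    exact (ih _).trans (Nat.sqrt_le_self z)

theorem card_Ps_le (z : ℕ) : ((Ps z).card : ℝ) ≤ z := by
  have h1 : Ps z ⊆ Icc 1 z := by
    intro p hp
    rw [mem_Ps] at hp
    rw [Finset.mem_Icc]
    omega
  have h2 := Finset.card_le_card h1
  rw [Nat.card_Icc] at h2
  exact_mod_cast (by omega : (Ps z).card ≤ z)

theorem Ps_cop (z : ℕ) : ((Ps z : Finset ℕ) : Set ℕ).Pairwise Nat.Coprime := (sieveSys z).cop

section Rec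

variable {w : ℕ → ℕ → ℝ} {κ : ℝ}

theorem sv_rec (hκ : 1 ≤ κ)
    (hw0 : ∀ p, p.Prime → 5 ≤ p → ∀ x, 0 ≤ w p x)
    (hw1 : ∀ p, p.Prime → 5 ≤ p → ∀ x, w p x ≤ 1)
    (hw : ∀ p, p.Prime → 5 ≤ p → ∀ x, w p (x + p) = w p x)
    (hν : ∀ p, p.Prime → 5 ≤ p → nu w p ≤ κ) {m0 : ℕ} (hm0 : Odd m0) {e : ℝ} (he : 0 ≤ e) :
    ∀ (J z M : ℕ), Odd M → 2 * κ + 2 ≤ ((Nat.sqrt^[J] z : ℕ) : ℝ) →
      EE (Ps (Nat.sqrt^[J] z)) (fun p => nu w p / p) m0 ≤ e →
      Sv (∏ p ∈ Ps z, p) (fun t => ∏ p ∈ Ps z, (1 - w p t)) (∏ p ∈ Ps z, (1 - nu w p / p)) e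
        (sg κ J M) ((1 + κ * (Ps (Nat.sqrt^[J] z)).card) ^ m0 * (z : ℝ) ^ (4 * M + 8)) J := by
  have hprop : ∀ z : ℕ, (∀ p ∈ Ps z, 0 < p) ∧ (∀ p ∈ Ps z, ∀ x, 0 ≤ w p x) ∧
      (∀ p ∈ Ps z, ∀ x, w p x ≤ 1) ∧ (∀ p ∈ Ps z, ∀ x, w p (x + p) = w p x) ∧
      (∀ p ∈ Ps z, nu w p ≤ κ) := by
    intro z
    refine ⟨?_, ?_, ?_, ?_, ?_⟩ <;> intro p hp <;> rw [mem_Ps] at hp
    · omega
    · exact hw0 p hp.2.2 hp.1
    · exact hw1 p hp.2.2 hp.1
    · exact hw p hp.2.2 hp.1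
    · exact hν p hp.2.2 hp.1
  intro J
  induction J with
  | zero =>
    intro z M _ hb hE
    simp only [Function.iterate_zero, id] at hb hE ⊢
    obtain ⟨a1, a2, a3, a4, a5⟩ := hprop z
    have hz1 : (1 : ℝ) ≤ z := by linarith
    have hsg : sg κ 0 M = 0 := by simp [sg]
    rw [hsg]
    apply sv_base a1 (Ps_cop z) a2 a3 a4 (by linarith) a5 hm0 hE
    calc (1 + κ * ((Ps z).card : ℝ)) ^ m0 = (1 + κ * ((Ps z).card : ℝ)) ^ m0 * 1 := (mul_one _).symm
      _ ≤ _ := by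
        apply mul_le_mul_of_nonneg_left (one_le_pow₀ hz1)
        have : 0 ≤ κ := by linarith
        positivity
  | succ J ih =>
    intro z M hM hb hE
    rw [Function.iterate_succ_apply] at hb hE ⊢
    set z' := Nat.sqrt z with hz'
    have IH := ih z' (M + 2) (by rw [Nat.odd_add]; exact ⟨fun _ => even_two, fun _ => hM⟩) hb hE
    have hbz' : Nat.sqrt^[J] z' ≤ z' := iterate_sqrt_le J z'
    have hz'z : z' ≤ z := Nat.sqrt_le_self z
    have hz'R : 2 * κ + 2 ≤ (z' : ℝ) := hb.trans (by exact_mod_cast hbz')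
    have hzR : 2 * κ + 2 ≤ (z : ℝ) := hz'R.trans (by exact_mod_cast hz'z)
    have hz4 : 4 ≤ z := by
      have : (4 : ℝ) ≤ z := by linarith
      exact_mod_cast this
    have hsub : Ps z' ⊆ Ps z := Ps_mono hz'z
    set B := Ps z \ Ps z' with hB
    have hBsub : B ⊆ Ps z := Finset.sdiff_subset
    obtain ⟨a1, a2, a3, a4, a5⟩ := hprop z
    have hcopQ : Nat.Coprime (∏ p ∈ Ps z', p) (∏ p ∈ B, p) := by
      apply Nat.Coprime.prod_left
      intro p hp
      apply Nat.Coprime.prod_right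
      intro q hq
      apply Ps_cop z (Finset.mem_coe.2 (hsub hp)) (Finset.mem_coe.2 (hBsub hq))
      rintro rfl
      exact (Finset.mem_sdiff.1 hq).2 hp
    have hstep := sv_step (w := w) (κ := κ) (B := B) (fun p hp => a1 p (hBsub hp))
      ((Ps_cop z).mono (by exact_mod_cast hBsub)) (fun p hp => a2 p (hBsub hp))
      (fun p hp => a3 p (hBsub hp)) (fun p hp => a4 p (hBsub hp)) (by linarith)
      (fun p hp => a5 p (hBsub hp)) ?_ (c := 12) (block_sum z hz4) hM hcopQ ?_ ?_ he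
      (sg_nonneg (by linarith) J (M + 2)) ?_ IH
    · -- identify
      have e1 : (∏ p ∈ Ps z', p) * ∏ p ∈ B, p = ∏ p ∈ Ps z, p := by
        rw [mul_comm, Finset.prod_sdiff hsub]
      have e2 : (fun t => (∏ p ∈ Ps z', (1 - w p t)) * ∏ p ∈ B, (1 - w p t))
          = fun t => ∏ p ∈ Ps z, (1 - w p t) := by
        funext t
        rw [mul_comm, Finset.prod_sdiff hsub]
      have e3 : (∏ p ∈ Ps z', (1 - nu w p / p)) * ∏ p ∈ B, (1 - nu w p / p)
          = ∏ p ∈ Ps z, (1 - nu w p / p) := by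
        rw [mul_comm, Finset.prod_sdiff hsub]
      rw [e1, e2, e3, ← sg_succ] at hstep
      refine hstep.mono ?_
      set A := (1 + κ * ((Ps (Nat.sqrt^[J] z')).card : ℝ)) ^ m0 with hA
      have hκ0 : 0 ≤ κ := by linarith
      have hA0 : 0 ≤ A := by positivity
      have hcard : (B.card : ℝ) ≤ z := by
        have h1 : (B.card : ℝ) ≤ (Ps z).card := by exact_mod_cast Finset.card_le_card hBsub
        exact h1.trans (card_Ps_le z)
      have h2 : 1 + κ * (B.card : ℝ) ≤ (z : ℝ) ^ 2 := by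
        have : κ * (B.card : ℝ) ≤ κ * z := mul_le_mul_of_nonneg_left hcard hκ0
        nlinarith
      have h3 : (z' : ℝ) ^ 2 ≤ z := by
        have : z' * z' ≤ z := Nat.sqrt_le z
        rw [sq]
        exact_mod_cast this
      have h4 : (z' : ℝ) ^ (4 * (M + 2) + 8) ≤ (z : ℝ) ^ (2 * M + 8) := by
        have : 4 * (M + 2) + 8 = 2 * (2 * M + 8) := by ring
        rw [this, pow_mul]
        exact pow_le_pow_left₀ (by positivity) h3 _
      have h5 : (1 + κ * (B.card : ℝ)) ^ M ≤ (z : ℝ) ^ (2 * M) := by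
        rw [pow_mul]
        exact pow_le_pow_left₀ (by positivity) h2 _
      calc A * (z' : ℝ) ^ (4 * (M + 2) + 8) * (1 + κ * (B.card : ℝ)) ^ M
          ≤ A * (z : ℝ) ^ (2 * M + 8) * (z : ℝ) ^ (2 * M) := by
            apply mul_le_mul (mul_le_mul_of_nonneg_left h4 hA0) h5 (by positivity) (by positivity)
        _ = A * (z : ℝ) ^ (4 * M + 8) := by
            rw [mul_assoc, ← pow_add]
            congr 2
            ring
    · intro p hp
      rw [hB, Finset.mem_sdiff, mem_Ps, mem_Ps] at hp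
      have h1 : z' < p := by
        by_contra hcon
        exact hp.2 ⟨hp.1.1, by omega, hp.1.2.2⟩
      have h2 : (z' : ℝ) < p := by exact_mod_cast h1
      linarith
    · intro t
      exact Finset.prod_nonneg (fun p hp => by linarith [a3 p (hsub hp) t])
    · apply Finset.prod_nonneg
      intro p hp
      have hp' := mem_Ps.1 hp
      have h5 : (0 : ℝ) < p := by exact_mod_cast (by omega : 0 < p)
      have h6 : nu w p / p ≤ 1 := by
        rw [div_le_one h5]
        calc nu w p ≤ ∑ x ∈ range p, (1 : ℝ) :=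
              Finset.sum_le_sum (fun x _ => a3 p (hsub hp) x)
          _ = p := by simp
      linarith
    · have hκ0 : 0 ≤ κ := by linarith
      positivity

end Rec

/-- iterated square roots -/
theorem lt_iterate_sqrt_pow (J z : ℕ) : z < (Nat.sqrt^[J] z + 1) ^ (2 ^ J) := by
  induction J generalizing z with
  | zero => simp
  | succ J ih =>
    rw [Function.iterate_succ_apply]
    have h1 := ih (Nat.sqrt z)
    have h2 : z < (Nat.sqrt z + 1) * (Nat.sqrt z + 1) := Nat.lt_succ_sqrt z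
    have h3 : Nat.sqrt z + 1 ≤ (Nat.sqrt^[J] (Nat.sqrt z) + 1) ^ (2 ^ J) := h1
    calc z < (Nat.sqrt z + 1) * (Nat.sqrt z + 1) := h2
      _ ≤ (Nat.sqrt^[J] (Nat.sqrt z) + 1) ^ (2 ^ J) * (Nat.sqrt^[J] (Nat.sqrt z) + 1) ^ (2 ^ J) :=
          Nat.mul_le_mul h3 h3
      _ = _ := by
          rw [← pow_add]
          congr 1
          ring

theorem iterate_sqrt_pow_le (J z : ℕ) : (Nat.sqrt^[J] z) ^ (2 ^ J) ≤ z := by
  induction J generalizing z with
  | zero => simp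
  | succ J ih =>
    rw [Function.iterate_succ_apply]
    have h1 := ih (Nat.sqrt z)
    calc (Nat.sqrt^[J] (Nat.sqrt z)) ^ (2 ^ (J + 1))
        = (Nat.sqrt^[J] (Nat.sqrt z)) ^ (2 ^ J) * (Nat.sqrt^[J] (Nat.sqrt z)) ^ (2 ^ J) := by
          rw [← pow_add]
          congr 1
          ring
      _ ≤ Nat.sqrt z * Nat.sqrt z := Nat.mul_le_mul h1 h1
      _ ≤ z := Nat.sqrt_le z

end Pool.Agent.Helper90.Twin
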