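import Pool.Agent.Helper78.BigMap.Goals
import Mathlib.Analysis.Complex.CoveringMap

set_option autoImplicit false

open Topology Filter Set Metric

namespace Pool.Agent.Helper90.Big

open Pool.Agent.Helper78.BigMap

theorem homotopy_index (α : unitInterval × ℝ → ℂ) (hα : Continuous α) (h0 : ∀ p, α p ≠ 0)
    (per : ∀ s t, α (s, t + 2 * Real.pi) = α (s, t)) (u0 : ℝ → ℂ) (hu0 : Continuous u0)
    (he : ∀ t, Complex.exp (u0 t) = α (0, t))
    (hper : ∀ t, u0 (t + 2 * Real.pi) = u0 t + 2 * Real.pi * Complex.I) :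
    ∃ u : ℝ → ℂ, Continuous u ∧ (∀ t, Complex.exp (u t) = α (1, t)) ∧
      ∀ t, u (t + 2 * Real.pi) = u t + 2 * Real.pi * Complex.I := by
  have cov := Complex.isCoveringMap_exp
  let H : C(unitInterval × ℝ, {z : ℂ // z ≠ 0}) := ⟨fun p => ⟨α p, h0 p⟩, by fun_prop⟩
  let f : C(ℝ, ℂ) := ⟨u0, hu0⟩
  have H0 : ∀ a, H (0, a) = (fun z : ℂ => (⟨_, z.exp_ne_zero⟩ : {z : ℂ // z ≠ 0})) (f a) := by
    intro a
    apply Subtype.ext
    exact (he a).symm
  let v := cov.liftHomotopy H f H0
  have hv : ∀ p, Complex.exp (v p) = α p := by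
    intro p
    have := congr_fun (cov.liftHomotopy_lifts H f H0) p
    exact congrArg Subtype.val this
  have hv0 : ∀ a, v (0, a) = u0 a := cov.liftHomotopy_zero H f H0
  refine ⟨fun t => v (1, t), by fun_prop, fun t => hv (1, t), fun t => ?_⟩
  have key : (fun s : unitInterval => v (s, t + 2 * Real.pi)) =
      fun s : unitInterval => v (s, t) + 2 * Real.pi * Complex.I := by
    refine cov.eq_of_comp_eq (by fun_prop) (by fun_prop) ?_ 0 ?_
    · funext s
      apply Subtype.ext
      simp only [Function.comp]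
      rw [hv, per, Complex.exp_add, hv, Complex.exp_two_pi_mul_I, mul_one]
    · simp only [hv0, hper]
  exact congr_fun key 1

theorem goalC2 : GoalC2 := by
  intro Φ hΦ hinj hid s z
  filter_upwards [self_mem_nhdsWithin] with r hr
  have hr : (0 : ℝ) < r := hr
  let α : unitInterval × ℝ → ℂ := fun p =>
    Φ (s * (p.1 : ℝ)) (z + r * Complex.exp (p.2 * Complex.I)) - Φ (s * (p.1 : ℝ)) z
  have hα : Continuous α := by
    have h1 : Continuous fun p : unitInterval × ℝ =>
        Φ (s * (p.1 : ℝ)) (z + r * Complex.exp (p.2 * Complex.I)) :=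
      hΦ.comp (f := fun p : unitInterval × ℝ =>
        ((s * (p.1 : ℝ), z + r * Complex.exp (p.2 * Complex.I)) : ℝ × ℂ)) (by fun_prop)
    have h2 : Continuous fun p : unitInterval × ℝ => Φ (s * (p.1 : ℝ)) z :=
      hΦ.comp (f := fun p : unitInterval × ℝ => ((s * (p.1 : ℝ), z) : ℝ × ℂ)) (by fun_prop)
    exact h1.sub h2
  have hrc : (r : ℂ) ≠ 0 := by exact_mod_cast hr.ne'
  have hα0 : ∀ p, α p ≠ 0 := by
    intro p h
    have := hinj _ (sub_eq_zero.1 h)
    have h2 : (r : ℂ) * Complex.exp (p.2 * Complex.I) = 0 := by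
      simpa using this
    exact mul_ne_zero hrc (Complex.exp_ne_zero _) h2
  obtain ⟨u, hu, hu1, hu2⟩ := homotopy_index α hα hα0 (by
      intro s' t
      simp only [α]
      have : Complex.exp (((t + 2 * Real.pi : ℝ) : ℂ) * Complex.I) =
          Complex.exp ((t : ℂ) * Complex.I) := by
        push_cast
        rw [add_mul, Complex.exp_add, Complex.exp_two_pi_mul_I, mul_one]
      rw [this]) (fun t => ((Real.log r : ℝ) : ℂ) + t * Complex.I) (by fun_prop) (by
      intro t
      simp only [α]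
      rw [Complex.exp_add, ← Complex.ofReal_exp, Real.exp_log hr]
      simp [hid]) (by
      intro t
      push_cast
      ring)
  refine ⟨u, hu, fun t => ?_, hu2⟩
  rw [hu1]
  simp [α]

theorem goalC1 : GoalC1 := by
  intro F G z hF hFc hG hGc hGi _
  obtain ⟨ρ, hρ, hρ1⟩ := Metric.eventually_nhds_iff.1 (hGc.and hGi)
  -- choose ρ'
  obtain ⟨ρ', ⟨uG, huG, huG1, huG2⟩, hρ'⟩ := (hG.and (Ioo_mem_nhdsGT hρ)).exists
  obtain ⟨δ, hδ, hδ1⟩ := Metric.continuousAt_iff.1 hFc ρ hρ
  filter_upwards [hF, Ioo_mem_nhdsGT hδ] with r hr hr2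
  obtain ⟨u, hu, hu1, hu2⟩ := hr
  have hunorm : ∀ t, (u t).re < Real.log ρ := by
    intro t
    have h1 : dist (z + r * Complex.exp (t * Complex.I)) z < δ := by
      rw [dist_eq_norm, add_sub_cancel_left, norm_mul, Complex.norm_exp_ofReal_mul_I, mul_one,
        Complex.norm_real, Real.norm_of_nonneg hr2.1.le]
      exact hr2.2
    have h2 := hδ1 h1
    rw [hu1, dist_eq_norm, add_sub_cancel_left, Complex.norm_exp] at h2
    exact (Real.lt_log_iff_exp_lt hρ).2 h2
  have hlogρ' : Real.log ρ' < Real.log ρ := Real.log_lt_log hρ'.1 hρ'.2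
  let w : unitInterval × ℝ → ℂ := fun p =>
    ((1 - (p.1 : ℝ) : ℝ) : ℂ) * (((Real.log ρ' : ℝ) : ℂ) + p.2 * Complex.I) +
      ((p.1 : ℝ) : ℂ) * u p.2
  have hw : Continuous w := by
    simp only [w]
    fun_prop
  have hwre : ∀ p, (w p).re < Real.log ρ := by
    intro p
    have h1 : (w p).re = (1 - (p.1 : ℝ)) * Real.log ρ' + (p.1 : ℝ) * (u p.2).re := by
      simp [w]
    rw [h1]
    have hp0 : 0 ≤ (p.1 : ℝ) := p.1.2.1
    have hp1 : (p.1 : ℝ) ≤ 1 := p.1.2.2
    have h2 := hunorm p.2
    rcases hp0.eq_or_lt with h | h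
    · rw [← h]
      simpa using hlogρ'
    · nlinarith
  have hball : ∀ p, dist (F z + Complex.exp (w p)) (F z) < ρ := by
    intro p
    rw [dist_eq_norm, add_sub_cancel_left, Complex.norm_exp]
    exact (Real.lt_log_iff_exp_lt hρ).1 (hwre p)
  let α : unitInterval × ℝ → ℂ := fun p => G (F z + Complex.exp (w p)) - G (F z)
  have hα : Continuous α := by
    have h1 : Continuous fun p => G (F z + Complex.exp (w p)) := by
      rw [continuous_iff_continuousAt]
      intro p
      exact ContinuousAt.comp (f := fun p => F z + Complex.exp (w p)) (hρ1 (hball p)).1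
        (by fun_prop)
    exact h1.sub continuous_const
  have hα0 : ∀ p, α p ≠ 0 := by
    intro p h
    have := (hρ1 (hball p)).2 (sub_eq_zero.1 h)
    exact Complex.exp_ne_zero (w p) (by simpa using this)
  obtain ⟨v, hv, hv1, hv2⟩ := homotopy_index α hα hα0 (by
      intro s t
      have : Complex.exp (w (s, t + 2 * Real.pi)) = Complex.exp (w (s, t)) := by
        have h3 : w (s, t + 2 * Real.pi) = w (s, t) + 2 * Real.pi * Complex.I := by
          simp only [w, hu2]
          push_cast
          ring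
        rw [h3, Complex.exp_add, Complex.exp_two_pi_mul_I, mul_one]
      simp only [α, this]) uG huG (by
      intro t
      have h4 : Complex.exp (w (0, t)) = ρ' * Complex.exp (t * Complex.I) := by
        have : w (0, t) = ((Real.log ρ' : ℝ) : ℂ) + t * Complex.I := by
          simp [w]
        rw [this, Complex.exp_add, ← Complex.ofReal_exp, Real.exp_log hρ'.1]
      simp only [α, h4]
      rw [huG1, add_sub_cancel_left]) huG2
  refine ⟨v, hv, fun t => ?_, hv2⟩
  rw [hv1]
  have h5 : Complex.exp (w (1, t)) = Complex.exp (u t) := by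
    simp [w]
  simp only [α, h5]
  rw [hu1]
  ring

end Pool.Agent.Helper90.Big
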