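import Pool.Agent.Helper90.TwinH

set_option autoImplicit false

open Finset Filter Topology

namespace Pool.Agent.Helper90.Twin

/-! ### Sums of reciprocals of primes -/

theorem tendsto_Sz : Tendsto Sz atTop atTop := by
  have h1 : Tendsto (fun n : ℕ => ∑ i ∈ Finset.range n,
      Set.indicator {p : ℕ | p.Prime} (fun n : ℕ => (1 : ℝ) / n) i) atTop atTop := by
    rw [← not_summable_iff_tendsto_nat_atTop_of_nonneg]
    · exact not_summable_one_div_on_primes
    · intro n
      apply Set.indicator_nonneg
      intro x _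
      positivity
  have h2 : Tendsto (fun n : ℕ => (∑ i ∈ Finset.range n,
      Set.indicator {p : ℕ | p.Prime} (fun n : ℕ => (1 : ℝ) / n) i) + (-2 : ℝ)) atTop atTop :=
    tendsto_atTop_add_const_right _ _ h1
  refine tendsto_atTop_mono' _ ?_ h2
  filter_upwards [eventually_ge_atTop 5] with n hn
  have h3 : ∑ i ∈ Finset.range n, Set.indicator {p : ℕ | p.Prime} (fun n : ℕ => (1 : ℝ) / n) i
      ≤ ∑ i ∈ Finset.range 5, (1 / 2 : ℝ) * (if i.Prime then 1 else 0) + Sz n := by
    have h4 : Finset.range n = Finset.range 5 ∪ Ico 5 n := by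
      ext x
      simp only [Finset.mem_union, Finset.mem_range, Finset.mem_Ico]
      omega
    rw [h4, Finset.sum_union]
    · apply add_le_add
      · apply Finset.sum_le_sum
        intro i _
        by_cases hi : i.Prime
        · rw [Set.indicator_of_mem (by exact hi), if_pos hi, mul_one]
          have : (2 : ℝ) ≤ i := by exact_mod_cast hi.two_le
          exact one_div_le_one_div_of_le (by norm_num) this
        · rw [Set.indicator_of_notMem (by exact hi), if_neg hi, mul_zero]
      · unfold Sz Ps
        rw [Finset.sum_filter]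
        calc ∑ i ∈ Ico 5 n, Set.indicator {p : ℕ | p.Prime} (fun n : ℕ => (1 : ℝ) / n) i
            = ∑ i ∈ Ico 5 n, (if i.Prime then (1 : ℝ) / i else 0) := by
              apply Finset.sum_congr rfl
              intro i _
              by_cases hi : i.Prime
              · rw [Set.indicator_of_mem (by exact hi), if_pos hi]
              · rw [Set.indicator_of_notMem (by exact hi), if_neg hi]
          _ ≤ _ := by
              apply Finset.sum_le_sum_of_subset_of_nonneg
              · intro i hi
                rw [Finset.mem_Ico] at hi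
                rw [Finset.mem_Icc]
                omega
              · intro i _ _
                split_ifs <;> positivity
    · rw [Finset.disjoint_left]
      intro a ha hb
      rw [mem_range] at ha
      rw [Finset.mem_Ico] at hb
      omega
  have h5 : ∑ i ∈ Finset.range 5, (1 / 2 : ℝ) * (if i.Prime then 1 else 0) = 1 := by
    have e0 : ¬ Nat.Prime 0 := by norm_num
    have e1 : ¬ Nat.Prime 1 := by norm_num
    have e2 : Nat.Prime 2 := by norm_num
    have e3 : Nat.Prime 3 := by norm_num
    have e4 : ¬ Nat.Prime 4 := by norm_num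
    simp only [Finset.sum_range_succ, Finset.sum_range_zero, e0, e1, e2, e3, e4, if_true, if_false]
    norm_num
  rw [h5] at h3
  linarith

theorem dyadic_block (n : ℕ) (hn : 1 ≤ n) :
    ∑ p ∈ (Ioc (2 ^ n) (2 ^ (n + 1))).filter Nat.Prime, 1 / (p : ℝ) ≤ 4 / n := by
  set B := (Ioc (2 ^ n) (2 ^ (n + 1))).filter Nat.Prime with hB
  have hlog2 : 0 < Real.log 2 := Real.log_pos (by norm_num)
  have hn0 : (0 : ℝ) < n := by exact_mod_cast hn
  have h1 : (B.card : ℝ) * (n * Real.log 2) ≤ Real.log 4 * 2 ^ (n + 1) := by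
    have h2 := Chebyshev.theta_le_log4_mul_x (x := ((2 ^ (n + 1) : ℕ) : ℝ)) (by positivity)
    rw [Chebyshev.theta_eq_sum_Icc, Nat.floor_natCast] at h2
    calc (B.card : ℝ) * (n * Real.log 2) = ∑ p ∈ B, (n * Real.log 2) := by
          rw [Finset.sum_const, nsmul_eq_mul]
      _ ≤ ∑ p ∈ B, Real.log p := by
          apply Finset.sum_le_sum
          intro p hp
          rw [hB, Finset.mem_filter, Finset.mem_Ioc] at hp
          rw [← Real.log_pow]
          apply Real.log_le_log (by positivity)
          exact_mod_cast hp.1.1.le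
      _ ≤ ∑ p ∈ (Icc 0 (2 ^ (n + 1))).filter Nat.Prime, Real.log p := by
          apply Finset.sum_le_sum_of_subset_of_nonneg
          · intro p hp
            rw [hB, Finset.mem_filter, Finset.mem_Ioc] at hp
            rw [Finset.mem_filter, Finset.mem_Icc]
            exact ⟨⟨Nat.zero_le _, hp.1.2⟩, hp.2⟩
          · intro p hp _
            rw [Finset.mem_filter] at hp
            apply Real.log_nonneg
            exact_mod_cast hp.2.one_lt.le
      _ ≤ _ := by
          refine h2.trans (le_of_eq ?_)
          push_cast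
          ring
  have h4 : Real.log 4 = 2 * Real.log 2 := by
    rw [show (4 : ℝ) = 2 ^ 2 by norm_num, Real.log_pow]
    push_cast
    ring
  have h5 : (B.card : ℝ) * n ≤ 4 * 2 ^ n := by
    rw [h4] at h1
    have h6 : ((B.card : ℝ) * n) * Real.log 2 ≤ (4 * 2 ^ n) * Real.log 2 := by
      calc ((B.card : ℝ) * n) * Real.log 2 = (B.card : ℝ) * (n * Real.log 2) := by ring
        _ ≤ _ := h1
        _ = _ := by ring
    exact le_of_mul_le_mul_right h6 hlog2
  calc ∑ p ∈ B, 1 / (p : ℝ) ≤ ∑ p ∈ B, 1 / (2 : ℝ) ^ n := by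
        apply Finset.sum_le_sum
        intro p hp
        rw [hB, Finset.mem_filter, Finset.mem_Ioc] at hp
        apply one_div_le_one_div_of_le (by positivity)
        exact_mod_cast hp.1.1.le
    _ = (B.card : ℝ) / 2 ^ n := by
        rw [Finset.sum_const, nsmul_eq_mul, mul_one_div]
    _ ≤ 4 / n := by
        rw [div_le_div_iff₀ (by positivity) hn0]
        exact h5

theorem Sz_two_pow (n : ℕ) (hn : 1 ≤ n) : Sz (2 ^ n) ≤ 4 * ∑ j ∈ Ico 1 n, 1 / (j : ℝ) := by
  induction n, hn using Nat.le_induction with
  | base =>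
    unfold Sz Ps
    simp
  | succ n hn ih =>
    rw [Finset.sum_Ico_succ_top hn, mul_add]
    have h1 : Sz (2 ^ (n + 1)) ≤ Sz (2 ^ n)
        + ∑ p ∈ (Ioc (2 ^ n) (2 ^ (n + 1))).filter Nat.Prime, 1 / (p : ℝ) := by
      unfold Sz
      rw [← Finset.sum_union]
      · apply Finset.sum_le_sum_of_subset_of_nonneg
        · intro p hp
          rw [mem_Ps] at hp
          rw [Finset.mem_union, mem_Ps, Finset.mem_filter, Finset.mem_Ioc]
          by_cases h : p ≤ 2 ^ n
          · exact Or.inl ⟨hp.1, h, hp.2.2⟩
          · exact Or.inr ⟨⟨by omega, hp.2.1⟩, hp.2.2⟩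
        · intro p _ _
          positivity
      · rw [Finset.disjoint_left]
        intro p hp hq
        rw [mem_Ps] at hp
        rw [Finset.mem_filter, Finset.mem_Ioc] at hq
        omega
    have h2 := dyadic_block n hn
    have h3 : 4 * (1 / (n : ℝ)) = 4 / n := by ring
    rw [h3]
    linarith

/-- the logarithmic size -/
noncomputable def LL (z : ℕ) : ℝ := (Nat.log 2 z : ℝ) + 1

theorem LL_ge_one (z : ℕ) : 1 ≤ LL z := by
  unfold LL
  have : (0 : ℝ) ≤ (Nat.log 2 z : ℝ) := Nat.cast_nonneg _
  linarith

theorem Sz_mono {y z : ℕ} (h : y ≤ z) : Sz y ≤ Sz z :=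
  Finset.sum_le_sum_of_subset_of_nonneg (Ps_mono h) (fun _ _ _ => by positivity)

theorem Sz_le (z : ℕ) : Sz z ≤ 4 + 4 * Real.log (LL z) := by
  have h1 : z ≤ 2 ^ (Nat.log 2 z + 1) := (Nat.lt_pow_succ_log_self (by norm_num) z).le
  have h2 := (Sz_mono h1).trans (Sz_two_pow _ (by omega))
  have h3 : ∑ j ∈ Ico 1 (Nat.log 2 z + 1), 1 / (j : ℝ) ≤ 1 + Real.log (LL z) := by
    have h4 := harmonic_le_one_add_log (Nat.log 2 z)
    have h5 : ((harmonic (Nat.log 2 z) : ℚ) : ℝ) = ∑ j ∈ Ico 1 (Nat.log 2 z + 1), 1 / (j : ℝ) := by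
      rw [harmonic_eq_sum_Icc]
      push_cast
      apply Finset.sum_congr
      · ext x
        simp only [Finset.mem_Icc, Finset.mem_Ico]
        omega
      · intro j _
        rw [one_div]
    rw [← h5]
    refine h4.trans ?_
    have h6 : Real.log (Nat.log 2 z) ≤ Real.log (LL z) := by
      rcases Nat.eq_zero_or_pos (Nat.log 2 z) with h | h
      · unfold LL
        rw [h]
        simp
      · apply Real.log_le_log (by exact_mod_cast h)
        unfold LL
        linarith
    linarith
  linarith

theorem inv_Gz_le_pow (z : ℕ) : (Gz z)⁻¹ ≤ Real.exp 14 * LL z ^ 14 := by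
  refine (inv_Gz_le z).trans ?_
  have h1 := Sz_le z
  have h2 := LL_ge_one z
  have h3 : 0 ≤ Real.log (LL z) := Real.log_nonneg h2
  have h4 : LL z ^ 14 = Real.exp (14 * Real.log (LL z)) := by
    rw [mul_comm, Real.exp_mul, Real.exp_log (by linarith)]
    norm_cast
  rw [h4, ← Real.exp_add]
  apply Real.exp_le_exp.2
  linarith

end Pool.Agent.Helper90.Twin
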