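import Pool.Agent.Helper90.TwinI

set_option autoImplicit false

open Finset Filter Topology

namespace Pool.Agent.Helper90.Twin

/-- the sifted indicator for the primes in `[5,z]` -/
noncomputable def Xz (z : ℕ) (k : ℕ) : ℝ := XX (Ps z) yy k

noncomputable def Hf (lam : ℝ) (z : ℕ) : ℕ := ⌈lam / Gz z⌉₊

noncomputable def Yf (lam : ℝ) (z : ℕ) : ℕ := 3 * Hf lam z + 1

noncomputable def Phi (lam : ℝ) (K z : ℕ) : ℝ := Real.sqrt (Gz z) * ((Gz (Yf lam z))⁻¹) ^ K

theorem Gz_anti {y z : ℕ} (h : y ≤ z) : Gz z ≤ Gz y := by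
  have h1 : Gz z = (∏ p ∈ Ps z \ Ps y, (1 - 2 / (p : ℝ))) * Gz y := by
    unfold Gz GG
    rw [Finset.prod_sdiff (Ps_mono h)]
  rw [h1]
  calc (∏ p ∈ Ps z \ Ps y, (1 - 2 / (p : ℝ))) * Gz y ≤ 1 * Gz y := by
        apply mul_le_mul_of_nonneg_right _ (Gz_pos y).le
        apply Finset.prod_le_one
        · intro p hp
          exact (factor_pos (Finset.mem_sdiff.1 hp).1).le
        · intro p _
          exact factor_le_one
    _ = _ := one_mul _

theorem Hf_ge {lam : ℝ} (z : ℕ) : lam / Gz z ≤ Hf lam z := Nat.le_ceil _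

theorem one_le_div_Gz {lam : ℝ} (hl : 1 ≤ lam) (z : ℕ) : 1 ≤ lam / Gz z := by
  rw [le_div_iff₀ (Gz_pos z)]
  linarith [Gz_le_one z]

theorem Hf_le {lam : ℝ} (hl : 1 ≤ lam) (z : ℕ) : (Hf lam z : ℝ) ≤ 2 * lam / Gz z := by
  have h1 : (Hf lam z : ℝ) < lam / Gz z + 1 :=
    Nat.ceil_lt_add_one (by linarith [one_le_div_Gz hl z])
  have h2 := one_le_div_Gz hl z
  have h3 : 2 * lam / Gz z = lam / Gz z + lam / Gz z := by ring
  linarith

theorem Hf_pos {lam : ℝ} (hl : 1 ≤ lam) (z : ℕ) : 1 ≤ Hf lam z := by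
  have h1 := one_le_div_Gz hl z
  have h2 := Hf_ge (lam := lam) z
  exact_mod_cast h1.trans h2

theorem term_one {G g lam H : ℝ} (hG : 0 < G) (hg : 0 < g) (hg1 : g ≤ 1) (hlam : 1 ≤ lam)
    (hH0 : 0 ≤ H) (hH : H ≤ 2 * lam / G) {r R : ℕ} (hr : r < R) :
    (G / g) ^ (r + 2) * (H ^ r * Real.sqrt H)
      ≤ G * ((2 * lam) ^ R * (Real.sqrt G * (g⁻¹) ^ (R + 4))) := by
  have hsG : 0 < Real.sqrt G := Real.sqrt_pos.2 hG
  have h2l : (1 : ℝ) ≤ 2 * lam := by linarith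
  have h1 : H ^ r ≤ (2 * lam / G) ^ r := pow_le_pow_left₀ hH0 hH r
  have h2 : Real.sqrt H ≤ Real.sqrt (2 * lam) / Real.sqrt G := by
    rw [← Real.sqrt_div (by linarith)]
    exact Real.sqrt_le_sqrt hH
  have h3 : Real.sqrt (2 * lam) ≤ 2 * lam := by
    rw [Real.sqrt_le_left (by linarith)]
    nlinarith
  have hgi : 1 ≤ g⁻¹ := (one_le_inv₀ hg).2 hg1
  calc (G / g) ^ (r + 2) * (H ^ r * Real.sqrt H)
      ≤ (G / g) ^ (r + 2) * ((2 * lam / G) ^ r * (2 * lam / Real.sqrt G)) := by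
        apply mul_le_mul_of_nonneg_left _ (by positivity)
        apply mul_le_mul h1 _ (Real.sqrt_nonneg _) (by positivity)
        refine h2.trans ?_
        exact div_le_div_of_nonneg_right h3 hsG.le
    _ = G * ((2 * lam) ^ (r + 1) * (Real.sqrt G * (g⁻¹) ^ (r + 2))) := by
        have h4 : G = Real.sqrt G * Real.sqrt G := (Real.mul_self_sqrt hG.le).symm
        have h5 : (G / g) ^ (r + 2) * ((2 * lam / G) ^ r * (2 * lam / Real.sqrt G))
            = G * ((2 * lam) ^ (r + 1) * (G / Real.sqrt G * (g⁻¹) ^ (r + 2))) := by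
          simp only [div_pow, inv_pow, pow_add, pow_one]
          field_simp
        have h6 : G / Real.sqrt G = Real.sqrt G := Real.div_sqrt
        rw [h5, h6]
    _ ≤ _ := by
        apply mul_le_mul_of_nonneg_left _ hG.le
        apply mul_le_mul
        · exact pow_le_pow_right₀ h2l (by omega)
        · apply mul_le_mul_of_nonneg_left _ hsG.le
          exact pow_le_pow_right₀ hgi (by omega)
        · positivity
        · positivity

theorem term_two {G g lam H : ℝ} (hG : 0 < G) (hG1 : G ≤ 1) (hg : 0 < g) (hlam : 1 ≤ lam)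
    (hH0 : 0 ≤ H) (hH : H ≤ 2 * lam / G) (R : ℕ) :
    (G / g) ^ (R + 2) * ((g * (2 * (H * g)) ^ (R + 1) + H ^ R / g ^ 2) / (R.factorial : ℝ))
      ≤ G * ((4 * lam) ^ (R + 1) / (R.factorial : ℝ)
          + (2 * lam) ^ R * (Real.sqrt G * (g⁻¹) ^ (R + 4))) := by
  have hf : (1 : ℝ) ≤ (R.factorial : ℝ) := by exact_mod_cast R.factorial_pos
  have h1 : g * (2 * (H * g)) ^ (R + 1) ≤ g * (4 * lam / G * g) ^ (R + 1) := by
    apply mul_le_mul_of_nonneg_left _ hg.le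
    apply pow_le_pow_left₀ (by positivity)
    have h2 : 2 * (H * g) ≤ 2 * ((2 * lam / G) * g) := by
      have := mul_le_mul_of_nonneg_right hH hg.le
      linarith
    refine h2.trans (le_of_eq (by ring))
  have h3 : H ^ R / g ^ 2 ≤ (2 * lam / G) ^ R / g ^ 2 :=
    div_le_div_of_nonneg_right (pow_le_pow_left₀ hH0 hH R) (by positivity)
  have hsG : G ≤ Real.sqrt G := by
    rw [Real.le_sqrt' hG]
    nlinarith
  calc (G / g) ^ (R + 2) * ((g * (2 * (H * g)) ^ (R + 1) + H ^ R / g ^ 2) / (R.factorial : ℝ))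
      ≤ (G / g) ^ (R + 2) * ((g * (4 * lam / G * g) ^ (R + 1) + (2 * lam / G) ^ R / g ^ 2)
          / (R.factorial : ℝ)) := by
        apply mul_le_mul_of_nonneg_left _ (by positivity)
        apply div_le_div_of_nonneg_right _ (by positivity)
        linarith
    _ = G * ((4 * lam) ^ (R + 1) / (R.factorial : ℝ))
          + G * ((2 * lam) ^ R * (G * (g⁻¹) ^ (R + 4))) / (R.factorial : ℝ) := by
        simp only [div_pow, inv_pow, pow_add, pow_one, mul_pow]
        field_simp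
    _ ≤ G * ((4 * lam) ^ (R + 1) / (R.factorial : ℝ))
          + G * ((2 * lam) ^ R * (Real.sqrt G * (g⁻¹) ^ (R + 4))) := by
        apply add_le_add le_rfl
        have h4 : G * ((2 * lam) ^ R * (G * (g⁻¹) ^ (R + 4)))
            ≤ G * ((2 * lam) ^ R * (Real.sqrt G * (g⁻¹) ^ (R + 4))) := by
          apply mul_le_mul_of_nonneg_left _ hG.le
          apply mul_le_mul_of_nonneg_left _ (by positivity)
          apply mul_le_mul_of_nonneg_right hsG (by positivity)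
        refine (div_le_self (by positivity) hf).trans h4
    _ = _ := by ring

theorem errB_mono_card {S S' : Finset ℕ} (h : S ⊆ S') {k k' : ℕ} (hk : k ≤ k') (m N : ℕ) :
    errB S k m N ≤ errB S' k' m N := by
  unfold errB
  have hk' : (k : ℝ) ≤ k' := by exact_mod_cast hk
  have h1 : ∑ p ∈ S, 1 / (p : ℝ) ≤ ∑ p ∈ S', 1 / (p : ℝ) :=
    Finset.sum_le_sum_of_subset_of_nonneg h (fun _ _ _ => by positivity)
  have h0 : 0 ≤ ∑ p ∈ S, 1 / (p : ℝ) := Finset.sum_nonneg (fun _ _ => by positivity)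
  have h2 : (S.card : ℝ) ≤ S'.card := by exact_mod_cast Finset.card_le_card h
  apply add_le_add
  · apply mul_le_mul_of_nonneg_left _ (by positivity)
    apply div_le_div_of_nonneg_right _ (by positivity)
    apply pow_le_pow_left₀ (by positivity)
    exact mul_le_mul (by linarith) h1 h0 (by positivity)
  · apply pow_le_pow_left₀ (by positivity)
    have : 2 * (k : ℝ) * S.card ≤ 2 * k' * S'.card :=
      mul_le_mul (by linarith) h2 (by positivity) (by positivity)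
    linarith

/-- The main inequality. -/
theorem main_ineq {lam : ℝ} (hlam : 1 ≤ lam) {z : ℕ} (R : ℕ) (hYz : Yf lam z ≤ z)
    (hRH : R + 2 ≤ Hf lam z) (m N : ℕ) {nxt : ℕ → ℕ}
    (hn1 : ∀ t, Xz z t = 1 → t < nxt t ∧ Xz z (nxt t) = 1)
    (hn2 : ∀ t, Xz z t = 1 → ∀ u, t < u → u < nxt t → Xz z u = 0) :
    |∑ t ∈ range N, Xz z t * (-1 : ℝ) ^ (nxt t - t)|
      ≤ N * Gz z * ((R + 1) * ((2 * lam) ^ R * Phi lam (R + 4) z)
          + (4 * lam) ^ (R + 1) / (R.factorial : ℝ) + 1 / lam) + 1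
        + (R + 1) * (2 * lam / Gz z) ^ (R + 1) * errB (Ps z) (R + 2) m N := by
  set H := Hf lam z with hHdef
  set Y := Yf lam z with hYdef
  have hY : Y = 3 * H + 1 := rfl
  set G := Gz z with hGdef
  set g := Gz Y with hgdef
  have hG : 0 < G := Gz_pos z
  have hG1 : G ≤ 1 := Gz_le_one z
  have hg : 0 < g := Gz_pos Y
  have hg1 : g ≤ 1 := Gz_le_one Y
  have hH1 : 1 ≤ H := Hf_pos hlam z
  have hHle : (H : ℝ) ≤ 2 * lam / G := Hf_le hlam z
  have hHge : lam / G ≤ H := Hf_ge z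
  have hH0 : (0 : ℝ) < H := by exact_mod_cast hH1
  have hunion : Ps Y ∪ (Ps z \ Ps Y) = Ps z := Finset.union_sdiff_of_subset (Ps_mono hYz)
  have hs : SieveSys (Ps Y ∪ (Ps z \ Ps Y)) yy := by
    rw [hunion]
    exact sieveSys z
  have hbig : ∀ p ∈ Ps z \ Ps Y, p.Prime ∧ 5 ≤ p ∧ 3 * H + 1 < p := by
    intro p hp
    rw [Finset.mem_sdiff, mem_Ps, mem_Ps] at hp
    refine ⟨hp.1.2.2, hp.1.1, ?_⟩
    by_contra h
    exact hp.2 ⟨hp.1.1, by omega, hp.1.2.2⟩
  have hsep : ∀ p ∈ Ps z \ Ps Y, ∀ t, ∀ i ≤ H, ∀ j ≤ H, i ≠ j → yy p (t + i) = 1 →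
      yy p (t + j) = 0 := by
    intro p hp t i hi j hj hij h1
    obtain ⟨hpp, h5, h3⟩ := hbig p hp
    exact separated hpp h3 h5 t i j hi hj hij h1
  have hR : ∀ p ∈ Ps z \ Ps Y, 2 * (R + 2) ≤ p := by
    intro p hp
    have := (hbig p hp).2.2
    omega
  have hsig := sigma_bound hs Finset.disjoint_sdiff hH1 hsep (Gz_pos Y) R hR m N
  rw [hunion] at hsig
  have hnext := next_sum_bound (X := Xz z) (sieveSys z).XX_zero_one hn1 hn2 hH1 N
  have hsig' : |∑ t ∈ range N, Xz z t * sig (Xz z) H t|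
      ≤ ∑ r ∈ range R, (N * (cc (Ps z \ Ps Y) (r + 2) * ((H : ℝ) ^ r * Real.sqrt H))
            + (H : ℝ) ^ (r + 1) * errB (Ps z) (r + 2) m N)
        + (N * (cc (Ps z \ Ps Y) (R + 2) * ((g * (2 * (H * g)) ^ (R + 1) + (H : ℝ) ^ R / g ^ 2)
            / (R.factorial : ℝ))) + (H : ℝ) ^ (R + 1) * errB (Ps z) (R + 2) m N) := hsig
  set E := errB (Ps z) (R + 2) m N with hE
  have hE0 : 0 ≤ E := errB_nonneg _ _ _ _
  set P := (2 * lam / G) ^ (R + 1) with hP
  have h2lG : 1 ≤ 2 * lam / G := by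
    rw [le_div_iff₀ hG]
    linarith
  have hHpow : ∀ r, r ≤ R → (H : ℝ) ^ (r + 1) ≤ P := by
    intro r hr
    calc (H : ℝ) ^ (r + 1) ≤ (2 * lam / G) ^ (r + 1) := pow_le_pow_left₀ hH0.le hHle _
      _ ≤ _ := pow_le_pow_right₀ h2lG (by omega)
  set Φ := Real.sqrt G * (g⁻¹) ^ (R + 4) with hΦ
  have hN0 : (0 : ℝ) ≤ N := Nat.cast_nonneg _
  have hterm1 : ∀ r ∈ range R, (N * (cc (Ps z \ Ps Y) (r + 2) * ((H : ℝ) ^ r * Real.sqrt H))
            + (H : ℝ) ^ (r + 1) * errB (Ps z) (r + 2) m N)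
        ≤ N * G * ((2 * lam) ^ R * Φ) + P * E := by
    intro r hr
    rw [mem_range] at hr
    apply add_le_add
    · have h1 : cc (Ps z \ Ps Y) (r + 2) ≤ (G / g) ^ (r + 2) :=
        cc_le hYz (fun p hp => by have := hR p hp; omega)
      have h2 : cc (Ps z \ Ps Y) (r + 2) * ((H : ℝ) ^ r * Real.sqrt H)
          ≤ G * ((2 * lam) ^ R * Φ) := by
        refine (mul_le_mul_of_nonneg_right h1 (by positivity)).trans ?_
        exact term_one hG hg hg1 hlam hH0.le hHle hr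
      calc (N : ℝ) * (cc (Ps z \ Ps Y) (r + 2) * ((H : ℝ) ^ r * Real.sqrt H))
          ≤ N * (G * ((2 * lam) ^ R * Φ)) := mul_le_mul_of_nonneg_left h2 hN0
        _ = _ := by ring
    · have h3 : errB (Ps z) (r + 2) m N ≤ E := errB_mono_card (Finset.Subset.refl _) (by omega) m N
      exact mul_le_mul (hHpow r hr.le) h3 (errB_nonneg _ _ _ _) (by positivity)
  have hterm2 : N * (cc (Ps z \ Ps Y) (R + 2) * ((g * (2 * (H * g)) ^ (R + 1)
      + (H : ℝ) ^ R / g ^ 2) / (R.factorial : ℝ)))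
      ≤ N * G * ((4 * lam) ^ (R + 1) / (R.factorial : ℝ) + (2 * lam) ^ R * Φ) := by
    have h1 : cc (Ps z \ Ps Y) (R + 2) ≤ (G / g) ^ (R + 2) := cc_le hYz hR
    have h2 : cc (Ps z \ Ps Y) (R + 2) * ((g * (2 * (H * g)) ^ (R + 1)
        + (H : ℝ) ^ R / g ^ 2) / (R.factorial : ℝ))
        ≤ G * ((4 * lam) ^ (R + 1) / (R.factorial : ℝ) + (2 * lam) ^ R * Φ) := by
      refine (mul_le_mul_of_nonneg_right h1 (by positivity)).trans ?_
      exact term_two hG hG1 hg hlam hH0.le hHle R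
    calc (N : ℝ) * (cc (Ps z \ Ps Y) (R + 2) * ((g * (2 * (H * g)) ^ (R + 1)
        + (H : ℝ) ^ R / g ^ 2) / (R.factorial : ℝ)))
        ≤ N * (G * ((4 * lam) ^ (R + 1) / (R.factorial : ℝ) + (2 * lam) ^ R * Φ)) :=
          mul_le_mul_of_nonneg_left h2 hN0
      _ = _ := by ring
  have hterm3 : (H : ℝ) ^ (R + 1) * E ≤ P * E :=
    mul_le_mul_of_nonneg_right (hHpow R le_rfl) hE0
  have hterm4 : (N : ℝ) / H ≤ N * G * (1 / lam) := by
    rw [div_le_iff₀ hH0]
    have h1 : (1 : ℝ) ≤ G * (1 / lam) * H := by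
      have h2 : G * (1 / lam) * (lam / G) = 1 := by field_simp
      calc (1 : ℝ) = G * (1 / lam) * (lam / G) := h2.symm
        _ ≤ _ := mul_le_mul_of_nonneg_left hHge (by positivity)
    calc (N : ℝ) = N * 1 := (mul_one _).symm
      _ ≤ N * (G * (1 / lam) * H) := mul_le_mul_of_nonneg_left h1 hN0
      _ = _ := by ring
  have hsum : ∑ r ∈ range R, (N * (cc (Ps z \ Ps Y) (r + 2) * ((H : ℝ) ^ r * Real.sqrt H))
            + (H : ℝ) ^ (r + 1) * errB (Ps z) (r + 2) m N)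
      ≤ R * (N * G * ((2 * lam) ^ R * Φ) + P * E) := by
    refine (Finset.sum_le_sum hterm1).trans (le_of_eq ?_)
    rw [Finset.sum_const, Finset.card_range, nsmul_eq_mul]
  have hPhi : Phi lam (R + 4) z = Φ := rfl
  rw [hPhi]
  calc |∑ t ∈ range N, Xz z t * (-1 : ℝ) ^ (nxt t - t)|
      ≤ R * (N * G * ((2 * lam) ^ R * Φ) + P * E)
        + (N * G * ((4 * lam) ^ (R + 1) / (R.factorial : ℝ) + (2 * lam) ^ R * Φ) + P * E)
        + (N * G * (1 / lam) + 1) := by linarith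
    _ = _ := by ring

end Pool.Agent.Helper90.Twin
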