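import Pool.Agent.Helper90.TwinT

set_option autoImplicit false

open Finset Filter Topology

namespace Pool.Agent.Helper90.Twin

/-- The main inequality, with relative error. -/
theorem main_ineq2 {lam : ℝ} (hlam : 1 ≤ lam) {z : ℕ} (R : ℕ) (hYz : Yf lam z ≤ z)
    (hRH : R + 2 ≤ Hf lam z) (N : ℕ) {δ E : ℝ} (hδ : 0 ≤ δ) (hE : 0 ≤ E)
    (hfund : ∀ w : ℕ → ℕ → ℝ, Adm w (2 * ((R : ℝ) + 2)) →
      |∑ t ∈ range N, ∏ p ∈ Ps z, (1 - w p t) - N * ∏ p ∈ Ps z, (1 - nu w p / p)|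
        ≤ δ * (N * ∏ p ∈ Ps z, (1 - nu w p / p)) + E) {nxt : ℕ → ℕ}
    (hn1 : ∀ t, Xz z t = 1 → t < nxt t ∧ Xz z (nxt t) = 1)
    (hn2 : ∀ t, Xz z t = 1 → ∀ u, t < u → u < nxt t → Xz z u = 0) :
    |∑ t ∈ range N, Xz z t * (-1 : ℝ) ^ (nxt t - t)|
      ≤ N * Gz z * ((R + 1) * ((2 * lam) ^ R * Phi lam (R + 4) z)
          + (4 * lam) ^ (R + 1) / (R.factorial : ℝ)
          + δ * ((R + 1) * ((4 * lam) ^ (R + 1) + (2 * lam) ^ R * Phi lam (R + 4) z)) + 1 / lam) + 1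
        + (R + 1) * (2 * lam / Gz z) ^ (R + 1) * E := by
  set H := Hf lam z with hHdef
  set Y := Yf lam z with hYdef
  have hY : Y = 3 * H + 1 := rfl
  set G := Gz z with hGdef
  set g := Gz Y with hgdef
  have hG : 0 < G := Gz_pos z
  have hG1 : G ≤ 1 := Gz_le_one z
  have hg : 0 < g := Gz_pos Y
  have hg1 : g ≤ 1 := Gz_le_one Y
  have hH1 : 1 ≤ H := Hf_pos hlam z
  have hHle : (H : ℝ) ≤ 2 * lam / G := Hf_le hlam z
  have hHge : lam / G ≤ H := Hf_ge z
  have hH0 : (0 : ℝ) < H := by exact_mod_cast hH1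
  have hunion : Ps Y ∪ (Ps z \ Ps Y) = Ps z := Finset.union_sdiff_of_subset (Ps_mono hYz)
  have hs : SieveSys (Ps Y ∪ (Ps z \ Ps Y)) yy := by
    rw [hunion]
    exact sieveSys z
  have hbig : ∀ p ∈ Ps z \ Ps Y, p.Prime ∧ 5 ≤ p ∧ 3 * H + 1 < p := by
    intro p hp
    rw [Finset.mem_sdiff, mem_Ps, mem_Ps] at hp
    refine ⟨hp.1.2.2, hp.1.1, ?_⟩
    by_contra h
    exact hp.2 ⟨hp.1.1, by omega, hp.1.2.2⟩
  have hsep : ∀ p ∈ Ps z \ Ps Y, ∀ t, ∀ i ≤ H, ∀ j ≤ H, i ≠ j → yy p (t + i) = 1 →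
      yy p (t + j) = 0 := by
    intro p hp t i hi j hj hij h1
    obtain ⟨hpp, h5, h3⟩ := hbig p hp
    exact separated hpp h3 h5 t i j hi hj hij h1
  have hR : ∀ p ∈ Ps z \ Ps Y, 2 * (R + 2) ≤ p := by
    intro p hp
    have := (hbig p hp).2.2
    omega
  have hCorr : Corr (Ps Y) (Ps z \ Ps Y) yy H (R + 2) N δ E := by
    intro I _ hI hcard
    have h1 := hfund (wI yy I) (wI_adm.mono (by
      have : (I.card : ℝ) ≤ R + 2 := by exact_mod_cast hcard
      linarith))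
    have h2 := wI_mean hs Finset.disjoint_sdiff hsep hI
    rw [hunion] at h2 ⊢
    rw [h2] at h1
    simp_rw [wI_prod] at h1
    exact h1
  have hsig := sigma_bound2 hs hH1 (Gz_pos Y) R hR hCorr hδ hE
  rw [hunion] at hsig
  have hnext := next_sum_bound (X := Xz z) (sieveSys z).XX_zero_one hn1 hn2 hH1 N
  have hsig' : |∑ t ∈ range N, Xz z t * sig (Xz z) H t|
      ≤ ∑ r ∈ range R, (N * (cc (Ps z \ Ps Y) (r + 2) * ((H : ℝ) ^ r * Real.sqrt H))
            + (δ * (N * (cc (Ps z \ Ps Y) (r + 2) * ((g * (2 * (H * g)) ^ (r + 1)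
                + (H : ℝ) ^ r / g ^ 2) / (r.factorial : ℝ)))) + (H : ℝ) ^ (r + 1) * E))
        + ((1 + δ) * (N * (cc (Ps z \ Ps Y) (R + 2) * ((g * (2 * (H * g)) ^ (R + 1)
            + (H : ℝ) ^ R / g ^ 2) / (R.factorial : ℝ)))) + (H : ℝ) ^ (R + 1) * E) := hsig
  set P := (2 * lam / G) ^ (R + 1) with hP
  have h2lG : 1 ≤ 2 * lam / G := by
    rw [le_div_iff₀ hG]
    linarith
  have hHpow : ∀ r, r ≤ R → (H : ℝ) ^ (r + 1) ≤ P := by
    intro r hr
    calc (H : ℝ) ^ (r + 1) ≤ (2 * lam / G) ^ (r + 1) := pow_le_pow_left₀ hH0.le hHle _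
      _ ≤ _ := pow_le_pow_right₀ h2lG (by omega)
  set Φ := Real.sqrt G * (g⁻¹) ^ (R + 4) with hΦ
  have hN0 : (0 : ℝ) ≤ N := Nat.cast_nonneg _
  have hgi : 1 ≤ g⁻¹ := (one_le_inv₀ hg).2 hg1
  have h2l : (1 : ℝ) ≤ 2 * lam := by linarith
  have h4l : (1 : ℝ) ≤ 4 * lam := by linarith
  have hccle : ∀ r, r ≤ R → cc (Ps z \ Ps Y) (r + 2) ≤ (G / g) ^ (r + 2) := fun r hr =>
    cc_le hYz (fun p hp => by have := hR p hp; omega)
  -- the tails
  have htails : ∀ r, r ≤ R → cc (Ps z \ Ps Y) (r + 2) * ((g * (2 * (H * g)) ^ (r + 1)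
                + (H : ℝ) ^ r / g ^ 2) / (r.factorial : ℝ))
      ≤ G * ((4 * lam) ^ (R + 1) + (2 * lam) ^ R * Φ) := by
    intro r hr
    refine (mul_le_mul_of_nonneg_right (hccle r hr) (by positivity)).trans ?_
    refine (term_two hG hG1 hg hlam hH0.le hHle r).trans ?_
    apply mul_le_mul_of_nonneg_left _ hG.le
    have hf : (1 : ℝ) ≤ (r.factorial : ℝ) := by exact_mod_cast r.factorial_pos
    apply add_le_add
    · refine (div_le_self (by positivity) hf).trans ?_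
      exact pow_le_pow_right₀ h4l (by omega)
    · apply mul_le_mul
      · exact pow_le_pow_right₀ h2l hr
      · rw [hΦ]
        apply mul_le_mul_of_nonneg_left _ (Real.sqrt_nonneg _)
        exact pow_le_pow_right₀ hgi (by omega)
      · positivity
      · positivity
  have hterm1 : ∀ r ∈ range R, (N * (cc (Ps z \ Ps Y) (r + 2) * ((H : ℝ) ^ r * Real.sqrt H))
            + (δ * (N * (cc (Ps z \ Ps Y) (r + 2) * ((g * (2 * (H * g)) ^ (r + 1)
                + (H : ℝ) ^ r / g ^ 2) / (r.factorial : ℝ)))) + (H : ℝ) ^ (r + 1) * E))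
        ≤ N * G * ((2 * lam) ^ R * Φ) + (δ * (N * G * ((4 * lam) ^ (R + 1) + (2 * lam) ^ R * Φ))
            + P * E) := by
    intro r hr
    rw [mem_range] at hr
    apply add_le_add
    · have h2 : cc (Ps z \ Ps Y) (r + 2) * ((H : ℝ) ^ r * Real.sqrt H)
          ≤ G * ((2 * lam) ^ R * Φ) := by
        refine (mul_le_mul_of_nonneg_right (hccle r hr.le) (by positivity)).trans ?_
        exact term_one hG hg hg1 hlam hH0.le hHle hr
      calc (N : ℝ) * (cc (Ps z \ Ps Y) (r + 2) * ((H : ℝ) ^ r * Real.sqrt H))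
          ≤ N * (G * ((2 * lam) ^ R * Φ)) := mul_le_mul_of_nonneg_left h2 hN0
        _ = _ := by ring
    · apply add_le_add
      · apply mul_le_mul_of_nonneg_left _ hδ
        calc (N : ℝ) * (cc (Ps z \ Ps Y) (r + 2) * ((g * (2 * (H * g)) ^ (r + 1)
                + (H : ℝ) ^ r / g ^ 2) / (r.factorial : ℝ)))
            ≤ N * (G * ((4 * lam) ^ (R + 1) + (2 * lam) ^ R * Φ)) :=
              mul_le_mul_of_nonneg_left (htails r hr.le) hN0
          _ = _ := by ring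
      · exact mul_le_mul_of_nonneg_right (hHpow r hr.le) hE
  have hterm2 : (1 + δ) * (N * (cc (Ps z \ Ps Y) (R + 2) * ((g * (2 * (H * g)) ^ (R + 1)
      + (H : ℝ) ^ R / g ^ 2) / (R.factorial : ℝ))))
      ≤ N * G * ((4 * lam) ^ (R + 1) / (R.factorial : ℝ) + (2 * lam) ^ R * Φ)
        + δ * (N * G * ((4 * lam) ^ (R + 1) + (2 * lam) ^ R * Φ)) := by
    have h2 : cc (Ps z \ Ps Y) (R + 2) * ((g * (2 * (H * g)) ^ (R + 1)
        + (H : ℝ) ^ R / g ^ 2) / (R.factorial : ℝ))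
        ≤ G * ((4 * lam) ^ (R + 1) / (R.factorial : ℝ) + (2 * lam) ^ R * Φ) := by
      refine (mul_le_mul_of_nonneg_right (hccle R le_rfl) (by positivity)).trans ?_
      exact term_two hG hG1 hg hlam hH0.le hHle R
    have h3 := mul_le_mul_of_nonneg_left h2 hN0
    have h4 := mul_le_mul_of_nonneg_left (mul_le_mul_of_nonneg_left (htails R le_rfl) hN0) hδ
    calc (1 + δ) * (N * (cc (Ps z \ Ps Y) (R + 2) * ((g * (2 * (H * g)) ^ (R + 1)
      + (H : ℝ) ^ R / g ^ 2) / (R.factorial : ℝ))))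
        = N * (cc (Ps z \ Ps Y) (R + 2) * ((g * (2 * (H * g)) ^ (R + 1)
          + (H : ℝ) ^ R / g ^ 2) / (R.factorial : ℝ)))
          + δ * (N * (cc (Ps z \ Ps Y) (R + 2) * ((g * (2 * (H * g)) ^ (R + 1)
          + (H : ℝ) ^ R / g ^ 2) / (R.factorial : ℝ)))) := by ring
      _ ≤ N * (G * ((4 * lam) ^ (R + 1) / (R.factorial : ℝ) + (2 * lam) ^ R * Φ))
          + δ * (N * (G * ((4 * lam) ^ (R + 1) + (2 * lam) ^ R * Φ))) := add_le_add h3 h4
      _ = _ := by ring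
  have hterm3 : (H : ℝ) ^ (R + 1) * E ≤ P * E :=
    mul_le_mul_of_nonneg_right (hHpow R le_rfl) hE
  have hterm4 : (N : ℝ) / H ≤ N * G * (1 / lam) := by
    rw [div_le_iff₀ hH0]
    have h1 : (1 : ℝ) ≤ G * (1 / lam) * H := by
      have h2 : G * (1 / lam) * (lam / G) = 1 := by field_simp
      calc (1 : ℝ) = G * (1 / lam) * (lam / G) := h2.symm
        _ ≤ _ := mul_le_mul_of_nonneg_left hHge (by positivity)
    calc (N : ℝ) = N * 1 := (mul_one _).symm
      _ ≤ N * (G * (1 / lam) * H) := mul_le_mul_of_nonneg_left h1 hN0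
      _ = _ := by ring
  have hsum := Finset.sum_le_sum hterm1
  rw [Finset.sum_const (N * G * ((2 * lam) ^ R * Φ) + (δ * (N * G * ((4 * lam) ^ (R + 1)
    + (2 * lam) ^ R * Φ)) + P * E)), Finset.card_range, nsmul_eq_mul] at hsum
  have hPhi : Phi lam (R + 4) z = Φ := rfl
  rw [hPhi]
  calc |∑ t ∈ range N, Xz z t * (-1 : ℝ) ^ (nxt t - t)|
      ≤ R * (N * G * ((2 * lam) ^ R * Φ) + (δ * (N * G * ((4 * lam) ^ (R + 1)
          + (2 * lam) ^ R * Φ)) + P * E))
        + (N * G * ((4 * lam) ^ (R + 1) / (R.factorial : ℝ) + (2 * lam) ^ R * Φ)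
        + δ * (N * G * ((4 * lam) ^ (R + 1) + (2 * lam) ^ R * Φ)) + P * E)
        + (N * G * (1 / lam) + 1) := by linarith
    _ = _ := by ring

/-! ### counting -/

theorem sum_two_mul {p : ℕ} (hp : Odd p) {f : ℕ → ℝ} (hf : ∀ x, f (x + p) = f x) :
    ∑ x ∈ range p, f (2 * x) = ∑ x ∈ range p, f x := by
  have h1 : ∀ n, ∑ x ∈ range (2 * n), f x = ∑ t ∈ range n, f (2 * t) + ∑ t ∈ range n, f (2 * t + 1) := by
    intro n
    induction n with
    | zero => simp
    | succ n ih =>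
      rw [show 2 * (n + 1) = 2 * n + 1 + 1 by ring, Finset.sum_range_succ, Finset.sum_range_succ,
        ih, Finset.sum_range_succ _ n, Finset.sum_range_succ _ n]
      ring
  have h2 : ∑ x ∈ range (2 * p), f x = 2 * ∑ x ∈ range p, f x := by
    rw [two_mul p, Finset.sum_range_add, two_mul]
    congr 1
    apply Finset.sum_congr rfl
    intro x _
    rw [add_comm, hf]
  obtain ⟨q, hq⟩ := hp
  have h3 : ∑ t ∈ range p, f (2 * t + 1) = ∑ t ∈ range p, f (2 * t) := by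
    have h4 : ∀ x, f (2 * (x + p)) = f (2 * x) := by
      intro x
      rw [show 2 * (x + p) = 2 * x + p + p by ring, hf, hf]
    rw [← sum_range_shift_periodic (f := fun t => f (2 * t)) h4 (q + 1)]
    apply Finset.sum_congr rfl
    intro t _
    rw [← hf (2 * t + 1)]
    congr 1
    omega
  have h5 := h1 p
  rw [h2, h3] at h5
  linarith

theorem adm_yy : Adm yy 2 := by
  refine ⟨?_, ?_, ?_, ?_⟩
  · intro p _ _ x
    unfold yy
    split_ifs <;> norm_num
  · intro p _ _ x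
    unfold yy
    split_ifs <;> norm_num
  · intro p _ _ x
    exact yy_per p x
  · intro p hp h5
    exact (yy_sum hp h5).le

theorem adm_yy2 : Adm (fun p t => yy p (2 * t)) 2 := by
  refine ⟨?_, ?_, ?_, ?_⟩
  · intro p hp h5 x
    exact adm_yy.nonneg p hp h5 _
  · intro p hp h5 x
    exact adm_yy.le_one p hp h5 _
  · intro p _ _ x
    show yy p (2 * (x + p)) = yy p (2 * x)
    rw [show 2 * (x + p) = 2 * x + p + p by ring, yy_per, yy_per]
  · intro p hp h5
    unfold nu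
    rw [sum_two_mul (hp.odd_of_ne_two (by omega)) (yy_per p), yy_sum hp h5]

theorem mean_yy (z : ℕ) : ∏ p ∈ Ps z, (1 - nu yy p / (p : ℝ)) = Gz z := by
  unfold Gz GG nu
  apply Finset.prod_congr rfl
  intro p hp
  rw [yy_sum (mem_Ps.1 hp).2.2 (mem_Ps.1 hp).1]

theorem mean_yy2 (z : ℕ) : ∏ p ∈ Ps z, (1 - nu (fun p t => yy p (2 * t)) p / (p : ℝ)) = Gz z := by
  unfold Gz GG nu
  apply Finset.prod_congr rfl
  intro p hp
  rw [mem_Ps] at hp
  rw [sum_two_mul (hp.2.2.odd_of_ne_two (by omega)) (yy_per p), yy_sum hp.2.2 hp.1]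

theorem even_sum (X : ℕ → ℝ) (N : ℕ) : ∑ t ∈ range N, (1 + (-1 : ℝ) ^ t) / 2 * X t
    = ∑ t ∈ range ((N + 1) / 2), X (2 * t) := by
  induction N with
  | zero => simp
  | succ N ih =>
    rw [Finset.sum_range_succ, ih]
    rcases Nat.even_or_odd' N with ⟨k, hk | hk⟩
    · have h1 : (N + 1 + 1) / 2 = k + 1 := by omega
      have h2 : (N + 1) / 2 = k := by omega
      rw [h1, h2, Finset.sum_range_succ, hk]
      congr 1
      rw [(even_two_mul k).neg_one_pow]
      norm_num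
    · have h1 : (N + 1 + 1) / 2 = k + 1 := by omega
      have h2 : (N + 1) / 2 = k + 1 := by omega
      have h3 : Odd N := ⟨k, hk⟩
      rw [h1, h2, h3.neg_one_pow]
      norm_num

/-- The core estimate, second form. -/
theorem core2 {ε : ℝ} (hε : 0 < ε) :
    ∃ K : ℕ, ∀ᶠ z : ℕ in atTop, ∀ N : ℕ, z ^ K ≤ N →
      1 ≤ ε * (N * Gz z) ∧
      |∑ t ∈ range N, Xz z t - N * Gz z| ≤ ε * (N * Gz z) ∧
      |∑ t ∈ range N, (-1 : ℝ) ^ t * Xz z t| ≤ ε * (N * Gz z) ∧
      ∀ nxt : ℕ → ℕ, (∀ t, Xz z t = 1 → t < nxt t ∧ Xz z (nxt t) = 1) →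
        (∀ t, Xz z t = 1 → ∀ u, t < u → u < nxt t → Xz z u = 0) →
        |∑ t ∈ range N, Xz z t * (-1 : ℝ) ^ (nxt t - t)| ≤ ε * (N * Gz z) := by
  set lam : ℝ := max 1 (10 / ε) with hlamdef
  have hlam : 1 ≤ lam := le_max_left _ _
  have hlam2 : 1 / lam ≤ ε / 10 := by
    have h1 : 10 / ε ≤ lam := le_max_right _ _
    rw [div_le_iff₀ (by linarith)]
    rw [div_le_iff₀ hε] at h1
    linarith
  obtain ⟨R, hR⟩ := exists_R (4 * lam) (show 0 < ε / 10 by positivity)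
  have hR1 : (1 : ℝ) ≤ (R : ℝ) + 1 := by
    have : (0 : ℝ) ≤ R := Nat.cast_nonneg _
    linarith
  set δ : ℝ := ε / 10 / ((R + 1) * ((4 * lam) ^ (R + 1) + 1)) with hδdef
  have hden : 0 < ((R : ℝ) + 1) * ((4 * lam) ^ (R + 1) + 1) := by positivity
  have hδ0 : 0 < δ := by positivity
  have hδmul : δ * ((R + 1) * ((4 * lam) ^ (R + 1) + 1)) = ε / 10 := by
    rw [hδdef]
    field_simp
  have hδ1 : δ ≤ ε / 10 := by
    rw [hδdef]
    apply div_le_self (by positivity)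
    have : (0 : ℝ) ≤ (4 * lam) ^ (R + 1) := by positivity
    nlinarith
  set κ : ℝ := 2 * ((R : ℝ) + 2) with hκ
  set κ' : ℝ := 10 / 3 * ((R : ℝ) + 2) with hκ'
  have hR0 : (0 : ℝ) ≤ R := Nat.cast_nonneg _
  have hκ1 : 1 ≤ κ := by rw [hκ]; linarith
  have hκ'0 : 0 < κ' := by rw [hκ']; positivity
  obtain ⟨K, hK⟩ := fundamental hκ1 hδ0 (A := κ' + 1) (by linarith)
  refine ⟨K + 2, ?_⟩
  have hPhi := eventually_Phi_le hlam (R + 4)
    (show 0 < min (ε / 10 / ((R + 1) * (2 * lam) ^ R)) (1 / (2 * lam) ^ R) by positivity)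
  set D0 : ℝ := ((R : ℝ) + 1) * (2 * lam) ^ (R + 1) with hD0
  have hD0pos : 0 < D0 := by positivity
  filter_upwards [hK, hPhi, eventually_Yf_le hlam, eventually_Hf_ge hlam (R + 2),
    tendsto_Sz.eventually_ge_atTop (Real.log (20 * D0 / ε)), eventually_Sz_le hκ'0 0,
    (tendsto_natCast_atTop_atTop (R := ℝ)).eventually_ge_atTop (20 * D0 / ε),
    (tendsto_natCast_atTop_atTop (R := ℝ)).eventually_ge_atTop (10 / ε), eventually_ge_atTop 1]
    with z hz1 hz2 hz3 hz4 hz5 hz6 hz7 hz8 hz9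
  intro N hN
  have hz0 : (1 : ℝ) ≤ z := by exact_mod_cast hz9
  have hNR : (z : ℝ) ^ (K + 2) ≤ N := by exact_mod_cast hN
  have hN0 : (0 : ℝ) < N := lt_of_lt_of_le (by positivity) hNR
  have hN1 : 1 ≤ N := by exact_mod_cast hN0
  set S := Sz z with hS
  have hG : 0 < Gz z := Gz_pos z
  have hG1 : Gz z ≤ 1 := Gz_le_one z
  have hNG : 0 ≤ (N : ℝ) * Gz z := by positivity
  set E : ℝ := N * Real.exp (-((κ' + 1) * S)) + (z : ℝ) ^ K with hE
  have hE0 : 0 ≤ E := by positivity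
  have hGinv : ((Gz z)⁻¹) ^ (R + 2) ≤ Real.exp (κ' * S) := by
    calc ((Gz z)⁻¹) ^ (R + 2) ≤ (Real.exp (10 / 3 * S)) ^ (R + 2) :=
          pow_le_pow_left₀ (inv_pos.2 hG).le (inv_Gz_le z) _
      _ = Real.exp (κ' * S) := by
          rw [← Real.exp_nat_mul]
          congr 1
          rw [hκ']
          push_cast
          ring
  have hexpz : Real.exp (κ' * S) ≤ z := by
    calc Real.exp (κ' * S) ≤ Real.exp (Real.log z) := Real.exp_le_exp.2 (by linarith)
      _ = z := Real.exp_log (by linarith)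
  have hGinv1 : (Gz z)⁻¹ ≤ z := by
    calc (Gz z)⁻¹ = ((Gz z)⁻¹) ^ 1 := (pow_one _).symm
      _ ≤ ((Gz z)⁻¹) ^ (R + 2) := pow_le_pow_right₀ ((one_le_inv₀ hG).2 hG1) (by omega)
      _ ≤ _ := hGinv.trans hexpz
  -- the first claim
  have hone : 1 ≤ ε / 10 * (N * Gz z) := by
    have h1 : (10 / ε) * (Gz z)⁻¹ ≤ N := by
      calc (10 / ε) * (Gz z)⁻¹ ≤ z * z :=
            mul_le_mul hz8 hGinv1 (inv_pos.2 hG).le (by linarith)
        _ = (z : ℝ) ^ 2 := by ring
        _ ≤ (z : ℝ) ^ (K + 2) := pow_le_pow_right₀ hz0 (by omega)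
        _ ≤ N := hNR
    have h7 : (10 / ε) ≤ N * Gz z := by
      rw [← div_eq_mul_inv, div_le_iff₀ hG] at h1
      exact h1
    rw [div_le_iff₀ hε] at h7
    linarith
  -- the error
  have hEle : ((R : ℝ) + 1) * (2 * lam / Gz z) ^ (R + 1) * E ≤ ε / 10 * (N * Gz z) := by
    have h1 : ((R : ℝ) + 1) * (2 * lam / Gz z) ^ (R + 1) = D0 * (Gz z * ((Gz z)⁻¹) ^ (R + 2)) := by
      have h21 : Gz z * ((Gz z)⁻¹) ^ (R + 2) = ((Gz z)⁻¹) ^ (R + 1) := by
        rw [pow_succ, mul_comm, mul_assoc, inv_mul_cancel₀ hG.ne', mul_one]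
      rw [h21, hD0, div_pow, inv_pow]
      field_simp
    rw [h1]
    have h2 : Real.exp (κ' * S) * E ≤ N * Real.exp (-S) + z * (z : ℝ) ^ K := by
      rw [hE, mul_add]
      apply add_le_add
      · apply le_of_eq
        have : Real.exp (κ' * S) * Real.exp (-((κ' + 1) * S)) = Real.exp (-S) := by
          rw [← Real.exp_add]
          congr 1
          ring
        calc Real.exp (κ' * S) * (N * Real.exp (-((κ' + 1) * S)))
            = N * (Real.exp (κ' * S) * Real.exp (-((κ' + 1) * S))) := by ring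
          _ = _ := by rw [this]
      · exact mul_le_mul_of_nonneg_right hexpz (by positivity)
    have h3 : D0 * (N * Real.exp (-S)) ≤ ε / 20 * N := by
      have h4 : Real.exp (-S) ≤ ε / (20 * D0) := by
        rw [Real.exp_neg, inv_le_comm₀ (Real.exp_pos _) (by positivity), inv_div]
        rwa [Real.log_le_iff_le_exp (by positivity)] at hz5
      calc D0 * (N * Real.exp (-S)) ≤ D0 * (N * (ε / (20 * D0))) := by
            apply mul_le_mul_of_nonneg_left _ hD0pos.le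
            exact mul_le_mul_of_nonneg_left h4 hN0.le
        _ = ε / 20 * N := by field_simp
    have h5 : D0 * (z * (z : ℝ) ^ K) ≤ ε / 20 * N := by
      have h6 : D0 ≤ ε / 20 * z := by
        rw [div_le_iff₀ hε] at hz7
        linarith
      calc D0 * (z * (z : ℝ) ^ K) ≤ (ε / 20 * z) * (z * (z : ℝ) ^ K) :=
            mul_le_mul_of_nonneg_right h6 (by positivity)
        _ = ε / 20 * (z : ℝ) ^ (K + 2) := by ring
        _ ≤ _ := mul_le_mul_of_nonneg_left hNR (by positivity)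
    calc D0 * (Gz z * ((Gz z)⁻¹) ^ (R + 2)) * E
        = D0 * Gz z * (((Gz z)⁻¹) ^ (R + 2) * E) := by ring
      _ ≤ D0 * Gz z * (Real.exp (κ' * S) * E) := by
          apply mul_le_mul_of_nonneg_left _ (by positivity)
          exact mul_le_mul_of_nonneg_right hGinv hE0
      _ ≤ D0 * Gz z * (N * Real.exp (-S) + z * (z : ℝ) ^ K) :=
          mul_le_mul_of_nonneg_left h2 (by positivity)
      _ = Gz z * (D0 * (N * Real.exp (-S)) + D0 * (z * (z : ℝ) ^ K)) := by ring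
      _ ≤ Gz z * (ε / 20 * N + ε / 20 * N) := by
          apply mul_le_mul_of_nonneg_left _ hG.le
          linarith
      _ = _ := by ring
  have hP1 : 1 ≤ ((R : ℝ) + 1) * (2 * lam / Gz z) ^ (R + 1) := by
    have h2 : (1 : ℝ) ≤ (2 * lam / Gz z) ^ (R + 1) := by
      apply one_le_pow₀
      rw [le_div_iff₀ hG]
      linarith [Gz_le_one z]
    nlinarith
  have hEle1 : E ≤ ε / 10 * (N * Gz z) := by
    calc E = 1 * E := (one_mul _).symm
      _ ≤ ((R : ℝ) + 1) * (2 * lam / Gz z) ^ (R + 1) * E := mul_le_mul_of_nonneg_right hP1 hE0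
      _ ≤ _ := hEle
  have hδNG : δ * (N * Gz z) ≤ ε / 10 * (N * Gz z) := mul_le_mul_of_nonneg_right hδ1 hNG
  have hεNG : 0 ≤ ε * (N * Gz z) := by positivity
  have hκ2 : (2 : ℝ) ≤ κ := by rw [hκ]; linarith
  have hcount : |∑ t ∈ range N, Xz z t - N * Gz z| ≤ δ * (N * Gz z) + E := by
    have h1 := hz1 yy (adm_yy.mono hκ2) N
    rw [mean_yy] at h1
    exact h1
  refine ⟨by linarith, by linarith, ?_, ?_⟩
  · -- alternating count
    set N' := (N + 1) / 2 with hN'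
    have h1 := hz1 (fun p t => yy p (2 * t)) (adm_yy2.mono hκ2) N'
    rw [mean_yy2] at h1
    have h2 : ∑ t ∈ range N', ∏ p ∈ Ps z, (1 - yy p (2 * t)) = ∑ t ∈ range N', Xz z (2 * t) := rfl
    rw [h2, ← even_sum] at h1
    have hN'N : (N' : ℝ) ≤ N := by exact_mod_cast (by omega : N' ≤ N)
    have hN'1 : (2 * N' : ℝ) ≤ N + 1 := by exact_mod_cast (by omega : 2 * N' ≤ N + 1)
    have hN'2 : (N : ℝ) ≤ 2 * N' := by exact_mod_cast (by omega : N ≤ 2 * N')
    have h3 : δ * (N' * Gz z) + (N' * Real.exp (-((κ' + 1) * S)) + (z : ℝ) ^ K)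
        ≤ δ * (N * Gz z) + E := by
      apply add_le_add
      · apply mul_le_mul_of_nonneg_left _ hδ0.le
        exact mul_le_mul_of_nonneg_right hN'N hG.le
      · rw [hE]
        apply add_le_add _ le_rfl
        exact mul_le_mul_of_nonneg_right hN'N (Real.exp_pos _).le
    have h4 := h1.trans h3
    have e4 : ∑ t ∈ range N, (-1 : ℝ) ^ t * Xz z t
        = 2 * (∑ t ∈ range N, (1 + (-1 : ℝ) ^ t) / 2 * Xz z t - N' * Gz z)
          + (2 * N' - N) * Gz z - (∑ t ∈ range N, Xz z t - N * Gz z) := by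
      have e5 : ∑ t ∈ range N, (1 + (-1 : ℝ) ^ t) / 2 * Xz z t
          = (∑ t ∈ range N, Xz z t) / 2 + (∑ t ∈ range N, (-1 : ℝ) ^ t * Xz z t) / 2 := by
        rw [Finset.sum_div, Finset.sum_div, ← Finset.sum_add_distrib]
        apply Finset.sum_congr rfl
        intro t _
        ring
      rw [e5]
      ring
    rw [e4]
    have h5 : 0 ≤ (2 * (N' : ℝ) - N) * Gz z := mul_nonneg (by linarith) hG.le
    have h6 : (2 * (N' : ℝ) - N) * Gz z ≤ 1 := by
      calc (2 * (N' : ℝ) - N) * Gz z ≤ 1 * 1 := mul_le_mul (by linarith) hG1 hG.le (by norm_num)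
        _ = 1 := by norm_num
    have h7 := abs_le.1 h4
    have h8 := abs_le.1 hcount
    rw [abs_le]
    constructor <;> linarith [h7.1, h7.2, h8.1, h8.2]
  · intro nxt hn1 hn2
    refine (main_ineq2 hlam R hz3 hz4 N hδ0.le hE0 (fun w hw => hz1 w hw N) hn1 hn2).trans ?_
    have h2lR : 0 < (2 * lam) ^ R := by positivity
    have h5 : ((R : ℝ) + 1) * ((2 * lam) ^ R * Phi lam (R + 4) z) ≤ ε / 10 := by
      have h6 : 0 < ((R : ℝ) + 1) * (2 * lam) ^ R := by positivity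
      have h7 := hz2.trans (min_le_left _ _)
      rw [le_div_iff₀ h6] at h7
      linarith
    have h8 : (2 * lam) ^ R * Phi lam (R + 4) z ≤ 1 := by
      have h7 := hz2.trans (min_le_right _ _)
      rw [le_div_iff₀ h2lR] at h7
      linarith
    have h9 : δ * ((R + 1) * ((4 * lam) ^ (R + 1) + (2 * lam) ^ R * Phi lam (R + 4) z)) ≤ ε / 10 := by
      rw [← hδmul]
      apply mul_le_mul_of_nonneg_left _ hδ0.le
      apply mul_le_mul_of_nonneg_left _ (by linarith)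
      linarith
    have h10 : (N : ℝ) * Gz z * (((R : ℝ) + 1) * ((2 * lam) ^ R * Phi lam (R + 4) z)
        + (4 * lam) ^ (R + 1) / (R.factorial : ℝ)
        + δ * ((R + 1) * ((4 * lam) ^ (R + 1) + (2 * lam) ^ R * Phi lam (R + 4) z)) + 1 / lam)
        ≤ N * Gz z * (ε / 10 + ε / 10 + ε / 10 + ε / 10) := by
      apply mul_le_mul_of_nonneg_left _ hNG
      linarith
    linarith

end Pool.Agent.Helper90.Twin
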