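import Mathlib

namespace Pool.Agent.Helper90.W2

open Finset Equiv

variable {n k : ℕ}

/-- Action of a letter. -/
def act (x : Fin k → Perm (Fin n)) (s : Fin k × Bool) : Perm (Fin n) :=
  cond s.2 (x s.1) (x s.1)⁻¹

/-- Trajectory of a point under the sequence of letters `r 0, r 1, ...`. -/
def traj (r : ℕ → Fin k × Bool) (x : Fin k → Perm (Fin n)) (p : Fin n) : ℕ → Fin n
  | 0 => p
  | t + 1 => act x (r t) (traj r x p t)

/-- Modification of the tuple of permutations. -/
def M (s : Fin k × Bool) (z v : Fin n) (x : Fin k → Perm (Fin n)) : Fin k → Perm (Fin n) :=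
  Function.update x s.1 (cond s.2 (swap z v * x s.1) (x s.1 * swap z v))

lemma M_M (s : Fin k × Bool) (z v : Fin n) (x : Fin k → Perm (Fin n)) :
    M s z v (M s z v x) = x := by
  unfold M
  funext i
  by_cases hi : i = s.1
  · subst hi
    rcases s with ⟨a, b⟩
    cases b
    · simp [mul_assoc]
    · simp [← mul_assoc]
  · simp [Function.update_of_ne hi]

lemma act_M_ne (s s' : Fin k × Bool) (z v : Fin n) (x : Fin k → Perm (Fin n))
    (h : s'.1 ≠ s.1) : act (M s z v x) s' = act x s' := by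
  unfold act M
  rw [Function.update_of_ne h]

lemma act_M_same (s : Fin k × Bool) (z v : Fin n) (x : Fin k → Perm (Fin n)) :
    act (M s z v x) s = swap z v * act x s := by
  rcases s with ⟨a, b⟩
  cases b <;> simp [act, M]

lemma act_M_inv (s s' : Fin k × Bool) (z v : Fin n) (x : Fin k → Perm (Fin n))
    (h : s'.1 = s.1) (h2 : s'.2 = !s.2) : act (M s z v x) s' = act x s' * swap z v := by
  rcases s with ⟨a, b⟩
  rcases s' with ⟨a', b'⟩
  simp only at h h2
  subst h h2
  cases b <;> simp [act, M]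

lemma act_inv (s s' : Fin k × Bool) (x : Fin k → Perm (Fin n))
    (h : s'.1 = s.1) (h2 : s'.2 = !s.2) : act x s' = (act x s)⁻¹ := by
  rcases s with ⟨a, b⟩
  rcases s' with ⟨a', b'⟩
  simp only at h h2
  subst h h2
  cases b <;> simp [act]

/-- One unchanged step. -/
lemma step_eq (s s' : Fin k × Bool) (z v y a : Fin n) (x : Fin k → Perm (Fin n))
    (hz : act x s y = z)
    (hav : a ≠ v) (hcv : act x s' a ≠ v)
    (h1 : s' = s → a ≠ y)
    (h2 : s'.1 = s.1 → s'.2 = (!s.2) → act x s' a ≠ y) :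
    act (M s z v x) s' a = act x s' a := by
  by_cases hi : s'.1 = s.1
  · by_cases hb : s'.2 = s.2
    · have hs : s' = s := Prod.ext hi hb
      subst hs
      rw [act_M_same, Perm.mul_apply]
      apply swap_apply_of_ne_of_ne _ hcv
      intro h
      apply h1 rfl
      rw [← hz] at h
      exact (act x s').injective h
    · have hb' : s'.2 = !s.2 := by
        cases h3 : s'.2 <;> cases h4 : s.2 <;> simp_all
      rw [act_M_inv s s' z v x hi hb', Perm.mul_apply]
      congr 1
      apply swap_apply_of_ne_of_ne _ hav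
      intro h
      apply h2 hi hb'
      rw [h, ← hz, act_inv s s' x hi hb']
      simp
  · rw [act_M_ne s s' z v x hi]

/-- The chain condition. -/
def Ch (r : ℕ → Fin k × Bool) (L : ℕ) {j : ℕ} (x : Fin k → Perm (Fin n)) (ps : Fin j → Fin n) :
    Prop :=
  (∀ i, traj r x (ps i) L = ps i) ∧ ∀ i i', i < i' → ∀ t ≤ L, traj r x (ps i') t ≠ ps i

lemma Ch_cons (r : ℕ → Fin k × Bool) (L : ℕ) {j : ℕ} (x : Fin k → Perm (Fin n)) (p : Fin n)
    (ps : Fin j → Fin n) :
    Ch r L x (Fin.cons p ps : Fin (j + 1) → Fin n) ↔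
      Ch r L x ps ∧ traj r x p L = p ∧ ∀ i, ∀ t ≤ L, traj r x (ps i) t ≠ p := by
  constructor
  · rintro ⟨h1, h2⟩
    refine ⟨⟨fun i => ?_, fun i i' hii t ht => ?_⟩, ?_, fun i t ht => ?_⟩
    · simpa using h1 i.succ
    · have := h2 i.succ i'.succ (Fin.succ_lt_succ_iff.2 hii) t ht
      simpa using this
    · simpa using h1 0
    · have := h2 0 i.succ (Fin.succ_pos i) t ht
      simpa using this
  · rintro ⟨⟨h1, h2⟩, h3, h4⟩
    refine ⟨fun i => ?_, fun i i' hii t ht => ?_⟩
    · refine Fin.cases ?_ (fun i => ?_) i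
      · simpa using h3
      · simpa using h1 i
    · revert hii
      refine Fin.cases ?_ (fun i => ?_) i
      · refine Fin.cases ?_ (fun i' => ?_) i'
        · intro h; exact absurd h (lt_irrefl _)
        · intro _; simpa using h4 i' t ht
      · refine Fin.cases ?_ (fun i' => ?_) i'
        · intro h; exact absurd h (Fin.not_lt_zero _)
        · intro h; simpa using h2 i i' (Fin.succ_lt_succ_iff.1 h) t ht

/-- The set of visited points. -/
def U (r : ℕ → Fin k × Bool) (L : ℕ) {j : ℕ} (x : Fin k → Perm (Fin n)) (ps : Fin j → Fin n) :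
    Finset (Fin n) :=
  (Finset.univ ×ˢ Finset.range (L + 1)).image fun a : Fin j × ℕ => traj r x (ps a.1) a.2

lemma mem_U (r : ℕ → Fin k × Bool) (L : ℕ) {j : ℕ} (x : Fin k → Perm (Fin n))
    (ps : Fin j → Fin n) (v : Fin n) :
    v ∈ U r L x ps ↔ ∃ i, ∃ t ≤ L, traj r x (ps i) t = v := by
  unfold U
  simp only [Finset.mem_image, Finset.mem_product, Finset.mem_univ, true_and, Finset.mem_range,
    Prod.exists]
  constructor
  · rintro ⟨i, t, ht, h⟩; exact ⟨i, t, by omega, h⟩
  · rintro ⟨i, t, ht, h⟩; exact ⟨i, t, by omega, h⟩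

lemma card_U (r : ℕ → Fin k × Bool) (L : ℕ) {j : ℕ} (x : Fin k → Perm (Fin n))
    (ps : Fin j → Fin n) : (U r L x ps).card ≤ j * (L + 1) := by
  unfold U
  refine Finset.card_image_le.trans ?_
  simp

/-- The decoding map. -/
def dec (r : ℕ → Fin k × Bool) {j : ℕ} (x' : Fin k → Perm (Fin n)) (ps : Fin j → Fin n)
    (p : Fin n) (t0 : ℕ) (jj : Fin (j + 1)) (t : ℕ) :
    ((Fin k → Perm (Fin n)) × (Fin (j + 1) → Fin n)) × Fin n :=
  ((M (r t0) (traj r x' ((Fin.cons p ps : Fin (j + 1) → Fin n) jj) t)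
      (act x' (r t0) (traj r x' p t0)) x', Fin.cons p ps),
    act x' (r t0) (traj r x' p t0))

lemma exists_dec (r : ℕ → Fin k × Bool) (L : ℕ) (hL : 0 < L)
    (hr : ∀ t, t + 1 < L → ¬ ((r (t + 1)).1 = (r t).1 ∧ (r (t + 1)).2 = !(r t).2))
    {j : ℕ} (x : Fin k → Perm (Fin n)) (p : Fin n) (ps : Fin j → Fin n) (v : Fin n)
    (hC : Ch r L x (Fin.cons p ps : Fin (j + 1) → Fin n))
    (hv : v ∉ U r L x (Fin.cons p ps : Fin (j + 1) → Fin n)) :
    ∃ x' : Fin k → Perm (Fin n), Ch r L x' ps ∧ ∃ t0 < L, ∃ jj : Fin (j + 1), ∃ t ≤ L,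
      dec r x' ps p t0 jj t = ((x, Fin.cons p ps), v) := by
  classical
  rw [Ch_cons] at hC
  obtain ⟨hC1, hC2, hC3⟩ := hC
  have hv' : ∀ i : Fin (j + 1), ∀ t ≤ L,
      traj r x ((Fin.cons p ps : Fin (j + 1) → Fin n) i) t ≠ v := by
    intro i t ht h
    exact hv ((mem_U _ _ _ _ _).2 ⟨i, t, ht, h⟩)
  have hvp : ∀ t ≤ L, traj r x p t ≠ v := by
    intro t ht
    simpa using hv' 0 t ht
  have hvq : ∀ i, ∀ t ≤ L, traj r x (ps i) t ≠ v := by
    intro i t ht
    simpa using hv' i.succ t ht
  -- first coincidence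
  let P : ℕ → Prop := fun t => (∃ i, ∃ t' ≤ L, traj r x (ps i) t' = traj r x p (t + 1)) ∨
    (∃ t' ≤ t, traj r x p t' = traj r x p (t + 1))
  have hPL : P (L - 1) := by
    right
    refine ⟨0, Nat.zero_le _, ?_⟩
    rw [Nat.sub_add_cancel hL, hC2]
    rfl
  have hex : ∃ t, P t := ⟨_, hPL⟩
  obtain ⟨t0, ht0, hmin⟩ : ∃ t0, P t0 ∧ ∀ t < t0, ¬ P t :=
    ⟨Nat.find hex, Nat.find_spec hex, fun t ht => Nat.find_min hex ht⟩
  have ht0L : t0 < L := by
    by_contra h
    exact hmin (L - 1) (by omega) hPL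
  have hnU : ∀ t ≤ t0, ∀ i, ∀ t' ≤ L, traj r x (ps i) t' ≠ traj r x p t := by
    intro t ht i t' ht'
    rcases t with _ | t
    · exact hC3 i t' ht'
    · intro h
      exact hmin t (by omega) (Or.inl ⟨i, t', ht', h⟩)
  have hinj : ∀ t ≤ t0, ∀ t' < t, traj r x p t' ≠ traj r x p t := by
    intro t ht t' ht'
    rcases t with _ | t
    · omega
    · intro h
      exact hmin t (by omega) (Or.inr ⟨t', by omega, h⟩)
  set y := traj r x p t0 with hy
  set s := r t0 with hs
  set z := traj r x p (t0 + 1) with hz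
  have hzy : act x s y = z := rfl
  -- modified tuple
  set x' := M s z v x with hx'
  have hA : ∀ i, ∀ t ≤ L, traj r x' (ps i) t = traj r x (ps i) t := by
    intro i t
    induction t with
    | zero => intro _; rfl
    | succ t ih =>
      intro ht
      have h1 := ih (by omega)
      change act x' (r t) (traj r x' (ps i) t) = act x (r t) (traj r x (ps i) t)
      rw [h1]
      apply step_eq s (r t) z v y _ x hzy (hvq i t (by omega)) (hvq i (t + 1) ht)
      · intro _
        exact hnU t0 le_rfl i t (by omega)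
      · intro _ _
        exact hnU t0 le_rfl i (t + 1) ht
  have hB : ∀ t ≤ t0, traj r x' p t = traj r x p t := by
    intro t
    induction t with
    | zero => intro _; rfl
    | succ t ih =>
      intro ht
      have h1 := ih (by omega)
      change act x' (r t) (traj r x' p t) = act x (r t) (traj r x p t)
      rw [h1]
      apply step_eq s (r t) z v y _ x hzy (hvp t (by omega)) (hvp (t + 1) (by omega))
      · intro _
        exact hinj t0 le_rfl t (by omega)
      · intro ha hb h
        have h3 : t + 1 = t0 := by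
          by_contra hne
          exact hinj t0 le_rfl (t + 1) (by omega) h
        have h4 := hr t (by omega)
        rw [h3, ← hs] at h4
        apply h4
        refine ⟨ha.symm, ?_⟩
        rw [hb]; simp
  have hyy : traj r x' p t0 = y := hB t0 le_rfl
  have hvv : act x' s y = v := by
    rw [hx', act_M_same, Perm.mul_apply, hzy, swap_apply_left]
  have hzz : ∃ jj : Fin (j + 1), ∃ t ≤ L,
      traj r x' ((Fin.cons p ps : Fin (j + 1) → Fin n) jj) t = z := by
    rcases ht0 with ⟨i, t', ht', h⟩ | ⟨t', ht', h⟩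
    · refine ⟨i.succ, t', ht', ?_⟩
      rw [Fin.cons_succ, hA i t' ht', h]
    · refine ⟨0, t', by omega, ?_⟩
      rw [Fin.cons_zero, hB t' ht', h]
  obtain ⟨jj, t, ht, hzz⟩ := hzz
  refine ⟨x', ⟨fun i => ?_, fun i i' hii t ht => ?_⟩, t0, ht0L, jj, t, ht, ?_⟩
  · rw [hA i L le_rfl]; exact hC1.1 i
  · rw [hA i' t ht]; exact hC1.2 i i' hii t ht
  · unfold dec
    rw [hzz, hyy, ← hs, hvv, hx', M_M]

/-- pairs (permutations, chain). -/
noncomputable def T (n : ℕ) {k : ℕ} (r : ℕ → Fin k × Bool) (L j : ℕ) :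
    Finset ((Fin k → Perm (Fin n)) × (Fin j → Fin n)) := by
  classical exact Finset.univ.filter fun a => Ch r L a.1 a.2

lemma mem_T (r : ℕ → Fin k × Bool) (L j : ℕ)
    (a : (Fin k → Perm (Fin n)) × (Fin j → Fin n)) : a ∈ T n r L j ↔ Ch r L a.1 a.2 := by
  unfold T; simp

lemma T_step (r : ℕ → Fin k × Bool) (L : ℕ) (hL : 0 < L)
    (hr : ∀ t, t + 1 < L → ¬ ((r (t + 1)).1 = (r t).1 ∧ (r (t + 1)).2 = !(r t).2)) (j : ℕ) :
    (T n r L (j + 1)).card * (n - (j + 1) * (L + 1)) ≤
      (T n r L j).card * (n * (L * ((j + 1) * (L + 1)))) := by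
  classical
  let D : Finset (Σ _ : (Fin k → Perm (Fin n)) × (Fin (j + 1) → Fin n), Fin n) :=
    (T n r L (j + 1)).sigma fun a => (U r L a.1 a.2)ᶜ
  let E : Finset (((Fin k → Perm (Fin n)) × (Fin j → Fin n)) ×
      (Fin n × (Fin L × (Fin (j + 1) × Fin (L + 1))))) := T n r L j ×ˢ Finset.univ
  have hD : (T n r L (j + 1)).card * (n - (j + 1) * (L + 1)) ≤ D.card := by
    rw [Finset.card_sigma, ← smul_eq_mul]
    apply Finset.card_nsmul_le_sum
    intro a _
    rw [Finset.card_compl, Fintype.card_fin]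
    have := card_U r L a.1 a.2
    omega
  have hE : E.card = (T n r L j).card * (n * (L * ((j + 1) * (L + 1)))) := by
    simp [E, Finset.card_product]
  rw [← hE]
  refine hD.trans ?_
  have hsub : D ⊆ E.image fun e =>
      let d := dec r e.1.1 e.1.2 e.2.1 e.2.2.1 e.2.2.2.1 e.2.2.2.2
      (⟨d.1, d.2⟩ : Σ _ : (Fin k → Perm (Fin n)) × (Fin (j + 1) → Fin n), Fin n) := by
    rintro ⟨⟨x, ps'⟩, v⟩ hd
    simp only [D, Finset.mem_sigma, mem_T, Finset.mem_compl] at hd
    obtain ⟨hC, hv⟩ := hd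
    rw [← Fin.cons_self_tail ps'] at hC hv
    obtain ⟨x', hx', t0, ht0, jj, t, ht, he⟩ := exists_dec r L hL hr x (ps' 0) (Fin.tail ps') v hC hv
    rw [Finset.mem_image]
    refine ⟨((x', Fin.tail ps'), (ps' 0, (⟨t0, ht0⟩, (jj, ⟨t, by omega⟩)))), ?_, ?_⟩
    · simp [E, mem_T, hx']
    · simp only [he, Fin.cons_self_tail]
  exact (Finset.card_le_card hsub).trans Finset.card_image_le

lemma T_zero (r : ℕ → Fin k × Bool) (L : ℕ) : (T n r L 0).card ≤ n.factorial ^ k := by
  refine (Finset.card_le_univ _).trans ?_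
  simp [Fintype.card_perm]

lemma T_bound (r : ℕ → Fin k × Bool) (L m f : ℕ) (hL : 0 < L) (hLm : L ≤ m)
    (hn : 0 < n) (hV : 2 * (f * (m + 1)) ≤ n)
    (hr : ∀ t, t + 1 < L → ¬ ((r (t + 1)).1 = (r t).1 ∧ (r (t + 1)).2 = !(r t).2)) :
    ∀ j ≤ f, (T n r L j).card ≤ n.factorial ^ k * (2 * (m * (f * (m + 1)))) ^ j := by
  intro j
  induction j with
  | zero => intro _; simpa using T_zero r L
  | succ j ih =>
    intro hj
    have h1 := ih (by omega)
    have h2 := T_step (n := n) r L hL hr j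
    have h3 : (j + 1) * (L + 1) ≤ f * (m + 1) := Nat.mul_le_mul hj (by omega)
    have h4 : L * ((j + 1) * (L + 1)) ≤ m * (f * (m + 1)) := Nat.mul_le_mul hLm h3
    have h5 : n ≤ 2 * (n - (j + 1) * (L + 1)) := by omega
    have h6 : (T n r L (j + 1)).card * n ≤ (T n r L j).card * (2 * (m * (f * (m + 1)))) * n := by
      calc (T n r L (j + 1)).card * n ≤ (T n r L (j + 1)).card * (2 * (n - (j + 1) * (L + 1))) :=
            Nat.mul_le_mul_left _ h5
        _ = 2 * ((T n r L (j + 1)).card * (n - (j + 1) * (L + 1))) := by ring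
        _ ≤ 2 * ((T n r L j).card * (n * (L * ((j + 1) * (L + 1))))) := Nat.mul_le_mul_left _ h2
        _ ≤ 2 * ((T n r L j).card * (n * (m * (f * (m + 1))))) := by gcongr
        _ = _ := by ring
    have h7 : (T n r L (j + 1)).card ≤ (T n r L j).card * (2 * (m * (f * (m + 1)))) :=
      Nat.le_of_mul_le_mul_right h6 hn
    calc _ ≤ (T n r L j).card * (2 * (m * (f * (m + 1)))) := h7
      _ ≤ (n.factorial ^ k * (2 * (m * (f * (m + 1)))) ^ j) * (2 * (m * (f * (m + 1)))) :=
          Nat.mul_le_mul_right _ h1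
      _ = _ := by ring

/-- number of chains for one tuple of permutations. -/
noncomputable def cnt (r : ℕ → Fin k × Bool) (L j : ℕ) (x : Fin k → Perm (Fin n)) : ℕ := by
  classical exact (Finset.univ.filter fun ps : Fin j → Fin n => Ch r L x ps).card

lemma T_card (r : ℕ → Fin k × Bool) (L j : ℕ) :
    (T n r L j).card = ∑ x : Fin k → Perm (Fin n), cnt r L j x := by
  classical
  unfold T cnt
  simp only [Finset.card_filter]
  rw [Fintype.sum_prod_type]

lemma cnt_step (r : ℕ → Fin k × Bool) (L j F : ℕ) (x : Fin k → Perm (Fin n))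
    (hF : F ≤ (Finset.univ.filter fun p : Fin n => traj r x p L = p).card) :
    cnt r L j x * (F - j * (L + 1)) ≤ cnt r L (j + 1) x := by
  classical
  unfold cnt
  let D : Finset (Σ _ : Fin j → Fin n, Fin n) :=
    (Finset.univ.filter fun ps : Fin j → Fin n => Ch r L x ps).sigma
      fun ps => (Finset.univ.filter fun p : Fin n => traj r x p L = p) \ U r L x ps
  have hD : (Finset.univ.filter fun ps : Fin j → Fin n => Ch r L x ps).card *
      (F - j * (L + 1)) ≤ D.card := by
    rw [Finset.card_sigma, ← smul_eq_mul]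
    apply Finset.card_nsmul_le_sum
    intro ps _
    have h1 := card_U r L x ps
    have h2 := Finset.le_card_sdiff (U r L x ps) (Finset.univ.filter fun p : Fin n => traj r x p L = p)
    omega
  refine hD.trans ?_
  apply Finset.card_le_card_of_injOn (fun a => (Fin.cons a.2 a.1 : Fin (j + 1) → Fin n))
  · rintro ⟨ps, p⟩ ha
    simp only [D, Finset.coe_sigma, Set.mem_sigma_iff, Finset.mem_coe, Finset.mem_filter,
      Finset.mem_univ, true_and, Finset.mem_sdiff] at ha
    simp only [Finset.coe_filter, Finset.mem_univ, true_and, Set.mem_ofPred_eq]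
    rw [Ch_cons]
    refine ⟨ha.1, ha.2.1, fun i t ht h => ha.2.2 ?_⟩
    rw [mem_U]
    exact ⟨i, t, ht, h⟩
  · rintro ⟨ps, p⟩ _ ⟨ps', p'⟩ _ h
    simp only at h
    have h' := Fin.cons_injective2 h
    rw [h'.1, h'.2]

lemma cnt_bound (r : ℕ → Fin k × Bool) (L m f F : ℕ) (hLm : L ≤ m) (x : Fin k → Perm (Fin n))
    (hF2 : 2 * (f * (m + 1)) ≤ F)
    (hF : F ≤ (Finset.univ.filter fun p : Fin n => traj r x p L = p).card) :
    ∀ j ≤ f, F ^ j ≤ 2 ^ j * cnt r L j x := by
  intro j
  induction j with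
  | zero =>
    intro _
    have : cnt r L 0 x = 1 := by
      classical
      unfold cnt
      rw [Finset.filter_true_of_mem]
      · simp
      · intro ps _
        exact ⟨fun i => i.elim0, fun i => i.elim0⟩
    simp [this]
  | succ j ih =>
    intro hj
    have h1 := ih (by omega)
    have h2 := cnt_step r L j F x hF
    have h3 : j * (L + 1) ≤ f * (m + 1) := Nat.mul_le_mul (by omega) (by omega)
    have h4 : F ≤ 2 * (F - j * (L + 1)) := by omega
    calc F ^ (j + 1) = F ^ j * F := pow_succ _ _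
      _ ≤ (2 ^ j * cnt r L j x) * (2 * (F - j * (L + 1))) := Nat.mul_le_mul h1 h4
      _ = 2 ^ (j + 1) * (cnt r L j x * (F - j * (L + 1))) := by ring
      _ ≤ _ := Nat.mul_le_mul_left _ h2

theorem count_seq (r : ℕ → Fin k × Bool) (L m f F : ℕ) (hL : 0 < L) (hLm : L ≤ m)
    (hV : 2 * (f * (m + 1)) ≤ n) (hF : 2 * (f * (m + 1)) ≤ F) (hF0 : 0 < F)
    (hr : ∀ t, t + 1 < L → ¬ ((r (t + 1)).1 = (r t).1 ∧ (r (t + 1)).2 = !(r t).2)) :
    (Nat.card {x : Fin k → Perm (Fin n) //
      F ≤ (Finset.univ.filter fun i : Fin n => traj r x i L = i).card} : ℝ) ≤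
      (n.factorial : ℝ) ^ k * (4 * m * (f * (m + 1)) / F) ^ f := by
  classical
  rw [Nat.card_eq_fintype_card, Fintype.card_subtype]
  rcases Nat.eq_zero_or_pos n with hn | hn
  · subst hn
    have : (Finset.univ.filter fun x : Fin k → Perm (Fin 0) =>
      F ≤ (Finset.univ.filter fun i : Fin 0 => traj r x i L = i).card) = ∅ := by
      rw [Finset.filter_eq_empty_iff]
      intro x _ h
      simp at h
      omega
    rw [this]
    simp only [Finset.card_empty, Nat.cast_zero]
    positivity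
  have hT := T_bound (n := n) r L m f hL hLm hn hV hr f le_rfl
  rw [T_card] at hT
  have h1 : (Finset.univ.filter fun x : Fin k → Perm (Fin n) =>
      F ≤ (Finset.univ.filter fun i : Fin n => traj r x i L = i).card).card * F ^ f ≤
      2 ^ f * ∑ x : Fin k → Perm (Fin n), cnt r L f x := by
    rw [← smul_eq_mul, Finset.mul_sum]
    refine (Finset.card_nsmul_le_sum _ (fun x => 2 ^ f * cnt r L f x) _ ?_).trans ?_
    · intro x hx
      rw [Finset.mem_filter] at hx
      exact cnt_bound r L m f F hLm x hF hx.2 f le_rfl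
    · exact Finset.sum_le_sum_of_subset (Finset.filter_subset _ _)
  have h2 : (Finset.univ.filter fun x : Fin k → Perm (Fin n) =>
      F ≤ (Finset.univ.filter fun i : Fin n => traj r x i L = i).card).card * F ^ f ≤
      n.factorial ^ k * (4 * m * (f * (m + 1))) ^ f := by
    calc _ ≤ 2 ^ f * (n.factorial ^ k * (2 * (m * (f * (m + 1)))) ^ f) :=
          h1.trans (Nat.mul_le_mul_left _ hT)
      _ = n.factorial ^ k * (2 ^ f * (2 * (m * (f * (m + 1)))) ^ f) := by ring
      _ = n.factorial ^ k * (4 * m * (f * (m + 1))) ^ f := by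
          rw [← mul_pow]; congr 2; ring
  have hFp : (0:ℝ) < (F:ℝ) ^ f := by positivity
  rw [div_pow, ← mul_div_assoc, le_div_iff₀ hFp]
  exact_mod_cast h2

/-! ### Words -/

/-- The sequence of letters in order of application. -/
def seq (d : Fin k × Bool) (w : List (Fin k × Bool)) (t : ℕ) : Fin k × Bool :=
  w.reverse.getD t d

lemma traj_congr (r r' : ℕ → Fin k × Bool) (x : Fin k → Perm (Fin n)) (p : Fin n) (t : ℕ)
    (h : ∀ i < t, r i = r' i) : traj r x p t = traj r' x p t := by
  induction t with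
  | zero => rfl
  | succ t ih =>
    change act x (r t) (traj r x p t) = act x (r' t) (traj r' x p t)
    rw [ih (fun i hi => h i (by omega)), h t (by omega)]

lemma prod_eq_traj (d : Fin k × Bool) (x : Fin k → Perm (Fin n)) (p : Fin n)
    (w : List (Fin k × Bool)) :
    (w.map fun s => cond s.2 (x s.1) (x s.1)⁻¹).prod p = traj (seq d w) x p w.length := by
  induction w with
  | nil => rfl
  | cons s w ih =>
    rw [List.map_cons, List.prod_cons, Perm.mul_apply, ih]
    change act x s _ = act x (seq d (s :: w) w.length) (traj (seq d (s :: w)) x p w.length)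
    have h1 : seq d (s :: w) w.length = s := by
      unfold seq
      rw [List.reverse_cons, List.getD_eq_getElem?_getD, List.getElem?_append_right (by simp)]
      simp
    have h2 : traj (seq d (s :: w)) x p w.length = traj (seq d w) x p w.length := by
      apply traj_congr
      intro i hi
      unfold seq
      rw [List.reverse_cons, List.getD_eq_getElem?_getD, List.getD_eq_getElem?_getD,
        List.getElem?_append_left (by simpa using hi)]
    rw [h1, h2]

lemma seq_reduced (d : Fin k × Bool) (w : List (Fin k × Bool)) (hw : FreeGroup.IsReduced w) :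
    ∀ t, t + 1 < w.length →
      ¬ ((seq d w (t + 1)).1 = (seq d w t).1 ∧ (seq d w (t + 1)).2 = !(seq d w t).2) := by
  intro t ht ⟨h1, h2⟩
  have ha : seq d w (t + 1) = w[w.length - 1 - (t + 1)]'(by omega) := by
    unfold seq
    rw [List.getD_eq_getElem _ _ (by simpa using ht), List.getElem_reverse]
  have hb : seq d w t = w[w.length - 1 - t]'(by omega) := by
    unfold seq
    rw [List.getD_eq_getElem _ _ (by simp; omega), List.getElem_reverse]
  have hc := List.isChain_iff_getElem.1 hw (w.length - 1 - (t + 1)) (by omega)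
  have hidx : w.length - 1 - (t + 1) + 1 = w.length - 1 - t := by omega
  simp only [hidx] at hc
  rw [← ha, ← hb] at hc
  have := hc h1
  rw [this] at h2
  cases h : (seq d w t).2 <;> simp [h] at h2

theorem fixed_points_bound {n k : ℕ} (g : FreeGroup (Fin k)) (hg : g ≠ 1) (m f F : ℕ)
    (hm : g.toWord.length ≤ m) (hV : 2 * (f * (m + 1)) ≤ n) (hF : 2 * (f * (m + 1)) ≤ F)
    (hF0 : 0 < F) :
    (Nat.card {x : Fin k → Equiv.Perm (Fin n) //
      F ≤ (Finset.univ.filter fun i : Fin n => FreeGroup.lift x g i = i).card} : ℝ) ≤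
      (n.factorial : ℝ) ^ k * (4 * m * (f * (m + 1)) / F) ^ f := by
  have hL : 0 < g.toWord.length := by
    rw [List.length_pos_iff]
    intro h
    exact hg (FreeGroup.toWord_eq_nil_iff.1 h)
  obtain ⟨d, hd⟩ : ∃ d : Fin k × Bool, d ∈ g.toWord := List.exists_mem_of_length_pos hL
  have h1 := count_seq (n := n) (seq d g.toWord) g.toWord.length m f F hL hm hV hF hF0
    (seq_reduced d _ FreeGroup.isReduced_toWord)
  have h2 : ∀ (x : Fin k → Equiv.Perm (Fin n)) (i : Fin n),
      FreeGroup.lift x g i = traj (seq d g.toWord) x i g.toWord.length := by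
    intro x i
    rw [← prod_eq_traj]
    conv_lhs => rw [← FreeGroup.mk_toWord (x := g)]
    rw [FreeGroup.lift_mk]
  simp only [h2]
  exact h1

end Pool.Agent.Helper90.W2
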