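import Mathlib

namespace Pool.Agent.Helper90.W1

open Finset

/-- Number of words of length `l` representing `g`. -/
noncomputable def N {k : ℕ} (l : ℕ) (g : FreeGroup (Fin k)) : ℕ :=
  (Finset.univ.filter fun w : Fin l → Fin k × Bool =>
      FreeGroup.mk (List.ofFn w) = g).card

lemma N_succ {k : ℕ} (l : ℕ) (g : FreeGroup (Fin k)) :
    N (l + 1) g = ∑ s : Fin k × Bool, N l (FreeGroup.mk [(s.1, !s.2)] * g) := by
  classical
  unfold N
  simp only [Finset.card_filter]
  rw [← (Fin.consEquiv (fun _ : Fin (l + 1) => Fin k × Bool)).sum_comp, Fintype.sum_prod_type]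
  refine Finset.sum_congr rfl fun s _ => Finset.sum_congr rfl fun w _ => ?_
  have h1 : List.ofFn ((Fin.consEquiv (fun _ : Fin (l + 1) => Fin k × Bool)) (s, w))
      = [s] ++ List.ofFn w := by
    rw [List.ofFn_succ]
    simp [Fin.consEquiv]
  rw [h1, ← FreeGroup.mul_mk]
  have h2 : (FreeGroup.mk [(s.1, !s.2)] : FreeGroup (Fin k)) = (FreeGroup.mk [s])⁻¹ := by
    rw [FreeGroup.inv_mk]; rfl
  have h3 : (FreeGroup.mk [s] * FreeGroup.mk (List.ofFn w) = g) ↔
      (FreeGroup.mk (List.ofFn w) = FreeGroup.mk [(s.1, !s.2)] * g) := by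
    rw [h2]
    constructor
    · intro h; rw [← h]; group
    · intro h; rw [h]; group
  simp only [h3]

lemma length_step {k : ℕ} (s : Fin k × Bool) (g : FreeGroup (Fin k)) :
    (g.toWord.head? = some s ∧
      (FreeGroup.mk [(s.1, !s.2)] * g).toWord.length + 1 = g.toWord.length) ∨
    (g.toWord.head? ≠ some s ∧
      (FreeGroup.mk [(s.1, !s.2)] * g).toWord.length = g.toWord.length + 1) := by
  have h : (FreeGroup.mk [(s.1, !s.2)] * g).toWord = FreeGroup.reduce ((s.1, !s.2) :: g.toWord) := by
    rw [FreeGroup.toWord_mul, FreeGroup.toWord_mk, FreeGroup.reduce_singleton]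
    rfl
  rw [h, FreeGroup.reduce.cons, FreeGroup.reduce_toWord]
  rcases hg : g.toWord with _ | ⟨hd, tl⟩
  · right
    simp
  · by_cases hs : s = hd
    · left
      subst hs
      simp
    · right
      have : ¬ (s.1 = hd.1 ∧ (!s.2) = !hd.2) := by
        rintro ⟨h1, h2⟩
        apply hs
        ext
        · exact congrArg Fin.val h1
        · simpa using h2
      constructor
      · simpa [eq_comm] using hs
      · simp only [this, if_false, List.length_cons]

theorem N_bound {k : ℕ} (hk : 0 < k) (l : ℕ) : ∀ g : FreeGroup (Fin k),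
    (N l g : ℝ) * Real.sqrt (2 * k) ^ g.toWord.length ≤ (2 * Real.sqrt (2 * k)) ^ l := by
  have hKK : Real.sqrt (2 * k) * Real.sqrt (2 * k) = 2 * k := Real.mul_self_sqrt (by positivity)
  set K := Real.sqrt (2 * k) with hK
  have hKpos : 0 < K := Real.sqrt_pos.2 (by positivity)
  induction l with
  | zero =>
    intro g
    by_cases hg : g = 1
    · subst hg
      have : N 0 (1 : FreeGroup (Fin k)) ≤ 1 := by
        unfold N
        exact (Finset.card_le_univ _).trans (by simp)
      simp only [FreeGroup.toWord_one, List.length_nil, pow_zero, mul_one]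
      exact_mod_cast this
    · have : N 0 g = 0 := by
        unfold N
        rw [Finset.card_eq_zero, Finset.filter_eq_empty_iff]
        intro w _ h
        apply hg
        rw [← h, FreeGroup.one_eq_mk]
        simp
      rw [this]; simp
  | succ l ih =>
    intro g
    rw [N_succ]
    push_cast
    rw [Finset.sum_mul]
    have key : ∀ s : Fin k × Bool,
        (N l (FreeGroup.mk [(s.1, !s.2)] * g) : ℝ) * K ^ g.toWord.length ≤
          (2 * K) ^ l * (K⁻¹ + if g.toWord.head? = some s then K else 0) := by
      intro s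
      have hi := ih (FreeGroup.mk [(s.1, !s.2)] * g)
      have hN : (0:ℝ) ≤ (N l (FreeGroup.mk [(s.1, !s.2)] * g) : ℝ) := Nat.cast_nonneg _
      rcases length_step s g with ⟨h1, h2⟩ | ⟨h1, h2⟩
      · rw [if_pos h1, ← h2, pow_succ, ← mul_assoc]
        calc _ ≤ (2 * K) ^ l * K := mul_le_mul_of_nonneg_right hi hKpos.le
          _ ≤ _ := by
            apply mul_le_mul_of_nonneg_left _ (by positivity)
            have : 0 < K⁻¹ := inv_pos.2 hKpos
            linarith
      · rw [if_neg h1, add_zero]
        rw [h2, pow_succ, ← mul_assoc] at hi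
        rw [← div_eq_mul_inv, le_div_iff₀ hKpos]
        exact hi
    calc _ ≤ ∑ s : Fin k × Bool, (2 * K) ^ l * (K⁻¹ + if g.toWord.head? = some s then K else 0) :=
          Finset.sum_le_sum fun s _ => key s
      _ = (2 * K) ^ l * (2 * k * K⁻¹ +
            ∑ s : Fin k × Bool, if g.toWord.head? = some s then K else 0) := by
          rw [← Finset.mul_sum, Finset.sum_add_distrib]
          simp only [Finset.sum_const, Finset.card_univ, Fintype.card_prod, Fintype.card_fin,
            Fintype.card_bool, nsmul_eq_mul]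
          push_cast
          ring
      _ ≤ (2 * K) ^ l * (2 * k * K⁻¹ + K) := by
          apply mul_le_mul_of_nonneg_left _ (by positivity)
          gcongr
          rcases hh : g.toWord.head? with _ | t
          · simp [hKpos.le]
          · simp
      _ = (2 * K) ^ (l + 1) := by
          rw [← hKK, mul_assoc K K, mul_inv_cancel₀ hKpos.ne']
          ring

theorem trivial_words (k l : ℕ) (hk : 0 < k) :
    ((Finset.univ.filter fun w : Fin l → Fin k × Bool =>
      FreeGroup.mk (List.ofFn w) = 1).card : ℝ) ≤ 2 ^ l * Real.sqrt (2 * k) ^ l := by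
  have h := N_bound hk l 1
  simp only [FreeGroup.toWord_one, List.length_nil, pow_zero, mul_one] at h
  rw [mul_pow] at h
  exact h

end Pool.Agent.Helper90.W1
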