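import Mathlib

set_option autoImplicit false

open Finset

namespace Pool.Agent.Helper90.Twin

/-! ### Sums of periodic functions over intervals -/

theorem sum_range_shift_periodic {q : ℕ} {f : ℕ → ℝ} (hf : ∀ x, f (x + q) = f x) (a : ℕ) :
    ∑ i ∈ range q, f (a + i) = ∑ x ∈ range q, f x := by
  induction a with
  | zero => simp
  | succ a ih =>
    have h1 : ∑ i ∈ range (q + 1), f (a + i) = ∑ i ∈ range q, f (a + i) + f (a + q) :=
      Finset.sum_range_succ _ _
    have h2 : ∑ i ∈ range (q + 1), f (a + i) = ∑ i ∈ range q, f (a + (i + 1)) + f (a + 0) :=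
      Finset.sum_range_succ' _ _
    have h3 : ∑ i ∈ range q, f (a + 1 + i) = ∑ i ∈ range q, f (a + (i + 1)) := by
      apply Finset.sum_congr rfl
      intro i _
      congr 1
      ring
    rw [h3]
    rw [h1, hf, ih] at h2
    simp at h2
    linarith

/-- Alternating sums of a non-negative function with odd period over intervals. -/
theorem abs_alt_sum_le {q : ℕ} (hq : Odd q) {f : ℕ → ℝ} (hf : ∀ x, f (x + q) = f x)
    (hf0 : ∀ x, 0 ≤ f x) (a h : ℕ) :
    |∑ i ∈ range h, (-1 : ℝ) ^ i * f (a + i)| ≤ ∑ x ∈ range q, f x := by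
  set S : ℕ → ℝ := fun h => ∑ i ∈ range h, (-1 : ℝ) ^ i * f (a + i) with hS
  have hqpos : 0 < q := hq.pos
  have hshift : ∀ h, S (q + h) = S q - S h := by
    intro h
    simp only [hS]
    rw [Finset.sum_range_add, sub_eq_add_neg, ← Finset.sum_neg_distrib]
    congr 1
    apply Finset.sum_congr rfl
    intro i _
    have h1 : a + (q + i) = (a + i) + q := by ring
    rw [h1, hf, pow_add, hq.neg_one_pow]
    ring
  have hper : ∀ h, S (h + 2 * q) = S h := by
    intro h
    have h1 : h + 2 * q = q + (q + h) := by ring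
    rw [h1, hshift, hshift]
    ring
  have hsmall : ∀ h, h ≤ q → |S h| ≤ ∑ x ∈ range q, f x := by
    intro h hh
    calc |S h| ≤ ∑ i ∈ range h, |(-1 : ℝ) ^ i * f (a + i)| := Finset.abs_sum_le_sum_abs _ _
      _ = ∑ i ∈ range h, f (a + i) := by
        apply Finset.sum_congr rfl
        intro i _
        rw [abs_mul, abs_pow, abs_neg, abs_one, one_pow, one_mul, abs_of_nonneg (hf0 _)]
      _ ≤ ∑ i ∈ range q, f (a + i) :=
        Finset.sum_le_sum_of_subset_of_nonneg (Finset.range_subset_range.2 hh) (fun _ _ _ => hf0 _)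
      _ = _ := sum_range_shift_periodic hf a
  have hmid : ∀ h, h ≤ q → |S q - S h| ≤ ∑ x ∈ range q, f x := by
    intro h hh
    have h1 : S q - S h = ∑ i ∈ Ico h q, (-1 : ℝ) ^ i * f (a + i) := by
      simp only [hS]
      rw [Finset.sum_Ico_eq_sub _ hh]
    rw [h1]
    calc |∑ i ∈ Ico h q, (-1 : ℝ) ^ i * f (a + i)|
        ≤ ∑ i ∈ Ico h q, |(-1 : ℝ) ^ i * f (a + i)| := Finset.abs_sum_le_sum_abs _ _
      _ = ∑ i ∈ Ico h q, f (a + i) := by
        apply Finset.sum_congr rfl
        intro i _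
        rw [abs_mul, abs_pow, abs_neg, abs_one, one_pow, one_mul, abs_of_nonneg (hf0 _)]
      _ ≤ ∑ i ∈ range q, f (a + i) := by
        apply Finset.sum_le_sum_of_subset_of_nonneg
        · intro i hi
          rw [Finset.mem_Ico] at hi
          exact Finset.mem_range.2 hi.2
        · intro _ _ _
          exact hf0 _
      _ = _ := sum_range_shift_periodic hf a
  induction h using Nat.strong_induction_on with
  | _ h ih =>
    change |S h| ≤ _
    rcases Nat.lt_or_ge h (2 * q) with h1 | h1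
    · rcases Nat.lt_or_ge h q with h2 | h2
      · exact hsmall h h2.le
      · have h3 : h = q + (h - q) := by omega
        rw [h3, hshift]
        exact hmid _ (by omega)
    · have h3 : h = (h - 2 * q) + 2 * q := by omega
      rw [h3, hper]
      exact ih _ (by omega)

/-- Sums of a non-negative periodic function over intervals. -/
theorem abs_sum_sub_le {q : ℕ} (hq : 0 < q) {f : ℕ → ℝ} (hf : ∀ x, f (x + q) = f x)
    (hf0 : ∀ x, 0 ≤ f x) (a h : ℕ) :
    |∑ i ∈ range h, f (a + i) - h * ((∑ x ∈ range q, f x) / q)| ≤ ∑ x ∈ range q, f x := by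
  set F := ∑ x ∈ range q, f x with hF
  have hq' : (0 : ℝ) < q := by exact_mod_cast hq
  have hF0 : 0 ≤ F := Finset.sum_nonneg (fun _ _ => hf0 _)
  set S : ℕ → ℝ := fun h => ∑ i ∈ range h, f (a + i) - h * (F / q) with hS
  have hshift : ∀ h, S (q + h) = S h := by
    intro h
    simp only [hS]
    rw [Finset.sum_range_add, sum_range_shift_periodic hf a]
    have h1 : ∑ i ∈ range h, f (a + (q + i)) = ∑ i ∈ range h, f (a + i) := by
      apply Finset.sum_congr rfl
      intro i _
      have h1 : a + (q + i) = (a + i) + q := by ring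
      rw [h1, hf]
    rw [h1]
    push_cast
    field_simp
    ring
  induction h using Nat.strong_induction_on with
  | _ h ih =>
    change |S h| ≤ _
    rcases Nat.lt_or_ge h q with h1 | h1
    · have h2 : 0 ≤ ∑ i ∈ range h, f (a + i) := Finset.sum_nonneg (fun _ _ => hf0 _)
      have h3 : ∑ i ∈ range h, f (a + i) ≤ F := by
        rw [hF, ← sum_range_shift_periodic hf a]
        exact Finset.sum_le_sum_of_subset_of_nonneg (Finset.range_subset_range.2 h1.le)
          (fun _ _ _ => hf0 _)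
      have h4 : 0 ≤ (h : ℝ) * (F / q) := by positivity
      have h5 : (h : ℝ) * (F / q) ≤ F := by
        have h6 : (h : ℝ) ≤ q := by exact_mod_cast h1.le
        calc (h : ℝ) * (F / q) ≤ q * (F / q) := mul_le_mul_of_nonneg_right h6 (by positivity)
          _ = F := by field_simp
      simp only [hS]
      rw [abs_le]
      constructor <;> linarith
    · have h3 : h = q + (h - q) := by omega
      rw [h3, hshift]
      exact ih _ (by omega)

/-! ### Products of periodic functions over coprime moduli -/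

theorem sum_range_mul_coprime {a b : ℕ} (hab : Nat.Coprime a b) (ha : 0 < a) (hb : 0 < b)
    {f g : ℕ → ℝ} (hf : ∀ x, f (x + a) = f x) (hg : ∀ x, g (x + b) = g x) :
    ∑ x ∈ range (a * b), f x * g x = (∑ x ∈ range a, f x) * (∑ x ∈ range b, g x) := by
  have hfm : ∀ x, f (x % a) = f x := by
    intro x
    exact (Function.Periodic.map_mod_nat (fun x => hf x)) x
  have hgm : ∀ x, g (x % b) = g x := by
    intro x
    exact (Function.Periodic.map_mod_nat (fun x => hg x)) x
  rw [Finset.sum_mul_sum, ← Finset.sum_product']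
  apply Finset.sum_nbij' (fun x => (x % a, x % b))
    (fun p => (Nat.chineseRemainder hab p.1 p.2 : ℕ))
  · intro x _
    simp only [mem_product, mem_range]
    exact ⟨Nat.mod_lt _ ha, Nat.mod_lt _ hb⟩
  · rintro ⟨u, v⟩ _
    exact mem_range.2 (Nat.chineseRemainder_lt_mul hab u v ha.ne' hb.ne')
  · intro x hx
    rw [mem_range] at hx
    have h := Nat.chineseRemainder_modEq_unique hab (a := x % a) (b := x % b) (z := x)
      (Nat.mod_modEq x a).symm (Nat.mod_modEq x b).symm
    have h1 := Nat.chineseRemainder_lt_mul hab (x % a) (x % b) ha.ne' hb.ne'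
    exact (Nat.ModEq.eq_of_lt_of_lt h hx h1).symm
  · rintro ⟨u, v⟩ huv
    simp only [mem_product, mem_range] at huv
    obtain ⟨h1, h2⟩ := (Nat.chineseRemainder hab u v).2
    ext
    · simp only
      rw [h1, Nat.mod_eq_of_lt huv.1]
    · simp only
      rw [h2, Nat.mod_eq_of_lt huv.2]
  · intro x _
    simp only [hfm, hgm]

theorem periodic_prod {s : Finset ℕ} {f : ℕ → ℕ → ℝ} (hf : ∀ p ∈ s, ∀ x, f p (x + p) = f p x)
    (x : ℕ) : ∏ p ∈ s, f p (x + ∏ p ∈ s, p) = ∏ p ∈ s, f p x := by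
  apply Finset.prod_congr rfl
  intro p hp
  obtain ⟨k, hk⟩ := Finset.dvd_prod_of_mem (fun p => p) hp
  rw [hk]
  have h : ∀ k, f p (x + p * k) = f p x := by
    intro k
    induction k with
    | zero => simp
    | succ k ih =>
      have : x + p * (k + 1) = x + p * k + p := by ring
      rw [this, hf p hp, ih]
  exact h k

theorem sum_range_prod_coprime {s : Finset ℕ} (hpos : ∀ p ∈ s, 0 < p)
    (hcop : (s : Set ℕ).Pairwise Nat.Coprime) {f : ℕ → ℕ → ℝ}
    (hf : ∀ p ∈ s, ∀ x, f p (x + p) = f p x) :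
    ∑ x ∈ range (∏ p ∈ s, p), ∏ p ∈ s, f p x = ∏ p ∈ s, ∑ x ∈ range p, f p x := by
  induction s using Finset.induction_on with
  | empty => simp
  | insert q s hq ih =>
    have hcop' : (s : Set ℕ).Pairwise Nat.Coprime :=
      hcop.mono (by simp)
    have ih' := ih (fun p hp => hpos p (Finset.mem_insert_of_mem hp)) hcop'
      (fun p hp => hf p (Finset.mem_insert_of_mem hp))
    rw [Finset.prod_insert hq, Finset.prod_insert hq, ← ih']
    have hc : Nat.Coprime q (∏ p ∈ s, p) := by
      apply Nat.Coprime.prod_right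
      intro p hp
      apply hcop
      · simp
      · simp [hp]
      · rintro rfl
        exact hq hp
    rw [← sum_range_mul_coprime hc (hpos q (Finset.mem_insert_self q s))
      (Finset.prod_pos (fun p hp => hpos p (Finset.mem_insert_of_mem hp)))
      (hf q (Finset.mem_insert_self q s))
      (fun x => periodic_prod (fun p hp => hf p (Finset.mem_insert_of_mem hp)) x)]
    apply Finset.sum_congr rfl
    intro x _
    rw [Finset.prod_insert hq]

/-! ### Expansion lemmas -/

theorem odd_prod {s : Finset ℕ} (h : ∀ p ∈ s, Odd p) : Odd (∏ p ∈ s, p) := by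
  induction s using Finset.induction_on with
  | empty => simp
  | insert q s hq ih =>
    rw [Finset.prod_insert hq]
    exact (h q (Finset.mem_insert_self q s)).mul
      (ih (fun p hp => h p (Finset.mem_insert_of_mem hp)))

theorem expansion_alt {s : Finset ℕ} (hodd : ∀ p ∈ s, Odd p)
    (hcop : (s : Set ℕ).Pairwise Nat.Coprime) {α : ℕ → ℝ} {b : ℕ → ℕ → ℝ}
    (hα : ∀ p ∈ s, 0 ≤ α p) (hb0 : ∀ p ∈ s, ∀ x, 0 ≤ b p x)
    (hb : ∀ p ∈ s, ∀ x, b p (x + p) = b p x) (a h : ℕ) :
    |∑ i ∈ range h, (-1 : ℝ) ^ i * ∏ p ∈ s, (b p (a + i) + α p)|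
      ≤ ∏ p ∈ s, ((∑ x ∈ range p, b p x) + α p) := by
  have h1 : ∀ i, ∏ p ∈ s, (b p (a + i) + α p)
      = ∑ t ∈ s.powerset, (∏ p ∈ t, b p (a + i)) * ∏ p ∈ s \ t, α p := fun i =>
    Finset.prod_add _ _ _
  have h2 : ∑ i ∈ range h, (-1 : ℝ) ^ i * ∏ p ∈ s, (b p (a + i) + α p)
      = ∑ t ∈ s.powerset, (∏ p ∈ s \ t, α p) *
          ∑ i ∈ range h, (-1 : ℝ) ^ i * ∏ p ∈ t, b p (a + i) := by
    simp_rw [h1, Finset.mul_sum]
    rw [Finset.sum_comm]
    apply Finset.sum_congr rfl
    intro t _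
    apply Finset.sum_congr rfl
    intro i _
    ring
  rw [h2, Finset.prod_add]
  refine (Finset.abs_sum_le_sum_abs _ _).trans ?_
  apply Finset.sum_le_sum
  intro t ht
  rw [Finset.mem_powerset] at ht
  have h3 : 0 ≤ ∏ p ∈ s \ t, α p :=
    Finset.prod_nonneg (fun p hp => hα p (Finset.mem_sdiff.1 hp).1)
  rw [abs_mul, abs_of_nonneg h3, mul_comm]
  apply mul_le_mul_of_nonneg_right _ h3
  have h4 := abs_alt_sum_le (odd_prod (fun p hp => hodd p (ht hp)))
    (f := fun x => ∏ p ∈ t, b p x) (fun x => periodic_prod (fun p hp => hb p (ht hp)) x)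
    (fun x => Finset.prod_nonneg (fun p hp => hb0 p (ht hp) x)) a h
  rw [sum_range_prod_coprime (fun p hp => (hodd p (ht hp)).pos) (hcop.mono (by exact_mod_cast ht))
    (fun p hp => hb p (ht hp))] at h4
  exact h4

theorem expansion_sum {s : Finset ℕ} (hpos : ∀ p ∈ s, 0 < p)
    (hcop : (s : Set ℕ).Pairwise Nat.Coprime) {α : ℕ → ℝ} {b : ℕ → ℕ → ℝ}
    (hα : ∀ p ∈ s, 0 ≤ α p) (hb0 : ∀ p ∈ s, ∀ x, 0 ≤ b p x)
    (hb : ∀ p ∈ s, ∀ x, b p (x + p) = b p x) (a h : ℕ) :
    |∑ i ∈ range h, ∏ p ∈ s, (b p (a + i) + α p)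
        - h * ∏ p ∈ s, ((∑ x ∈ range p, b p x) / p + α p)|
      ≤ ∏ p ∈ s, ((∑ x ∈ range p, b p x) + α p) := by
  have h1 : ∀ i, ∏ p ∈ s, (b p (a + i) + α p)
      = ∑ t ∈ s.powerset, (∏ p ∈ t, b p (a + i)) * ∏ p ∈ s \ t, α p := fun i =>
    Finset.prod_add _ _ _
  have h2 : ∑ i ∈ range h, ∏ p ∈ s, (b p (a + i) + α p)
        - h * ∏ p ∈ s, ((∑ x ∈ range p, b p x) / p + α p)
      = ∑ t ∈ s.powerset, (∏ p ∈ s \ t, α p) *
          (∑ i ∈ range h, ∏ p ∈ t, b p (a + i) - h * ∏ p ∈ t, ((∑ x ∈ range p, b p x) / p)) := by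
    simp_rw [h1]
    rw [Finset.prod_add, Finset.mul_sum, Finset.sum_comm, ← Finset.sum_sub_distrib]
    apply Finset.sum_congr rfl
    intro t _
    rw [mul_sub, Finset.mul_sum]
    congr 1
    · apply Finset.sum_congr rfl
      intro i _
      ring
    · ring
  rw [h2, Finset.prod_add]
  refine (Finset.abs_sum_le_sum_abs _ _).trans ?_
  apply Finset.sum_le_sum
  intro t ht
  rw [Finset.mem_powerset] at ht
  have h3 : 0 ≤ ∏ p ∈ s \ t, α p :=
    Finset.prod_nonneg (fun p hp => hα p (Finset.mem_sdiff.1 hp).1)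
  rw [abs_mul, abs_of_nonneg h3, mul_comm]
  apply mul_le_mul_of_nonneg_right _ h3
  have h4 := abs_sum_sub_le (Finset.prod_pos (fun p hp => hpos p (ht hp)))
    (f := fun x => ∏ p ∈ t, b p x) (fun x => periodic_prod (fun p hp => hb p (ht hp)) x)
    (fun x => Finset.prod_nonneg (fun p hp => hb0 p (ht hp) x)) a h
  rw [sum_range_prod_coprime (fun p hp => hpos p (ht hp)) (hcop.mono (by exact_mod_cast ht))
    (fun p hp => hb p (ht hp))] at h4
  rw [Finset.prod_div_distrib]
  push_cast at h4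
  exact h4

end Pool.Agent.Helper90.Twin
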