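import Pool.Agent.Helper90.TwinA

set_option autoImplicit false

open Finset

namespace Pool.Agent.Helper90.Twin

/-- A sieve system: a finite set of odd pairwise coprime moduli `≥ 5`, and for each modulus a
`{0,1}`-valued periodic function with exactly two forbidden residues. -/
structure SieveSys (s : Finset ℕ) (y : ℕ → ℕ → ℝ) : Prop where
  odd : ∀ p ∈ s, Odd p
  five : ∀ p ∈ s, 5 ≤ p
  cop : (s : Set ℕ).Pairwise Nat.Coprime
  zero_one : ∀ p ∈ s, ∀ x, y p x = 0 ∨ y p x = 1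
  per : ∀ p ∈ s, ∀ x, y p (x + p) = y p x
  two : ∀ p ∈ s, ∑ x ∈ range p, y p x = 2

/-- indicator of the sifted set -/
noncomputable def XX (s : Finset ℕ) (y : ℕ → ℕ → ℝ) (k : ℕ) : ℝ := ∏ p ∈ s, (1 - y p k)

/-- density -/
noncomputable def GG (s : Finset ℕ) : ℝ := ∏ p ∈ s, (1 - 2 / (p : ℝ))

variable {s : Finset ℕ} {y : ℕ → ℕ → ℝ}

theorem SieveSys.y_nonneg (hs : SieveSys s y) {p : ℕ} (hp : p ∈ s) (x : ℕ) : 0 ≤ y p x := by
  rcases hs.zero_one p hp x with h | h <;> rw [h] <;> norm_num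

theorem SieveSys.XX_zero_one (hs : SieveSys s y) (k : ℕ) : XX s y k = 0 ∨ XX s y k = 1 := by
  unfold XX
  by_cases h : ∃ p ∈ s, y p k = 1
  · obtain ⟨p, hp, h1⟩ := h
    left
    exact Finset.prod_eq_zero hp (by rw [h1]; ring)
  · right
    apply Finset.prod_eq_one
    intro p hp
    rcases hs.zero_one p hp k with h1 | h1
    · rw [h1]; ring
    · exact absurd ⟨p, hp, h1⟩ h

theorem SieveSys.XX_nonneg (hs : SieveSys s y) (k : ℕ) : 0 ≤ XX s y k := by
  rcases hs.XX_zero_one k with h | h <;> rw [h] <;> norm_num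

theorem SieveSys.XX_le_one (hs : SieveSys s y) (k : ℕ) : XX s y k ≤ 1 := by
  rcases hs.XX_zero_one k with h | h <;> rw [h] <;> norm_num

theorem SieveSys.XX_sq (hs : SieveSys s y) (k : ℕ) : XX s y k ^ 2 = XX s y k := by
  rcases hs.XX_zero_one k with h | h <;> rw [h] <;> norm_num

theorem SieveSys.pos (hs : SieveSys s y) {p : ℕ} (hp : p ∈ s) : 0 < p := by
  have := hs.five p hp
  omega

theorem SieveSys.Q_pos (hs : SieveSys s y) : (0 : ℝ) < ((∏ p ∈ s, p : ℕ) : ℝ) := by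
  exact_mod_cast Finset.prod_pos (fun p hp => hs.pos hp)

theorem SieveSys.shift_sum (hs : SieveSys s y) {p : ℕ} (hp : p ∈ s) (a : ℕ) :
    ∑ x ∈ range p, y p (x + a) = 2 := by
  rw [← hs.two p hp, ← sum_range_shift_periodic (hs.per p hp) a]
  apply Finset.sum_congr rfl
  intro i _
  rw [add_comm]

/-- average over a full period of a product of shifts -/
theorem SieveSys.avg_prod (hs : SieveSys s y) (I : Finset ℕ) :
    (∑ u ∈ range (∏ p ∈ s, p), ∏ i ∈ I, XX s y (u + i)) / ((∏ p ∈ s, p : ℕ) : ℝ)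
      = ∏ p ∈ s, ((∑ t ∈ range p, ∏ i ∈ I, (1 - y p (t + i))) / (p : ℝ)) := by
  have h1 : ∀ u, ∏ i ∈ I, XX s y (u + i) = ∏ p ∈ s, ∏ i ∈ I, (1 - y p (u + i)) := by
    intro u
    unfold XX
    rw [Finset.prod_comm]
  simp_rw [h1]
  rw [sum_range_prod_coprime (fun p hp => hs.pos hp) hs.cop
    (f := fun p u => ∏ i ∈ I, (1 - y p (u + i)))]
  · rw [Finset.prod_div_distrib]
    push_cast
    rfl
  · intro p hp x
    apply Finset.prod_congr rfl
    intro i _
    have h2 : x + p + i = x + i + p := by ring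
    rw [h2, hs.per p hp]

theorem SieveSys.avg_one (hs : SieveSys s y) (a : ℕ) :
    (∑ u ∈ range (∏ p ∈ s, p), XX s y (u + a)) / ((∏ p ∈ s, p : ℕ) : ℝ) = GG s := by
  have h := hs.avg_prod {a}
  simp only [Finset.prod_singleton] at h
  rw [h]
  unfold GG
  apply Finset.prod_congr rfl
  intro p hp
  rw [Finset.sum_sub_distrib, hs.shift_sum hp]
  have : (p : ℝ) ≠ 0 := by exact_mod_cast (hs.pos hp).ne'
  simp
  field_simp

theorem SieveSys.avg_pair (hs : SieveSys s y) (a b : ℕ) :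
    (∑ u ∈ range (∏ p ∈ s, p), XX s y (u + a) * XX s y (u + b)) / ((∏ p ∈ s, p : ℕ) : ℝ)
      = ∏ p ∈ s, ((∑ t ∈ range p, y p (t + a) * y p (t + b)) / (p : ℝ) + (1 - 4 / (p : ℝ))) := by
  have h1 : ∀ u, XX s y (u + a) * XX s y (u + b)
      = ∏ p ∈ s, ((1 - y p (u + a)) * (1 - y p (u + b))) := by
    intro u
    unfold XX
    rw [Finset.prod_mul_distrib]
  simp_rw [h1]
  rw [sum_range_prod_coprime (fun p hp => hs.pos hp) hs.cop
    (f := fun p u => (1 - y p (u + a)) * (1 - y p (u + b)))]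
  · push_cast
    rw [← Finset.prod_div_distrib]
    apply Finset.prod_congr rfl
    intro p hp
    have h2 : ∑ x ∈ range p, (1 - y p (x + a)) * (1 - y p (x + b))
        = (p : ℝ) - 2 - 2 + ∑ t ∈ range p, y p (t + a) * y p (t + b) := by
      have h3 : ∀ x, (1 - y p (x + a)) * (1 - y p (x + b))
          = 1 - y p (x + a) - y p (x + b) + y p (x + a) * y p (x + b) := by
        intro x
        ring
      simp_rw [h3]
      rw [Finset.sum_add_distrib, Finset.sum_sub_distrib, Finset.sum_sub_distrib,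
        hs.shift_sum hp, hs.shift_sum hp]
      simp
    rw [h2]
    have : (p : ℝ) ≠ 0 := by exact_mod_cast (hs.pos hp).ne'
    field_simp
    ring
  · intro p hp x
    have h2 : ∀ i, x + p + i = x + i + p := by intro i; ring
    rw [h2, h2, hs.per p hp, hs.per p hp]

/-- pair correlation as a sum `b + α` -/
theorem SieveSys.pair_b_sum (hs : SieveSys s y) {p : ℕ} (hp : p ∈ s) (a : ℕ) :
    ∑ n ∈ range p, (∑ t ∈ range p, y p (t + a) * y p (t + n)) / (p : ℝ) = 4 / (p : ℝ) := by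
  rw [← Finset.sum_div, Finset.sum_comm]
  have h1 : ∀ t ∈ range p, ∑ n ∈ range p, y p (t + a) * y p (t + n) = 2 * y p (t + a) := by
    intro t _
    rw [← Finset.mul_sum, sum_range_shift_periodic (hs.per p hp), hs.two p hp]
    ring
  rw [Finset.sum_congr rfl h1, ← Finset.mul_sum, hs.shift_sum hp]
  norm_num

theorem four_div_le {p : ℕ} (hp : 5 ≤ p) : 0 ≤ 1 - 4 / (p : ℝ) := by
  have h : (5 : ℝ) ≤ p := by exact_mod_cast hp
  rw [sub_nonneg, div_le_one (by linarith)]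
  linarith

theorem SieveSys.alt_pair (hs : SieveSys s y) (c a h : ℕ) :
    |∑ j ∈ range h, (-1 : ℝ) ^ j *
      ((∑ u ∈ range (∏ p ∈ s, p), XX s y (u + c) * XX s y (u + (a + j))) /
        ((∏ p ∈ s, p : ℕ) : ℝ))| ≤ 1 := by
  simp_rw [hs.avg_pair]
  refine (expansion_alt hs.odd hs.cop (α := fun p => 1 - 4 / (p : ℝ))
    (b := fun p n => (∑ t ∈ range p, y p (t + c) * y p (t + n)) / (p : ℝ))
    (fun p hp => four_div_le (hs.five p hp)) ?_ ?_ a h).trans ?_
  · intro p hp x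
    exact div_nonneg (Finset.sum_nonneg (fun t _ => mul_nonneg (hs.y_nonneg hp _)
      (hs.y_nonneg hp _))) (Nat.cast_nonneg _)
  · intro p hp x
    congr 1
    apply Finset.sum_congr rfl
    intro t _
    rw [← add_assoc, hs.per p hp]
  · apply le_of_eq
    apply Finset.prod_eq_one
    intro p hp
    rw [hs.pair_b_sum hp]
    ring

theorem SieveSys.sum_pair (hs : SieveSys s y) (c a h : ℕ) :
    |∑ j ∈ range h,
      ((∑ u ∈ range (∏ p ∈ s, p), XX s y (u + c) * XX s y (u + (a + j))) /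
        ((∏ p ∈ s, p : ℕ) : ℝ)) - h * GG s ^ 2| ≤ 1 := by
  simp_rw [hs.avg_pair]
  have h0 : GG s ^ 2 = ∏ p ∈ s, ((∑ x ∈ range p,
      (∑ t ∈ range p, y p (t + c) * y p (t + x)) / (p : ℝ)) / (p : ℝ) + (1 - 4 / (p : ℝ))) := by
    unfold GG
    rw [← Finset.prod_pow]
    apply Finset.prod_congr rfl
    intro p hp
    rw [hs.pair_b_sum hp]
    have : (p : ℝ) ≠ 0 := by exact_mod_cast (hs.pos hp).ne'
    field_simp
    ring
  rw [h0]
  refine (expansion_sum (fun p hp => hs.pos hp) hs.cop (α := fun p => 1 - 4 / (p : ℝ))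
    (b := fun p n => (∑ t ∈ range p, y p (t + c) * y p (t + n)) / (p : ℝ))
    (fun p hp => four_div_le (hs.five p hp)) ?_ ?_ a h).trans ?_
  · intro p hp x
    exact div_nonneg (Finset.sum_nonneg (fun t _ => mul_nonneg (hs.y_nonneg hp _)
      (hs.y_nonneg hp _))) (Nat.cast_nonneg _)
  · intro p hp x
    congr 1
    apply Finset.sum_congr rfl
    intro t _
    rw [← add_assoc, hs.per p hp]
  · apply le_of_eq
    apply Finset.prod_eq_one
    intro p hp
    rw [hs.pair_b_sum hp]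
    ring

/-- second moment of alternating sums in short intervals -/
theorem SieveSys.second_moment_alt (hs : SieveSys s y) (a h : ℕ) :
    (∑ u ∈ range (∏ p ∈ s, p), (∑ i ∈ range h, (-1 : ℝ) ^ i * XX s y (u + (a + i))) ^ 2) /
      ((∏ p ∈ s, p : ℕ) : ℝ) ≤ h := by
  have h1 : (∑ u ∈ range (∏ p ∈ s, p), (∑ i ∈ range h, (-1 : ℝ) ^ i * XX s y (u + (a + i))) ^ 2) /
      ((∏ p ∈ s, p : ℕ) : ℝ)
      = ∑ i ∈ range h, (-1 : ℝ) ^ i * ∑ j ∈ range h, (-1 : ℝ) ^ j *
        ((∑ u ∈ range (∏ p ∈ s, p), XX s y (u + (a + i)) * XX s y (u + (a + j))) /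
        ((∏ p ∈ s, p : ℕ) : ℝ)) := by
    simp_rw [sq, Finset.sum_mul_sum]
    rw [Finset.sum_comm, Finset.sum_div]
    apply Finset.sum_congr rfl
    intro i _
    rw [Finset.sum_comm, Finset.sum_div, Finset.mul_sum]
    apply Finset.sum_congr rfl
    intro j _
    rw [Finset.sum_div, Finset.sum_div, Finset.mul_sum, Finset.mul_sum]
    apply Finset.sum_congr rfl
    intro u _
    ring
  rw [h1]
  calc ∑ i ∈ range h, (-1 : ℝ) ^ i * ∑ j ∈ range h, (-1 : ℝ) ^ j *
        ((∑ u ∈ range (∏ p ∈ s, p), XX s y (u + (a + i)) * XX s y (u + (a + j))) /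
        ((∏ p ∈ s, p : ℕ) : ℝ))
      ≤ ∑ i ∈ range h, |(-1 : ℝ) ^ i * ∑ j ∈ range h, (-1 : ℝ) ^ j *
        ((∑ u ∈ range (∏ p ∈ s, p), XX s y (u + (a + i)) * XX s y (u + (a + j))) /
        ((∏ p ∈ s, p : ℕ) : ℝ))| := Finset.sum_le_sum (fun _ _ => le_abs_self _)
    _ ≤ ∑ i ∈ range h, (1 : ℝ) := by
      apply Finset.sum_le_sum
      intro i _
      rw [abs_mul, abs_pow, abs_neg, abs_one, one_pow, one_mul]
      exact hs.alt_pair _ _ _
    _ = h := by simp

/-- second moment of the counting function in short intervals -/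
theorem SieveSys.second_moment_count (hs : SieveSys s y) (a h : ℕ) :
    (∑ u ∈ range (∏ p ∈ s, p), (∑ i ∈ range h, XX s y (u + (a + i)) - h * GG s) ^ 2) /
      ((∏ p ∈ s, p : ℕ) : ℝ) ≤ h := by
  have hQ := hs.Q_pos
  set Q : ℝ := ((∏ p ∈ s, p : ℕ) : ℝ) with hQdef
  have h1 : (∑ u ∈ range (∏ p ∈ s, p), (∑ i ∈ range h, XX s y (u + (a + i)) - h * GG s) ^ 2) / Q
      = ∑ i ∈ range h, (∑ j ∈ range h,
        ((∑ u ∈ range (∏ p ∈ s, p), XX s y (u + (a + i)) * XX s y (u + (a + j))) / Q)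
          - h * GG s ^ 2) := by
    have e1 : ∀ u, (∑ i ∈ range h, XX s y (u + (a + i)) - h * GG s) ^ 2
        = ∑ i ∈ range h, ∑ j ∈ range h, XX s y (u + (a + i)) * XX s y (u + (a + j))
          - 2 * (h * GG s) * ∑ i ∈ range h, XX s y (u + (a + i)) + (h * GG s) ^ 2 := by
      intro u
      rw [← Finset.sum_mul_sum]
      ring
    simp_rw [e1]
    rw [Finset.sum_add_distrib, Finset.sum_sub_distrib, ← Finset.mul_sum, add_div, sub_div]
    have e2 : (∑ u ∈ range (∏ p ∈ s, p), ∑ i ∈ range h, ∑ j ∈ range h,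
        XX s y (u + (a + i)) * XX s y (u + (a + j))) / Q
        = ∑ i ∈ range h, ∑ j ∈ range h,
        ((∑ u ∈ range (∏ p ∈ s, p), XX s y (u + (a + i)) * XX s y (u + (a + j))) / Q) := by
      rw [Finset.sum_comm, Finset.sum_div]
      apply Finset.sum_congr rfl
      intro i _
      rw [Finset.sum_comm, Finset.sum_div]
    have e3 : (2 * (h * GG s) * ∑ u ∈ range (∏ p ∈ s, p), ∑ i ∈ range h,
        XX s y (u + (a + i))) / Q = 2 * (h * GG s) * (h * GG s) := by
      rw [mul_div_assoc]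
      congr 1
      rw [Finset.sum_comm, Finset.sum_div]
      have : ∀ i ∈ range h, (∑ u ∈ range (∏ p ∈ s, p), XX s y (u + (a + i))) / Q = GG s :=
        fun i _ => hs.avg_one (a + i)
      rw [Finset.sum_congr rfl this]
      simp
    have e4 : (∑ u ∈ range (∏ p ∈ s, p), (h * GG s) ^ 2) / Q = (h * GG s) ^ 2 := by
      rw [Finset.sum_const, Finset.card_range, nsmul_eq_mul, ← hQdef]
      field_simp
    rw [e2, e3, e4, Finset.sum_sub_distrib, Finset.sum_const, Finset.card_range, nsmul_eq_mul]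
    ring
  rw [h1]
  calc ∑ i ∈ range h, (∑ j ∈ range h,
        ((∑ u ∈ range (∏ p ∈ s, p), XX s y (u + (a + i)) * XX s y (u + (a + j))) / Q)
          - h * GG s ^ 2)
      ≤ ∑ i ∈ range h, |∑ j ∈ range h,
        ((∑ u ∈ range (∏ p ∈ s, p), XX s y (u + (a + i)) * XX s y (u + (a + j))) / Q)
          - h * GG s ^ 2| := Finset.sum_le_sum (fun _ _ => le_abs_self _)
    _ ≤ ∑ i ∈ range h, (1 : ℝ) := Finset.sum_le_sum (fun i _ => hs.sum_pair _ _ _)
    _ = h := by simp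

end Pool.Agent.Helper90.Twin
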