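import Pool.Agent.Helper90.TwinB

set_option autoImplicit false

open Finset

namespace Pool.Agent.Helper90.Twin

/-! ### Bonferroni inequalities -/

/-- elementary symmetric sums -/
noncomputable def EE (s : Finset ℕ) (a : ℕ → ℝ) (j : ℕ) : ℝ :=
  ∑ t ∈ s.powersetCard j, ∏ p ∈ t, a p

theorem EE_zero (s : Finset ℕ) (a : ℕ → ℝ) : EE s a 0 = 1 := by simp [EE]

theorem EE_insert {s : Finset ℕ} {q : ℕ} (hq : q ∉ s) (a : ℕ → ℝ) (j : ℕ) :
    EE (insert q s) a (j + 1) = EE s a (j + 1) + a q * EE s a j := by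
  unfold EE
  rw [Finset.powersetCard_succ_insert hq, Finset.sum_union]
  · congr 1
    rw [Finset.sum_image, Finset.mul_sum]
    · apply Finset.sum_congr rfl
      intro t ht
      rw [Finset.prod_insert]
      intro hqt
      exact hq ((Finset.mem_powersetCard.1 ht).1 hqt)
    · intro t ht t' ht' h
      have h1 : q ∉ t := fun hqt => hq ((Finset.mem_powersetCard.1 ht).1 hqt)
      have h2 : q ∉ t' := fun hqt => hq ((Finset.mem_powersetCard.1 ht').1 hqt)
      have h3 : (insert q t).erase q = (insert q t').erase q := by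
        have := congrArg (fun u => Finset.erase u q) h
        simpa using this
      rwa [Finset.erase_insert h1, Finset.erase_insert h2] at h3
  · rw [Finset.disjoint_left]
    intro t ht ht'
    rw [Finset.mem_image] at ht'
    obtain ⟨t'', _, rfl⟩ := ht'
    exact hq ((Finset.mem_powersetCard.1 ht).1 (Finset.mem_insert_self _ _))

theorem EE_nonneg {s : Finset ℕ} {a : ℕ → ℝ} (ha : ∀ p ∈ s, 0 ≤ a p) (j : ℕ) : 0 ≤ EE s a j := by
  apply Finset.sum_nonneg
  intro t ht
  apply Finset.prod_nonneg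
  intro p hp
  exact ha p ((Finset.mem_powersetCard.1 ht).1 hp)

/-- truncated alternating sums -/
noncomputable def TT (s : Finset ℕ) (a : ℕ → ℝ) (m : ℕ) : ℝ :=
  ∑ j ∈ range m, (-1 : ℝ) ^ j * EE s a j

theorem TT_insert {s : Finset ℕ} {q : ℕ} (hq : q ∉ s) (a : ℕ → ℝ) (m : ℕ) :
    TT (insert q s) a (m + 1) = TT s a (m + 1) - a q * TT s a m := by
  unfold TT
  rw [Finset.sum_range_succ', Finset.sum_range_succ' _ m]
  simp only [EE_insert hq, EE_zero, pow_zero, mul_one]
  rw [Finset.mul_sum]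
  have : ∀ k ∈ range m, (-1 : ℝ) ^ (k + 1) * (EE s a (k + 1) + a q * EE s a k)
      = (-1 : ℝ) ^ (k + 1) * EE s a (k + 1) - a q * ((-1 : ℝ) ^ k * EE s a k) := by
    intro k _
    ring
  rw [Finset.sum_congr rfl this, Finset.sum_sub_distrib]
  ring

theorem bonferroni {s : Finset ℕ} {a : ℕ → ℝ} (ha0 : ∀ p ∈ s, 0 ≤ a p) (ha1 : ∀ p ∈ s, a p ≤ 1) :
    ∀ m, 0 ≤ (-1 : ℝ) ^ m * (∏ p ∈ s, (1 - a p) - TT s a m) ∧
      (-1 : ℝ) ^ m * (∏ p ∈ s, (1 - a p) - TT s a m) ≤ EE s a m := by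
  induction s using Finset.induction_on with
  | empty =>
    intro m
    have hE : ∀ j, EE ∅ a (j + 1) = 0 := by
      intro j
      unfold EE
      rw [Finset.powersetCard_eq_empty.2 (by simp), Finset.sum_empty]
    have hT : ∀ m, TT ∅ a (m + 1) = 1 := by
      intro m
      unfold TT
      rw [Finset.sum_range_succ']
      simp [hE, EE_zero]
    cases m with
    | zero => simp [TT, EE_zero]
    | succ m => simp [hT, hE]
  | insert q s hq ih =>
    have ha0' : ∀ p ∈ s, 0 ≤ a p := fun p hp => ha0 p (Finset.mem_insert_of_mem hp)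
    have ha1' : ∀ p ∈ s, a p ≤ 1 := fun p hp => ha1 p (Finset.mem_insert_of_mem hp)
    have ih' := ih ha0' ha1'
    have hq0 := ha0 q (Finset.mem_insert_self q s)
    have hq1 := ha1 q (Finset.mem_insert_self q s)
    intro m
    rw [Finset.prod_insert hq]
    cases m with
    | zero =>
      have h := ih' 0
      simp only [pow_zero, one_mul, TT, Finset.range_zero, Finset.sum_empty, sub_zero, EE_zero] at h ⊢
      constructor
      · exact mul_nonneg (by linarith) h.1
      · calc (1 - a q) * ∏ p ∈ s, (1 - a p) ≤ 1 * 1 :=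
            mul_le_mul (by linarith) h.2 h.1 (by norm_num)
          _ = 1 := by norm_num
    | succ m =>
      rw [TT_insert hq, EE_insert hq]
      have h1 := ih' (m + 1)
      have h2 := ih' m
      have h3 : (-1 : ℝ) ^ (m + 1) * ((1 - a q) * ∏ p ∈ s, (1 - a p) -
          (TT s a (m + 1) - a q * TT s a m))
          = (-1 : ℝ) ^ (m + 1) * (∏ p ∈ s, (1 - a p) - TT s a (m + 1))
            + a q * ((-1 : ℝ) ^ m * (∏ p ∈ s, (1 - a p) - TT s a m)) := by
        ring
      rw [h3]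
      constructor
      · exact add_nonneg h1.1 (mul_nonneg hq0 h2.1)
      · exact add_le_add h1.2 (mul_le_mul_of_nonneg_left h2.2 hq0)

theorem bonferroni_abs {s : Finset ℕ} {a : ℕ → ℝ} (ha0 : ∀ p ∈ s, 0 ≤ a p)
    (ha1 : ∀ p ∈ s, a p ≤ 1) (m : ℕ) :
    |∏ p ∈ s, (1 - a p) - TT s a m| ≤ EE s a m := by
  have h := bonferroni ha0 ha1 m
  have h1 : |∏ p ∈ s, (1 - a p) - TT s a m|
      = |(-1 : ℝ) ^ m * (∏ p ∈ s, (1 - a p) - TT s a m)| := by
    rw [abs_mul, abs_pow, abs_neg, abs_one, one_pow, one_mul]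
  rw [h1, abs_of_nonneg h.1]
  exact h.2

/-- `e_m ≤ (∑ a)^m / m!` -/
theorem EE_le {s : Finset ℕ} {a : ℕ → ℝ} (ha0 : ∀ p ∈ s, 0 ≤ a p) :
    ∀ m, EE s a m ≤ (∑ p ∈ s, a p) ^ m / (m.factorial : ℝ) := by
  induction s using Finset.induction_on with
  | empty =>
    intro m
    cases m with
    | zero => simp [EE_zero]
    | succ m =>
      unfold EE
      rw [Finset.powersetCard_eq_empty.2 (by simp), Finset.sum_empty]
      simp
  | insert q s hq ih =>
    have ha0' : ∀ p ∈ s, 0 ≤ a p := fun p hp => ha0 p (Finset.mem_insert_of_mem hp)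
    have ih' := ih ha0'
    have hq0 := ha0 q (Finset.mem_insert_self q s)
    have hS : 0 ≤ ∑ p ∈ s, a p := Finset.sum_nonneg ha0'
    intro m
    cases m with
    | zero => simp [EE_zero]
    | succ m =>
      rw [EE_insert hq, Finset.sum_insert hq]
      have h1 := ih' (m + 1)
      have h2 := mul_le_mul_of_nonneg_left (ih' m) hq0
      have hf : (0 : ℝ) < (m.factorial : ℝ) := by exact_mod_cast m.factorial_pos
      have hm : (0 : ℝ) < (m : ℝ) + 1 := by positivity
      have hpow : (∑ p ∈ s, a p) ^ (m + 1) + (m + 1) * (a q * (∑ p ∈ s, a p) ^ m)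
          ≤ (a q + ∑ p ∈ s, a p) ^ (m + 1) := by
        have key : ∀ (n : ℕ) (u v : ℝ), 0 ≤ u → 0 ≤ v →
            u ^ (n + 1) + (n + 1) * (v * u ^ n) ≤ (v + u) ^ (n + 1) := by
          intro n u v hu hv
          induction n with
          | zero => simp; linarith
          | succ n ihn =>
            have h3 := mul_le_mul_of_nonneg_right ihn (add_nonneg hv hu)
            have h4 : 0 ≤ (n + 1) * (v * u ^ n) * v := by positivity
            calc u ^ (n + 1 + 1) + ((n + 1 : ℕ) + 1) * (v * u ^ (n + 1))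
                ≤ (u ^ (n + 1) + (n + 1) * (v * u ^ n)) * (v + u) := by
                  push_cast
                  ring_nf
                  ring_nf at h4
                  linarith
              _ ≤ (v + u) ^ (n + 1) * (v + u) := h3
              _ = _ := by ring
        exact key m _ _ hS hq0
      rw [Nat.factorial_succ]
      push_cast
      rw [Nat.factorial_succ] at h1
      push_cast at h1
      calc EE s a (m + 1) + a q * EE s a m
          ≤ (∑ p ∈ s, a p) ^ (m + 1) / ((m + 1) * (m.factorial : ℝ))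
            + a q * ((∑ p ∈ s, a p) ^ m / (m.factorial : ℝ)) := add_le_add h1 h2
        _ = ((∑ p ∈ s, a p) ^ (m + 1) + (m + 1) * (a q * (∑ p ∈ s, a p) ^ m))
            / ((m + 1) * (m.factorial : ℝ)) := by
            field_simp
        _ ≤ _ := by
            apply div_le_div_of_nonneg_right hpow
            positivity

/-- crude bound for the number of terms -/
theorem sum_EE_le {s : Finset ℕ} {ν : ℕ → ℝ} {κ : ℝ} (hκ : 0 ≤ κ) (hν0 : ∀ p ∈ s, 0 ≤ ν p)
    (hν : ∀ p ∈ s, ν p ≤ κ) (m : ℕ) :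
    ∑ j ∈ range (m + 1), EE s ν j ≤ (1 + κ * s.card) ^ m := by
  have h1 : ∀ j ∈ range (m + 1), EE s ν j ≤ (κ * s.card) ^ j * (m.choose j : ℝ) := by
    intro j hj
    rw [mem_range] at hj
    have h2 : EE s ν j ≤ (s.card.choose j : ℝ) * κ ^ j := by
      unfold EE
      calc ∑ t ∈ s.powersetCard j, ∏ p ∈ t, ν p ≤ ∑ t ∈ s.powersetCard j, κ ^ j := by
            apply Finset.sum_le_sum
            intro t ht
            rw [Finset.mem_powersetCard] at ht
            calc ∏ p ∈ t, ν p ≤ ∏ p ∈ t, κ :=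
                  Finset.prod_le_prod (fun p hp => hν0 p (ht.1 hp)) (fun p hp => hν p (ht.1 hp))
              _ = κ ^ j := by rw [Finset.prod_const, ht.2]
        _ = _ := by rw [Finset.sum_const, Finset.card_powersetCard, nsmul_eq_mul]
    have h3 : (s.card.choose j : ℝ) ≤ (s.card : ℝ) ^ j := by
      exact_mod_cast Nat.choose_le_pow _ _
    have h4 : (1 : ℝ) ≤ (m.choose j : ℝ) := by
      exact_mod_cast Nat.choose_pos (by omega)
    calc EE s ν j ≤ (s.card.choose j : ℝ) * κ ^ j := h2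
      _ ≤ (s.card : ℝ) ^ j * κ ^ j := mul_le_mul_of_nonneg_right h3 (by positivity)
      _ = (κ * s.card) ^ j * 1 := by rw [mul_pow]; ring
      _ ≤ _ := mul_le_mul_of_nonneg_left h4 (by positivity)
  refine (Finset.sum_le_sum h1).trans ?_
  rw [add_comm 1 (κ * (s.card : ℝ)), add_pow]
  simp

/-! ### Brun's pure sieve -/

theorem brun {s : Finset ℕ} (hpos : ∀ p ∈ s, 0 < p) (hcop : (s : Set ℕ).Pairwise Nat.Coprime)
    {w : ℕ → ℕ → ℝ} (hw0 : ∀ p ∈ s, ∀ x, 0 ≤ w p x) (hw1 : ∀ p ∈ s, ∀ x, w p x ≤ 1)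
    (hw : ∀ p ∈ s, ∀ x, w p (x + p) = w p x) {κ : ℝ} (hκ : 0 ≤ κ)
    (hν : ∀ p ∈ s, ∑ x ∈ range p, w p x ≤ κ) (m N : ℕ) :
    |∑ t ∈ range N, ∏ p ∈ s, (1 - w p t)
        - N * ∏ p ∈ s, (1 - (∑ x ∈ range p, w p x) / (p : ℝ))|
      ≤ 2 * N * ((κ * ∑ p ∈ s, 1 / (p : ℝ)) ^ m / (m.factorial : ℝ)) + (1 + κ * s.card) ^ m := by
  set ν : ℕ → ℝ := fun p => ∑ x ∈ range p, w p x with hνdef
  have hν0 : ∀ p ∈ s, 0 ≤ ν p := fun p hp => Finset.sum_nonneg (fun x _ => hw0 p hp x)
  have hp0 : ∀ p ∈ s, (0 : ℝ) < p := fun p hp => by exact_mod_cast hpos p hp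
  have hr0 : ∀ p ∈ s, 0 ≤ ν p / p := fun p hp => div_nonneg (hν0 p hp) (hp0 p hp).le
  have hr1 : ∀ p ∈ s, ν p / p ≤ 1 := by
    intro p hp
    rw [div_le_one (hp0 p hp)]
    calc ν p ≤ ∑ x ∈ range p, (1 : ℝ) := Finset.sum_le_sum (fun x _ => hw1 p hp x)
      _ = p := by simp
  -- error of a single product
  have hsingle : ∀ t : Finset ℕ, t ⊆ s →
      |∑ x ∈ range N, ∏ p ∈ t, w p x - N * ∏ p ∈ t, (ν p / p)| ≤ ∏ p ∈ t, ν p := by
    intro t ht
    have h := abs_sum_sub_le (q := ∏ p ∈ t, p) (Finset.prod_pos (fun p hp => hpos p (ht hp)))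
      (f := fun x => ∏ p ∈ t, w p x) (fun x => periodic_prod (fun p hp => hw p (ht hp)) x)
      (fun x => Finset.prod_nonneg (fun p hp => hw0 p (ht hp) x)) 0 N
    rw [sum_range_prod_coprime (fun p hp => hpos p (ht hp)) (hcop.mono (by exact_mod_cast ht))
      (fun p hp => hw p (ht hp))] at h
    simp only [zero_add] at h
    rw [Finset.prod_div_distrib]
    push_cast at h
    exact h
  have hE : ∀ j, |∑ x ∈ range N, EE s (fun p => w p x) j - N * EE s (fun p => ν p / p) j|
      ≤ EE s ν j := by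
    intro j
    unfold EE
    rw [Finset.sum_comm, Finset.mul_sum, ← Finset.sum_sub_distrib]
    refine (Finset.abs_sum_le_sum_abs _ _).trans ?_
    apply Finset.sum_le_sum
    intro t ht
    exact hsingle t (Finset.mem_powersetCard.1 ht).1
  have hT : |∑ x ∈ range N, TT s (fun p => w p x) m - N * TT s (fun p => ν p / p) m|
      ≤ ∑ j ∈ range m, EE s ν j := by
    unfold TT
    rw [Finset.sum_comm, Finset.mul_sum, ← Finset.sum_sub_distrib]
    refine (Finset.abs_sum_le_sum_abs _ _).trans ?_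
    apply Finset.sum_le_sum
    intro j _
    have h1 : ∑ x ∈ range N, (-1 : ℝ) ^ j * EE s (fun p => w p x) j
        - N * ((-1 : ℝ) ^ j * EE s (fun p => ν p / p) j)
        = (-1 : ℝ) ^ j * (∑ x ∈ range N, EE s (fun p => w p x) j
          - N * EE s (fun p => ν p / p) j) := by
      rw [← Finset.mul_sum]
      ring
    rw [h1, abs_mul, abs_pow, abs_neg, abs_one, one_pow, one_mul]
    exact hE j
  have h1 : |∑ t ∈ range N, ∏ p ∈ s, (1 - w p t) - ∑ x ∈ range N, TT s (fun p => w p x) m|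
      ≤ N * EE s (fun p => ν p / p) m + EE s ν m := by
    rw [← Finset.sum_sub_distrib]
    refine (Finset.abs_sum_le_sum_abs _ _).trans ?_
    refine (Finset.sum_le_sum (fun x _ => bonferroni_abs (fun p hp => hw0 p hp x)
      (fun p hp => hw1 p hp x) m)).trans ?_
    have h2 := (abs_le.1 (hE m)).2
    linarith
  have h2 : |(N : ℝ) * TT s (fun p => ν p / p) m - N * ∏ p ∈ s, (1 - ν p / p)|
      ≤ N * EE s (fun p => ν p / p) m := by
    rw [← mul_sub, abs_mul, Nat.abs_cast, abs_sub_comm]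
    exact mul_le_mul_of_nonneg_left (bonferroni_abs hr0 hr1 m) (Nat.cast_nonneg _)
  have h3 : EE s (fun p => ν p / p) m ≤ (κ * ∑ p ∈ s, 1 / (p : ℝ)) ^ m / (m.factorial : ℝ) := by
    refine (EE_le hr0 m).trans ?_
    apply div_le_div_of_nonneg_right _ (by positivity)
    apply pow_le_pow_left₀ (Finset.sum_nonneg hr0)
    rw [Finset.mul_sum]
    apply Finset.sum_le_sum
    intro p hp
    rw [mul_one_div]
    exact div_le_div_of_nonneg_right (hν p hp) (hp0 p hp).le
  have h4 : EE s ν m + ∑ j ∈ range m, EE s ν j ≤ (1 + κ * s.card) ^ m := by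
    have := sum_EE_le hκ hν0 hν m
    rw [Finset.sum_range_succ] at this
    linarith
  have h5 : |∑ t ∈ range N, ∏ p ∈ s, (1 - w p t) - N * ∏ p ∈ s, (1 - ν p / (p : ℝ))|
      ≤ |∑ t ∈ range N, ∏ p ∈ s, (1 - w p t) - ∑ x ∈ range N, TT s (fun p => w p x) m|
        + |∑ x ∈ range N, TT s (fun p => w p x) m - N * TT s (fun p => ν p / p) m|
        + |(N : ℝ) * TT s (fun p => ν p / p) m - N * ∏ p ∈ s, (1 - ν p / p)| := by
    have e : ∑ t ∈ range N, ∏ p ∈ s, (1 - w p t) - N * ∏ p ∈ s, (1 - ν p / (p : ℝ))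
        = (∑ t ∈ range N, ∏ p ∈ s, (1 - w p t) - ∑ x ∈ range N, TT s (fun p => w p x) m)
        + (∑ x ∈ range N, TT s (fun p => w p x) m - N * TT s (fun p => ν p / p) m)
        + ((N : ℝ) * TT s (fun p => ν p / p) m - N * ∏ p ∈ s, (1 - ν p / p)) := by ring
    rw [e]
    exact (abs_add_le _ _).trans (add_le_add (abs_add_le _ _) le_rfl)
  have h6 : (N : ℝ) * EE s (fun p => ν p / p) m
      ≤ N * ((κ * ∑ p ∈ s, 1 / (p : ℝ)) ^ m / (m.factorial : ℝ)) :=
    mul_le_mul_of_nonneg_left h3 (Nat.cast_nonneg _)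
  linarith

end Pool.Agent.Helper90.Twin
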