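import Pool.Agent.Helper90.TwinC

set_option autoImplicit false

open Finset

namespace Pool.Agent.Helper90.Twin

variable {s s' : Finset ℕ} {y : ℕ → ℕ → ℝ}

theorem SieveSys.mono {t : Finset ℕ} (hs : SieveSys s y) (ht : t ⊆ s) : SieveSys t y where
  odd := fun p hp => hs.odd p (ht hp)
  five := fun p hp => hs.five p (ht hp)
  cop := hs.cop.mono (by exact_mod_cast ht)
  zero_one := fun p hp => hs.zero_one p (ht hp)
  per := fun p hp => hs.per p (ht hp)
  two := fun p hp => hs.two p (ht hp)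

theorem SieveSys.y_le_one (hs : SieveSys s y) {p : ℕ} (hp : p ∈ s) (x : ℕ) : y p x ≤ 1 := by
  rcases hs.zero_one p hp x with h | h <;> rw [h] <;> norm_num

/-- averages over a period of a product of shifts -/
noncomputable def avgI (s : Finset ℕ) (y : ℕ → ℕ → ℝ) (I : Finset ℕ) : ℝ :=
  (∑ u ∈ range (∏ p ∈ s, p), ∏ i ∈ I, XX s y (u + i)) / ((∏ p ∈ s, p : ℕ) : ℝ)

/-- the factor of the large primes -/
noncomputable def cc (s' : Finset ℕ) (k : ℕ) : ℝ := ∏ p ∈ s', (1 - 2 * k / (p : ℝ))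

/-- the error term of Brun's sieve -/
noncomputable def errB (S : Finset ℕ) (k m N : ℕ) : ℝ :=
  2 * N * ((2 * k * ∑ p ∈ S, 1 / (p : ℝ)) ^ m / (m.factorial : ℝ)) + (1 + 2 * k * S.card) ^ m

theorem errB_nonneg (S : Finset ℕ) (k m N : ℕ) : 0 ≤ errB S k m N := by
  unfold errB
  positivity

theorem one_sub_prod_le_sum {I : Finset ℕ} {a : ℕ → ℝ} (h0 : ∀ i ∈ I, 0 ≤ a i)
    (h1 : ∀ i ∈ I, a i ≤ 1) : 1 - ∏ i ∈ I, (1 - a i) ≤ ∑ i ∈ I, a i := by
  induction I using Finset.induction_on with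
  | empty => simp
  | insert q I hq ih =>
    rw [Finset.prod_insert hq, Finset.sum_insert hq]
    have ih' := ih (fun i hi => h0 i (Finset.mem_insert_of_mem hi))
      (fun i hi => h1 i (Finset.mem_insert_of_mem hi))
    have hq0 := h0 q (Finset.mem_insert_self q I)
    have hP0 : 0 ≤ ∏ i ∈ I, (1 - a i) :=
      Finset.prod_nonneg (fun i hi => by linarith [h1 i (Finset.mem_insert_of_mem hi)])
    have hP1 : ∏ i ∈ I, (1 - a i) ≤ 1 :=
      Finset.prod_le_one (fun i hi => by linarith [h1 i (Finset.mem_insert_of_mem hi)])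
        (fun i hi => by linarith [h0 i (Finset.mem_insert_of_mem hi)])
    nlinarith

theorem one_sub_prod_eq_sum {I : Finset ℕ} {a : ℕ → ℝ} (h01 : ∀ i ∈ I, a i = 0 ∨ a i = 1)
    (hex : ∀ i ∈ I, ∀ j ∈ I, i ≠ j → a i = 1 → a j = 0) :
    1 - ∏ i ∈ I, (1 - a i) = ∑ i ∈ I, a i := by
  by_cases h : ∃ i ∈ I, a i = 1
  · obtain ⟨i, hi, h1⟩ := h
    rw [Finset.prod_eq_zero hi (by rw [h1]; ring), Finset.sum_eq_single_of_mem i hi, h1]
    · ring
    · intro j hj hji
      exact hex i hi j hj hji.symm h1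
  · have h0 : ∀ i ∈ I, a i = 0 := by
      intro i hi
      rcases h01 i hi with h2 | h2
      · exact h2
      · exact absurd ⟨i, hi, h2⟩ h
    rw [Finset.prod_eq_one (fun i hi => by rw [h0 i hi]; ring), Finset.sum_eq_zero h0]
    ring

/-- correlations of the sifted set -/
theorem corr (hs : SieveSys (s ∪ s') y) (hdisj : Disjoint s s') {H : ℕ}
    (hsep : ∀ p ∈ s', ∀ t, ∀ i ≤ H, ∀ j ≤ H, i ≠ j → y p (t + i) = 1 → y p (t + j) = 0)
    {I : Finset ℕ} (hI : ∀ i ∈ I, i ≤ H) (m N : ℕ) :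
    |∑ t ∈ range N, ∏ i ∈ I, XX (s ∪ s') y (t + i) - N * (cc s' I.card * avgI s y I)|
      ≤ errB (s ∪ s') I.card m N := by
  set w : ℕ → ℕ → ℝ := fun p t => 1 - ∏ i ∈ I, (1 - y p (t + i)) with hw
  have hy0 : ∀ p ∈ s ∪ s', ∀ x, 0 ≤ 1 - y p x := fun p hp x => by linarith [hs.y_le_one hp x]
  have hy1 : ∀ p ∈ s ∪ s', ∀ x, 1 - y p x ≤ 1 := fun p hp x => by linarith [hs.y_nonneg hp x]
  have hprod0 : ∀ p ∈ s ∪ s', ∀ t, 0 ≤ ∏ i ∈ I, (1 - y p (t + i)) := fun p hp t =>
    Finset.prod_nonneg (fun i _ => hy0 p hp _)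
  have hprod1 : ∀ p ∈ s ∪ s', ∀ t, ∏ i ∈ I, (1 - y p (t + i)) ≤ 1 := fun p hp t =>
    Finset.prod_le_one (fun i _ => hy0 p hp _) (fun i _ => hy1 p hp _)
  have hwper : ∀ p ∈ s ∪ s', ∀ x, w p (x + p) = w p x := by
    intro p hp x
    simp only [hw]
    congr 1
    apply Finset.prod_congr rfl
    intro i _
    have h2 : x + p + i = x + i + p := by ring
    rw [h2, hs.per p hp]
  have hwsum : ∀ p ∈ s ∪ s', ∑ x ∈ range p, w p x ≤ 2 * (I.card : ℝ) := by
    intro p hp
    calc ∑ x ∈ range p, w p x ≤ ∑ x ∈ range p, ∑ i ∈ I, y p (x + i) := by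
          apply Finset.sum_le_sum
          intro x _
          exact one_sub_prod_le_sum (fun i _ => hs.y_nonneg hp _) (fun i _ => hs.y_le_one hp _)
      _ = ∑ i ∈ I, (2 : ℝ) := by
          rw [Finset.sum_comm]
          apply Finset.sum_congr rfl
          intro i _
          exact hs.shift_sum hp i
      _ = 2 * (I.card : ℝ) := by
          rw [Finset.sum_const, nsmul_eq_mul]
          ring
  have h := brun (s := s ∪ s') (w := w) (κ := 2 * (I.card : ℝ)) (fun p hp => hs.pos hp) hs.cop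
    (fun p hp x => by simp only [hw]; linarith [hprod1 p hp x])
    (fun p hp x => by simp only [hw]; linarith [hprod0 p hp x])
    hwper (by positivity) hwsum m N
  have e1 : ∀ t, ∏ p ∈ s ∪ s', (1 - w p t) = ∏ i ∈ I, XX (s ∪ s') y (t + i) := by
    intro t
    unfold XX
    rw [Finset.prod_comm]
    apply Finset.prod_congr rfl
    intro p _
    simp [hw]
  have e2 : ∏ p ∈ s ∪ s', (1 - (∑ x ∈ range p, w p x) / (p : ℝ))
      = cc s' I.card * avgI s y I := by
    rw [Finset.prod_union hdisj, mul_comm]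
    congr 1
    · unfold cc
      apply Finset.prod_congr rfl
      intro p hp
      have hp' : p ∈ s ∪ s' := Finset.mem_union_right _ hp
      have h3 : ∑ x ∈ range p, w p x = 2 * (I.card : ℝ) := by
        calc ∑ x ∈ range p, w p x = ∑ x ∈ range p, ∑ i ∈ I, y p (x + i) := by
              apply Finset.sum_congr rfl
              intro x _
              exact one_sub_prod_eq_sum (fun i _ => hs.zero_one p hp' _)
                (fun i hi j hj hij h1 => hsep p hp x i (hI i hi) j (hI j hj) hij h1)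
          _ = ∑ i ∈ I, (2 : ℝ) := by
              rw [Finset.sum_comm]
              apply Finset.sum_congr rfl
              intro i _
              exact hs.shift_sum hp' i
          _ = 2 * (I.card : ℝ) := by
              rw [Finset.sum_const, nsmul_eq_mul]
              ring
      rw [h3]
    · unfold avgI
      rw [(hs.mono Finset.subset_union_left).avg_prod I]
      apply Finset.prod_congr rfl
      intro p hp
      have hp' : p ∈ s ∪ s' := Finset.mem_union_left _ hp
      have hp0 : (p : ℝ) ≠ 0 := by exact_mod_cast (hs.pos hp').ne'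
      simp only [hw]
      rw [Finset.sum_sub_distrib]
      simp
      field_simp
      ring
  rw [e2] at h
  simp_rw [e1] at h
  unfold errB
  exact h

end Pool.Agent.Helper90.Twin
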