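import Pool.Agent.Helper90.TwinD

set_option autoImplicit false

open Finset

namespace Pool.Agent.Helper90.Twin

variable {s s' : Finset ℕ} {y : ℕ → ℕ → ℝ}

theorem card_powersetCard_Ioo_le {g H r : ℕ} (hg : g ≤ H) :
    (((Ioo 0 g).powersetCard r).card : ℝ) ≤ (H : ℝ) ^ r := by
  rw [Finset.card_powersetCard, Nat.card_Ioo]
  have h1 : ((g - 0 - 1).choose r : ℝ) ≤ ((g - 0 - 1 : ℕ) : ℝ) ^ r := by
    exact_mod_cast Nat.choose_le_pow _ _
  refine h1.trans ?_
  apply pow_le_pow_left₀ (by positivity)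
  exact_mod_cast (by omega : g - 0 - 1 ≤ H)

theorem prod_insert_two {X : ℕ → ℝ} {g : ℕ} (hg : 0 < g) {J : Finset ℕ} (hJ : J ⊆ Ioo 0 g)
    (t : ℕ) : ∏ i ∈ insert 0 (insert g J), X (t + i) = X t * (X (t + g) * ∏ i ∈ J, X (t + i)) := by
  have h1 : g ∉ J := fun h => by
    have := Finset.mem_Ioo.1 (hJ h)
    omega
  have h2 : 0 ∉ insert g J := by
    rw [Finset.mem_insert]
    rintro (h | h)
    · omega
    · have := Finset.mem_Ioo.1 (hJ h)
      omega
  rw [Finset.prod_insert h2, Finset.prod_insert h1, add_zero]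

theorem card_insert_two {g r : ℕ} (hg : 0 < g) {J : Finset ℕ} (hJ : J ∈ (Ioo 0 g).powersetCard r) :
    (insert 0 (insert g J)).card = r + 2 := by
  rw [Finset.mem_powersetCard] at hJ
  have h1 : g ∉ J := fun h => by
    have := Finset.mem_Ioo.1 (hJ.1 h)
    omega
  have h2 : 0 ∉ insert g J := by
    rw [Finset.mem_insert]
    rintro (h | h)
    · omega
    · have := Finset.mem_Ioo.1 (hJ.1 h)
      omega
  rw [Finset.card_insert_of_notMem h2, Finset.card_insert_of_notMem h1, hJ.2]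

theorem insert_two_le {g H r : ℕ} (hg : g ≤ H) {J : Finset ℕ}
    (hJ : J ∈ (Ioo 0 g).powersetCard r) : ∀ i ∈ insert 0 (insert g J), i ≤ H := by
  intro i hi
  rw [Finset.mem_powersetCard] at hJ
  rcases Finset.mem_insert.1 hi with rfl | hi
  · omega
  · rcases Finset.mem_insert.1 hi with rfl | hi
    · exact hg
    · have := Finset.mem_Ioo.1 (hJ.1 hi)
      omega

/-- generic transfer: a weighted sum of correlations of the full sifted set -/
theorem transfer (hs : SieveSys (s ∪ s') y) (hdisj : Disjoint s s') {H : ℕ}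
    (hsep : ∀ p ∈ s', ∀ t, ∀ i ≤ H, ∀ j ≤ H, i ≠ j → y p (t + i) = 1 → y p (t + j) = 0)
    (ε : ℕ → ℝ) (hε : ∀ g, |ε g| ≤ 1) (r m N : ℕ) :
    |∑ t ∈ range N, XX (s ∪ s') y t * ∑ g ∈ Icc 1 H, ε g * XX (s ∪ s') y (t + g) *
        EE (Ioo 0 g) (fun i => XX (s ∪ s') y (t + i)) r
      - N * (cc s' (r + 2) * ((∑ u ∈ range (∏ p ∈ s, p), XX s y u * ∑ g ∈ Icc 1 H,
          ε g * XX s y (u + g) * EE (Ioo 0 g) (fun i => XX s y (u + i)) r) /
          ((∏ p ∈ s, p : ℕ) : ℝ)))|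
      ≤ (H : ℝ) ^ (r + 1) * errB (s ∪ s') (r + 2) m N := by
  have key : ∀ (X : ℕ → ℝ) (M : ℕ), ∑ t ∈ range M, X t * ∑ g ∈ Icc 1 H, ε g * X (t + g) *
        EE (Ioo 0 g) (fun i => X (t + i)) r
      = ∑ g ∈ Icc 1 H, ∑ J ∈ (Ioo 0 g).powersetCard r,
          ε g * ∑ t ∈ range M, ∏ i ∈ insert 0 (insert g J), X (t + i) := by
    intro X M
    simp_rw [Finset.mul_sum]
    rw [Finset.sum_comm]
    apply Finset.sum_congr rfl
    intro g hg
    rw [Finset.mem_Icc] at hg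
    rw [Finset.sum_comm]
    apply Finset.sum_congr rfl
    intro t _
    unfold EE
    rw [Finset.mul_sum, Finset.mul_sum]
    apply Finset.sum_congr rfl
    intro J hJ
    rw [prod_insert_two (by omega) (Finset.mem_powersetCard.1 hJ).1]
    ring
  rw [key, key]
  have e1 : ∀ (A : ℝ), N * (cc s' (r + 2) * ((∑ g ∈ Icc 1 H, ∑ J ∈ (Ioo 0 g).powersetCard r,
          ε g * ∑ t ∈ range (∏ p ∈ s, p), ∏ i ∈ insert 0 (insert g J), XX s y (t + i)) / A))
      = ∑ g ∈ Icc 1 H, ∑ J ∈ (Ioo 0 g).powersetCard r,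
          ε g * (N * (cc s' (r + 2) * ((∑ t ∈ range (∏ p ∈ s, p),
            ∏ i ∈ insert 0 (insert g J), XX s y (t + i)) / A))) := by
    intro A
    rw [Finset.sum_div, Finset.mul_sum, Finset.mul_sum]
    apply Finset.sum_congr rfl
    intro g _
    rw [Finset.sum_div, Finset.mul_sum, Finset.mul_sum]
    apply Finset.sum_congr rfl
    intro J _
    ring
  rw [e1, ← Finset.sum_sub_distrib]
  refine (Finset.abs_sum_le_sum_abs _ _).trans ?_
  have h1 : ∀ g ∈ Icc 1 H, |∑ J ∈ (Ioo 0 g).powersetCard r,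
        ε g * ∑ t ∈ range N, ∏ i ∈ insert 0 (insert g J), XX (s ∪ s') y (t + i)
      - ∑ J ∈ (Ioo 0 g).powersetCard r,
          ε g * (N * (cc s' (r + 2) * ((∑ t ∈ range (∏ p ∈ s, p),
            ∏ i ∈ insert 0 (insert g J), XX s y (t + i)) / ((∏ p ∈ s, p : ℕ) : ℝ))))|
      ≤ (H : ℝ) ^ r * errB (s ∪ s') (r + 2) m N := by
    intro g hg
    rw [Finset.mem_Icc] at hg
    rw [← Finset.sum_sub_distrib]
    refine (Finset.abs_sum_le_sum_abs _ _).trans ?_
    calc ∑ J ∈ (Ioo 0 g).powersetCard r,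
          |ε g * ∑ t ∈ range N, ∏ i ∈ insert 0 (insert g J), XX (s ∪ s') y (t + i)
          - ε g * (N * (cc s' (r + 2) * ((∑ t ∈ range (∏ p ∈ s, p),
            ∏ i ∈ insert 0 (insert g J), XX s y (t + i)) / ((∏ p ∈ s, p : ℕ) : ℝ))))|
        ≤ ∑ J ∈ (Ioo 0 g).powersetCard r, errB (s ∪ s') (r + 2) m N := by
          apply Finset.sum_le_sum
          intro J hJ
          have h2 := corr hs hdisj hsep (insert_two_le hg.2 hJ) m N
          rw [card_insert_two (by omega) hJ] at h2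
          rw [← mul_sub, abs_mul]
          have h3 : 0 ≤ errB (s ∪ s') (r + 2) m N := errB_nonneg _ _ _ _
          calc |ε g| * |∑ t ∈ range N, ∏ i ∈ insert 0 (insert g J), XX (s ∪ s') y (t + i)
            - N * (cc s' (r + 2) * ((∑ t ∈ range (∏ p ∈ s, p),
            ∏ i ∈ insert 0 (insert g J), XX s y (t + i)) / ((∏ p ∈ s, p : ℕ) : ℝ)))|
              ≤ 1 * errB (s ∪ s') (r + 2) m N :=
                mul_le_mul (hε g) h2 (abs_nonneg _) (by norm_num)
            _ = _ := one_mul _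
      _ = (((Ioo 0 g).powersetCard r).card : ℝ) * errB (s ∪ s') (r + 2) m N := by
          rw [Finset.sum_const, nsmul_eq_mul]
      _ ≤ _ := mul_le_mul_of_nonneg_right (card_powersetCard_Ioo_le hg.2) (errB_nonneg _ _ _ _)
  calc _ ≤ ∑ g ∈ Icc 1 H, (H : ℝ) ^ r * errB (s ∪ s') (r + 2) m N := Finset.sum_le_sum h1
    _ = _ := by
      rw [Finset.sum_const, Nat.card_Icc, nsmul_eq_mul]
      simp
      ring

/-- exchange of the order of summation -/
theorem swap_sum {H r : ℕ} (F : ℕ → ℝ) (x : ℕ → ℝ) :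
    ∑ g ∈ Icc 1 H, F g * EE (Ioo 0 g) x r
      = ∑ J ∈ (Icc 1 H).powersetCard r, (∏ i ∈ J, x i) * ∑ g ∈ Icc (J.sup id + 1) H, F g := by
  unfold EE
  simp_rw [Finset.mul_sum]
  rw [Finset.sum_sigma', Finset.sum_sigma']
  apply Finset.sum_nbij' (fun a => ⟨a.2, a.1⟩) (fun a => ⟨a.2, a.1⟩)
  · rintro ⟨g, J⟩ h
    simp only [Finset.mem_sigma, Finset.mem_Icc, Finset.mem_powersetCard] at h ⊢
    obtain ⟨⟨h1, h2⟩, h3, h4⟩ := h
    refine ⟨⟨?_, h4⟩, ?_, h2⟩
    · intro i hi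
      have := Finset.mem_Ioo.1 (h3 hi)
      rw [Finset.mem_Icc]
      omega
    · have : J.sup id < g := by
        rw [Finset.sup_lt_iff (by simp; omega)]
        intro i hi
        have := Finset.mem_Ioo.1 (h3 hi)
        simp only [id]
        omega
      omega
  · rintro ⟨J, g⟩ h
    simp only [Finset.mem_sigma, Finset.mem_Icc, Finset.mem_powersetCard] at h ⊢
    obtain ⟨⟨h3, h4⟩, h1, h2⟩ := h
    refine ⟨⟨by omega, h2⟩, ?_, h4⟩
    intro i hi
    have h5 := Finset.mem_Icc.1 (h3 hi)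
    have h6 : i ≤ J.sup id := Finset.le_sup (f := id) hi
    rw [Finset.mem_Ioo]
    omega
  · rintro ⟨g, J⟩ _
    rfl
  · rintro ⟨J, g⟩ _
    rfl
  · rintro ⟨g, J⟩ _
    simp only
    ring

/-- the alternating main term is small -/
theorem alt_main (hs : SieveSys s y) (H r : ℕ) (hH : 1 ≤ H) :
    |(∑ u ∈ range (∏ p ∈ s, p), XX s y u * ∑ g ∈ Icc 1 H,
          (-1 : ℝ) ^ g * XX s y (u + g) * EE (Ioo 0 g) (fun i => XX s y (u + i)) r) /
          ((∏ p ∈ s, p : ℕ) : ℝ)| ≤ (H : ℝ) ^ r * Real.sqrt H := by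
  have hQ := hs.Q_pos
  have hH0 : (0 : ℝ) < H := by exact_mod_cast hH
  have hsq : 0 < Real.sqrt H := Real.sqrt_pos.2 hH0
  set Z : Finset ℕ → ℕ → ℝ := fun J u => ∑ g ∈ Icc (J.sup id + 1) H,
    (-1 : ℝ) ^ g * XX s y (u + g) with hZ
  have h1 : ∀ u, ∑ g ∈ Icc 1 H, (-1 : ℝ) ^ g * XX s y (u + g) *
      EE (Ioo 0 g) (fun i => XX s y (u + i)) r
      = ∑ J ∈ (Icc 1 H).powersetCard r, (∏ i ∈ J, XX s y (u + i)) * Z J u := fun u =>
    swap_sum (fun g => (-1 : ℝ) ^ g * XX s y (u + g)) (fun i => XX s y (u + i))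
  -- the average of `|Z J u|`
  have hZavg : ∀ J : Finset ℕ, (∑ u ∈ range (∏ p ∈ s, p), |Z J u|) / ((∏ p ∈ s, p : ℕ) : ℝ)
      ≤ Real.sqrt H := by
    intro J
    have h2 : ∀ u, Z J u ^ 2 = (∑ i ∈ range (H + 1 - (J.sup id + 1)), (-1 : ℝ) ^ i *
        XX s y (u + ((J.sup id + 1) + i))) ^ 2 := by
      intro u
      have h3 : Z J u = (-1 : ℝ) ^ (J.sup id + 1) *
          ∑ i ∈ range (H + 1 - (J.sup id + 1)), (-1 : ℝ) ^ i *
            XX s y (u + ((J.sup id + 1) + i)) := by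
        simp only [hZ]
        have h4 : Icc (J.sup id + 1) H = Ico (J.sup id + 1) (H + 1) := by
          ext x
          simp only [Finset.mem_Icc, Finset.mem_Ico]
          omega
        rw [h4, Finset.sum_Ico_eq_sum_range, Finset.mul_sum]
        apply Finset.sum_congr rfl
        intro i _
        rw [pow_add]
        ring
      rw [h3, mul_pow, ← pow_mul, mul_comm (J.sup id + 1) 2, pow_mul]
      norm_num
    have h3 : (∑ u ∈ range (∏ p ∈ s, p), Z J u ^ 2) / ((∏ p ∈ s, p : ℕ) : ℝ) ≤ H := by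
      simp_rw [h2]
      refine (hs.second_moment_alt _ _).trans ?_
      exact_mod_cast (by omega : H + 1 - (J.sup id + 1) ≤ H)
    have h4 : ∀ u, |Z J u| ≤ (Z J u ^ 2 / Real.sqrt H + Real.sqrt H) / 2 := by
      intro u
      have h5 : 0 ≤ (|Z J u| - Real.sqrt H) ^ 2 := sq_nonneg _
      have h6 : |Z J u| ^ 2 = Z J u ^ 2 := sq_abs _
      rw [le_div_iff₀ (by norm_num : (0 : ℝ) < 2)]
      have h7 : |Z J u| * 2 * Real.sqrt H ≤ (Z J u ^ 2 / Real.sqrt H + Real.sqrt H) * Real.sqrt H := by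
        rw [add_mul, div_mul_cancel₀ _ hsq.ne']
        nlinarith
      exact le_of_mul_le_mul_right h7 hsq
    calc (∑ u ∈ range (∏ p ∈ s, p), |Z J u|) / ((∏ p ∈ s, p : ℕ) : ℝ)
        ≤ (∑ u ∈ range (∏ p ∈ s, p), (Z J u ^ 2 / Real.sqrt H + Real.sqrt H) / 2) /
          ((∏ p ∈ s, p : ℕ) : ℝ) :=
          div_le_div_of_nonneg_right (Finset.sum_le_sum (fun u _ => h4 u)) hQ.le
      _ = (((∑ u ∈ range (∏ p ∈ s, p), Z J u ^ 2) / ((∏ p ∈ s, p : ℕ) : ℝ)) / Real.sqrt H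
          + Real.sqrt H) / 2 := by
          rw [← Finset.sum_div, Finset.sum_add_distrib, ← Finset.sum_div, Finset.sum_const,
            Finset.card_range, nsmul_eq_mul]
          field_simp
      _ ≤ ((H : ℝ) / Real.sqrt H + Real.sqrt H) / 2 := by
          have := div_le_div_of_nonneg_right h3 hsq.le
          linarith
      _ = Real.sqrt H := by
          have h8 : (H : ℝ) / Real.sqrt H = Real.sqrt H := Real.div_sqrt
          rw [h8]
          ring
  have h2 : |∑ u ∈ range (∏ p ∈ s, p), XX s y u * ∑ g ∈ Icc 1 H,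
          (-1 : ℝ) ^ g * XX s y (u + g) * EE (Ioo 0 g) (fun i => XX s y (u + i)) r|
      ≤ ∑ J ∈ (Icc 1 H).powersetCard r, ∑ u ∈ range (∏ p ∈ s, p), |Z J u| := by
    rw [Finset.sum_comm]
    refine (Finset.abs_sum_le_sum_abs _ _).trans ?_
    apply Finset.sum_le_sum
    intro u _
    rw [h1, abs_mul, abs_of_nonneg (hs.XX_nonneg u)]
    calc XX s y u * |∑ J ∈ (Icc 1 H).powersetCard r, (∏ i ∈ J, XX s y (u + i)) * Z J u|
        ≤ 1 * |∑ J ∈ (Icc 1 H).powersetCard r, (∏ i ∈ J, XX s y (u + i)) * Z J u| :=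
          mul_le_mul_of_nonneg_right (hs.XX_le_one u) (abs_nonneg _)
      _ = |∑ J ∈ (Icc 1 H).powersetCard r, (∏ i ∈ J, XX s y (u + i)) * Z J u| := one_mul _
      _ ≤ ∑ J ∈ (Icc 1 H).powersetCard r, |(∏ i ∈ J, XX s y (u + i)) * Z J u| :=
          Finset.abs_sum_le_sum_abs _ _
      _ ≤ _ := by
          apply Finset.sum_le_sum
          intro J _
          rw [abs_mul, abs_of_nonneg (Finset.prod_nonneg (fun i _ => hs.XX_nonneg _))]
          calc (∏ i ∈ J, XX s y (u + i)) * |Z J u| ≤ 1 * |Z J u| :=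
                mul_le_mul_of_nonneg_right (Finset.prod_le_one (fun i _ => hs.XX_nonneg _)
                  (fun i _ => hs.XX_le_one _)) (abs_nonneg _)
            _ = _ := one_mul _
  rw [abs_div, abs_of_pos hQ]
  calc _ ≤ (∑ J ∈ (Icc 1 H).powersetCard r, ∑ u ∈ range (∏ p ∈ s, p), |Z J u|) /
        ((∏ p ∈ s, p : ℕ) : ℝ) := div_le_div_of_nonneg_right h2 hQ.le
    _ = ∑ J ∈ (Icc 1 H).powersetCard r, (∑ u ∈ range (∏ p ∈ s, p), |Z J u|) /
        ((∏ p ∈ s, p : ℕ) : ℝ) := by rw [Finset.sum_div]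
    _ ≤ ∑ J ∈ (Icc 1 H).powersetCard r, Real.sqrt H := Finset.sum_le_sum (fun J _ => hZavg J)
    _ = (H.choose r : ℝ) * Real.sqrt H := by
        rw [Finset.sum_const, Finset.card_powersetCard, Nat.card_Icc, nsmul_eq_mul]
        simp
    _ ≤ _ := by
        apply mul_le_mul_of_nonneg_right _ hsq.le
        exact_mod_cast Nat.choose_le_pow _ _

/-- upper bound for the tail -/
theorem tail_main (hs : SieveSys s y) (H R : ℕ) (hH : 1 ≤ H) (hG : 0 < GG s) :
    (∑ u ∈ range (∏ p ∈ s, p), XX s y u * ∑ g ∈ Icc 1 H,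
          (1 : ℝ) * XX s y (u + g) * EE (Ioo 0 g) (fun i => XX s y (u + i)) R) /
          ((∏ p ∈ s, p : ℕ) : ℝ)
      ≤ (GG s * (2 * (H * GG s)) ^ (R + 1) + (H : ℝ) ^ R / GG s ^ 2) / (R.factorial : ℝ) := by
  have hQ := hs.Q_pos
  have hH0 : (0 : ℝ) < H := by exact_mod_cast hH
  have hf : (0 : ℝ) < (R.factorial : ℝ) := by exact_mod_cast R.factorial_pos
  set m : ℕ → ℝ := fun u => ∑ i ∈ range H, XX s y (u + (1 + i)) with hm
  have hm0 : ∀ u, 0 ≤ m u := fun u => Finset.sum_nonneg (fun i _ => hs.XX_nonneg _)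
  have hmH : ∀ u, m u ≤ H := by
    intro u
    calc m u ≤ ∑ i ∈ range H, (1 : ℝ) := Finset.sum_le_sum (fun i _ => hs.XX_le_one _)
      _ = H := by simp
  have hmIcc : ∀ u, ∑ i ∈ Icc 1 H, XX s y (u + i) = m u := by
    intro u
    have h4 : Icc 1 H = Ico 1 (H + 1) := by
      ext x
      simp only [Finset.mem_Icc, Finset.mem_Ico]
      omega
    rw [h4, Finset.sum_Ico_eq_sum_range]
    rfl
  have h1 : ∀ u, ∑ g ∈ Icc 1 H,
          (1 : ℝ) * XX s y (u + g) * EE (Ioo 0 g) (fun i => XX s y (u + i)) R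
      ≤ m u ^ (R + 1) / (R.factorial : ℝ) := by
    intro u
    calc ∑ g ∈ Icc 1 H, (1 : ℝ) * XX s y (u + g) * EE (Ioo 0 g) (fun i => XX s y (u + i)) R
        ≤ ∑ g ∈ Icc 1 H, XX s y (u + g) * (m u ^ R / (R.factorial : ℝ)) := by
          apply Finset.sum_le_sum
          intro g hg
          rw [Finset.mem_Icc] at hg
          rw [one_mul]
          apply mul_le_mul_of_nonneg_left _ (hs.XX_nonneg _)
          refine (EE_le (fun i _ => hs.XX_nonneg _) R).trans ?_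
          apply div_le_div_of_nonneg_right _ hf.le
          apply pow_le_pow_left₀ (Finset.sum_nonneg (fun i _ => hs.XX_nonneg _))
          rw [← hmIcc u]
          apply Finset.sum_le_sum_of_subset_of_nonneg
          · intro i hi
            rw [Finset.mem_Ioo] at hi
            rw [Finset.mem_Icc]
            omega
          · intro i _ _
            exact hs.XX_nonneg _
      _ = m u ^ (R + 1) / (R.factorial : ℝ) := by
          rw [← Finset.sum_mul, hmIcc u]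
          ring
  have hGH : 0 < H * GG s := mul_pos hH0 hG
  have h2 : ∀ u, m u ^ (R + 1) ≤ (2 * (H * GG s)) ^ (R + 1)
      + (H : ℝ) ^ (R + 1) * ((m u - H * GG s) ^ 2 / (H * GG s) ^ 2) := by
    intro u
    rcases le_or_gt (m u) (2 * (H * GG s)) with h | h
    · have h3 : m u ^ (R + 1) ≤ (2 * (H * GG s)) ^ (R + 1) := pow_le_pow_left₀ (hm0 u) h _
      have h4 : 0 ≤ (H : ℝ) ^ (R + 1) * ((m u - H * GG s) ^ 2 / (H * GG s) ^ 2) := by positivity
      linarith
    · have h3 : m u ^ (R + 1) ≤ (H : ℝ) ^ (R + 1) := pow_le_pow_left₀ (hm0 u) (hmH u) _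
      have h4 : 1 ≤ (m u - H * GG s) ^ 2 / (H * GG s) ^ 2 := by
        rw [le_div_iff₀ (by positivity), one_mul]
        apply pow_le_pow_left₀ hGH.le
        linarith
      have h5 : (H : ℝ) ^ (R + 1) * 1 ≤ (H : ℝ) ^ (R + 1) * ((m u - H * GG s) ^ 2 / (H * GG s) ^ 2) :=
        mul_le_mul_of_nonneg_left h4 (by positivity)
      have h6 : 0 ≤ (2 * (H * GG s)) ^ (R + 1) := by positivity
      linarith
  have h3 : (∑ u ∈ range (∏ p ∈ s, p), XX s y u * m u ^ (R + 1)) / ((∏ p ∈ s, p : ℕ) : ℝ)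
      ≤ GG s * (2 * (H * GG s)) ^ (R + 1) + (H : ℝ) ^ R / GG s ^ 2 := by
    have h4 : ∀ u, XX s y u * m u ^ (R + 1) ≤ XX s y u * (2 * (H * GG s)) ^ (R + 1)
        + (H : ℝ) ^ (R + 1) / (H * GG s) ^ 2 * (m u - H * GG s) ^ 2 := by
      intro u
      have h5 := mul_le_mul_of_nonneg_left (h2 u) (hs.XX_nonneg u)
      have h6 : 0 ≤ (H : ℝ) ^ (R + 1) * ((m u - H * GG s) ^ 2 / (H * GG s) ^ 2) := by positivity
      have h7 := mul_le_mul_of_nonneg_right (hs.XX_le_one u) h6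
      have h8 : (H : ℝ) ^ (R + 1) / (H * GG s) ^ 2 * (m u - H * GG s) ^ 2
          = (H : ℝ) ^ (R + 1) * ((m u - H * GG s) ^ 2 / (H * GG s) ^ 2) := by ring
      rw [h8]
      linarith
    have h5 := hs.avg_one 0
    have h6 := hs.second_moment_count 1 H
    simp only [add_zero] at h5
    calc (∑ u ∈ range (∏ p ∈ s, p), XX s y u * m u ^ (R + 1)) / ((∏ p ∈ s, p : ℕ) : ℝ)
        ≤ (∑ u ∈ range (∏ p ∈ s, p), (XX s y u * (2 * (H * GG s)) ^ (R + 1)
          + (H : ℝ) ^ (R + 1) / (H * GG s) ^ 2 * (m u - H * GG s) ^ 2)) /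
            ((∏ p ∈ s, p : ℕ) : ℝ) :=
          div_le_div_of_nonneg_right (Finset.sum_le_sum (fun u _ => h4 u)) hQ.le
      _ = ((∑ u ∈ range (∏ p ∈ s, p), XX s y u) / ((∏ p ∈ s, p : ℕ) : ℝ)) *
            (2 * (H * GG s)) ^ (R + 1)
          + (H : ℝ) ^ (R + 1) / (H * GG s) ^ 2 *
            ((∑ u ∈ range (∏ p ∈ s, p), (m u - H * GG s) ^ 2) / ((∏ p ∈ s, p : ℕ) : ℝ)) := by
          rw [Finset.sum_add_distrib, ← Finset.sum_mul, ← Finset.mul_sum]
          ring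
      _ ≤ GG s * (2 * (H * GG s)) ^ (R + 1) + (H : ℝ) ^ (R + 1) / (H * GG s) ^ 2 * H := by
          rw [h5]
          have h7 : 0 ≤ (H : ℝ) ^ (R + 1) / (H * GG s) ^ 2 := by positivity
          have h8 := mul_le_mul_of_nonneg_left h6 h7
          linarith
      _ = _ := by
          congr 1
          field_simp
          ring
  calc _ ≤ (∑ u ∈ range (∏ p ∈ s, p), XX s y u * (m u ^ (R + 1) / (R.factorial : ℝ))) /
          ((∏ p ∈ s, p : ℕ) : ℝ) := by
        apply div_le_div_of_nonneg_right _ hQ.le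
        apply Finset.sum_le_sum
        intro u _
        exact mul_le_mul_of_nonneg_left (h1 u) (hs.XX_nonneg u)
    _ = ((∑ u ∈ range (∏ p ∈ s, p), XX s y u * m u ^ (R + 1)) / ((∏ p ∈ s, p : ℕ) : ℝ)) /
          (R.factorial : ℝ) := by
        rw [div_right_comm]
        congr 1
        rw [Finset.sum_div]
        apply Finset.sum_congr rfl
        intro u _
        ring
    _ ≤ _ := div_le_div_of_nonneg_right h3 hf.le

end Pool.Agent.Helper90.Twin
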