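import Pool.Agent.Helper90.TwinE

set_option autoImplicit false

open Finset

namespace Pool.Agent.Helper90.Twin

variable {s s' : Finset ℕ} {y : ℕ → ℕ → ℝ}

/-- the signed indicator of the next element within distance `H` -/
noncomputable def sig (X : ℕ → ℝ) (H t : ℕ) : ℝ :=
  ∑ g ∈ Icc 1 H, (-1 : ℝ) ^ g * X (t + g) * ∏ i ∈ Ioo 0 g, (1 - X (t + i))

theorem cc_nonneg {k : ℕ} (h : ∀ p ∈ s', 2 * k ≤ p) : 0 ≤ cc s' k := by
  unfold cc
  apply Finset.prod_nonneg
  intro p hp
  have h1 : (2 * k : ℝ) ≤ p := by exact_mod_cast h p hp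
  rcases Nat.eq_zero_or_pos p with h0 | h0
  · subst h0
    simp
  · have h2 : (0 : ℝ) < p := by exact_mod_cast h0
    rw [sub_nonneg, div_le_one h2]
    exact h1

theorem sigma_bound (hs : SieveSys (s ∪ s') y) (hdisj : Disjoint s s') {H : ℕ} (hH : 1 ≤ H)
    (hsep : ∀ p ∈ s', ∀ t, ∀ i ≤ H, ∀ j ≤ H, i ≠ j → y p (t + i) = 1 → y p (t + j) = 0)
    (hG : 0 < GG s) (R : ℕ) (hR : ∀ p ∈ s', 2 * (R + 2) ≤ p) (m N : ℕ) :
    |∑ t ∈ range N, XX (s ∪ s') y t * sig (XX (s ∪ s') y) H t|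
      ≤ ∑ r ∈ range R, (N * (cc s' (r + 2) * ((H : ℝ) ^ r * Real.sqrt H))
            + (H : ℝ) ^ (r + 1) * errB (s ∪ s') (r + 2) m N)
        + (N * (cc s' (R + 2) * ((GG s * (2 * (H * GG s)) ^ (R + 1) + (H : ℝ) ^ R / GG s ^ 2)
            / (R.factorial : ℝ))) + (H : ℝ) ^ (R + 1) * errB (s ∪ s') (R + 2) m N) := by
  set X := XX (s ∪ s') y with hX
  have hX0 : ∀ k, 0 ≤ X k := hs.XX_nonneg
  have hX1 : ∀ k, X k ≤ 1 := hs.XX_le_one
  have hss : SieveSys s y := hs.mono Finset.subset_union_left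
  -- pointwise Bonferroni
  have hpt : ∀ t, |sig X H t - ∑ r ∈ range R, (-1 : ℝ) ^ r * ∑ g ∈ Icc 1 H,
      (-1 : ℝ) ^ g * X (t + g) * EE (Ioo 0 g) (fun i => X (t + i)) r|
      ≤ ∑ g ∈ Icc 1 H, (1 : ℝ) * X (t + g) * EE (Ioo 0 g) (fun i => X (t + i)) R := by
    intro t
    have e1 : sig X H t - ∑ r ∈ range R, (-1 : ℝ) ^ r * ∑ g ∈ Icc 1 H,
        (-1 : ℝ) ^ g * X (t + g) * EE (Ioo 0 g) (fun i => X (t + i)) r
        = ∑ g ∈ Icc 1 H, (-1 : ℝ) ^ g * X (t + g) * (∏ i ∈ Ioo 0 g, (1 - X (t + i))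
          - TT (Ioo 0 g) (fun i => X (t + i)) R) := by
      unfold sig TT
      simp_rw [mul_sub, Finset.sum_sub_distrib, Finset.mul_sum]
      congr 1
      rw [Finset.sum_comm]
      apply Finset.sum_congr rfl
      intro g _
      apply Finset.sum_congr rfl
      intro r _
      ring
    rw [e1]
    refine (Finset.abs_sum_le_sum_abs _ _).trans ?_
    apply Finset.sum_le_sum
    intro g _
    rw [abs_mul, abs_mul, abs_pow, abs_neg, abs_one, one_pow, abs_of_nonneg (hX0 _)]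
    exact mul_le_mul_of_nonneg_left (bonferroni_abs (fun i _ => hX0 _) (fun i _ => hX1 _) R)
      (by linarith [hX0 (t + g)])
  -- the alternating sums
  have hM : ∀ r ∈ range R, |∑ t ∈ range N, X t * ∑ g ∈ Icc 1 H,
      (-1 : ℝ) ^ g * X (t + g) * EE (Ioo 0 g) (fun i => X (t + i)) r|
      ≤ N * (cc s' (r + 2) * ((H : ℝ) ^ r * Real.sqrt H))
            + (H : ℝ) ^ (r + 1) * errB (s ∪ s') (r + 2) m N := by
    intro r hr
    rw [mem_range] at hr
    have h1 := transfer hs hdisj hsep (fun g => (-1 : ℝ) ^ g)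
      (fun g => by rw [abs_pow, abs_neg, abs_one, one_pow]) r m N
    have h2 := alt_main hss H r hH
    have hc : 0 ≤ cc s' (r + 2) := cc_nonneg (fun p hp => by have := hR p hp; omega)
    have h3 : |(N : ℝ) * (cc s' (r + 2) * ((∑ u ∈ range (∏ p ∈ s, p), XX s y u * ∑ g ∈ Icc 1 H,
          (-1 : ℝ) ^ g * XX s y (u + g) * EE (Ioo 0 g) (fun i => XX s y (u + i)) r) /
          ((∏ p ∈ s, p : ℕ) : ℝ)))| ≤ N * (cc s' (r + 2) * ((H : ℝ) ^ r * Real.sqrt H)) := by
      rw [abs_mul, abs_mul, Nat.abs_cast, abs_of_nonneg hc]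
      exact mul_le_mul_of_nonneg_left (mul_le_mul_of_nonneg_left h2 hc) (Nat.cast_nonneg _)
    have h4 := abs_le.1 h1
    have h5 := abs_le.1 h3
    rw [abs_le]
    constructor <;> linarith [h4.1, h4.2, h5.1, h5.2]
  -- the tail
  have hTail : ∑ t ∈ range N, X t * ∑ g ∈ Icc 1 H, (1 : ℝ) * X (t + g) *
      EE (Ioo 0 g) (fun i => X (t + i)) R
      ≤ N * (cc s' (R + 2) * ((GG s * (2 * (H * GG s)) ^ (R + 1) + (H : ℝ) ^ R / GG s ^ 2)
            / (R.factorial : ℝ))) + (H : ℝ) ^ (R + 1) * errB (s ∪ s') (R + 2) m N := by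
    have h1 := transfer hs hdisj hsep (fun _ => (1 : ℝ)) (fun g => by simp) R m N
    have h2 := tail_main hss H R hH hG
    have hc : 0 ≤ cc s' (R + 2) := cc_nonneg hR
    have h3 := mul_le_mul_of_nonneg_left (mul_le_mul_of_nonneg_left h2 hc)
      (Nat.cast_nonneg N : (0 : ℝ) ≤ N)
    have h4 := (abs_le.1 h1).2
    linarith
  -- assemble
  have e2 : ∑ t ∈ range N, X t * sig X H t
      = ∑ r ∈ range R, (-1 : ℝ) ^ r * ∑ t ∈ range N, X t * ∑ g ∈ Icc 1 H,
          (-1 : ℝ) ^ g * X (t + g) * EE (Ioo 0 g) (fun i => X (t + i)) r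
        + ∑ t ∈ range N, X t * (sig X H t - ∑ r ∈ range R, (-1 : ℝ) ^ r * ∑ g ∈ Icc 1 H,
          (-1 : ℝ) ^ g * X (t + g) * EE (Ioo 0 g) (fun i => X (t + i)) r) := by
    have e3 : ∑ r ∈ range R, (-1 : ℝ) ^ r * ∑ t ∈ range N, X t * ∑ g ∈ Icc 1 H,
          (-1 : ℝ) ^ g * X (t + g) * EE (Ioo 0 g) (fun i => X (t + i)) r
        = ∑ t ∈ range N, X t * ∑ r ∈ range R, (-1 : ℝ) ^ r * ∑ g ∈ Icc 1 H,
          (-1 : ℝ) ^ g * X (t + g) * EE (Ioo 0 g) (fun i => X (t + i)) r := by
      simp_rw [Finset.mul_sum]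
      rw [Finset.sum_comm]
      apply Finset.sum_congr rfl
      intro t _
      apply Finset.sum_congr rfl
      intro r _
      apply Finset.sum_congr rfl
      intro g _
      ring
    rw [e3, ← Finset.sum_add_distrib]
    apply Finset.sum_congr rfl
    intro t _
    ring
  rw [e2]
  refine (abs_add_le _ _).trans (add_le_add ?_ ?_)
  · refine (Finset.abs_sum_le_sum_abs _ _).trans ?_
    apply Finset.sum_le_sum
    intro r hr
    rw [abs_mul, abs_pow, abs_neg, abs_one, one_pow, one_mul]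
    exact hM r hr
  · refine (Finset.abs_sum_le_sum_abs _ _).trans (le_trans ?_ hTail)
    apply Finset.sum_le_sum
    intro t _
    rw [abs_mul, abs_of_nonneg (hX0 t)]
    exact mul_le_mul_of_nonneg_left (hpt t) (hX0 t)

/-! ### The next element -/

theorem sig_of_next {X : ℕ → ℝ} {H t g : ℕ} (hg1 : 1 ≤ g) (hgH : g ≤ H) (hXg : X (t + g) = 1)
    (hbetween : ∀ i, 0 < i → i < g → X (t + i) = 0) : sig X H t = (-1 : ℝ) ^ g := by
  unfold sig
  rw [Finset.sum_eq_single_of_mem g (Finset.mem_Icc.2 ⟨hg1, hgH⟩)]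
  · rw [hXg, Finset.prod_eq_one]
    · ring
    · intro i hi
      rw [Finset.mem_Ioo] at hi
      rw [hbetween i hi.1 hi.2]
      ring
  · intro g' hg' hne
    rw [Finset.mem_Icc] at hg'
    rcases Nat.lt_or_gt_of_ne hne with h | h
    · rw [hbetween g' (by omega) h]
      ring
    · rw [Finset.prod_eq_zero (Finset.mem_Ioo.2 ⟨by omega, h⟩) (by rw [hXg]; ring)]
      ring

theorem sig_of_no_next {X : ℕ → ℝ} {H t : ℕ} (h : ∀ i, 0 < i → i ≤ H → X (t + i) = 0) :
    sig X H t = 0 := by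
  unfold sig
  apply Finset.sum_eq_zero
  intro g hg
  rw [Finset.mem_Icc] at hg
  rw [h g (by omega) hg.2]
  ring

/-- few long gaps -/
theorem long_gaps {A : ℕ → Prop} {nxt : ℕ → ℕ} {H : ℕ} (hH : 1 ≤ H)
    (hn2 : ∀ t, A t → ∀ u, t < u → u < nxt t → ¬ A u) (N : ℕ) (T : Finset ℕ)
    (hT : ∀ t ∈ T, t < N ∧ A t ∧ t + H < nxt t) : (T.card : ℝ) ≤ N / H + 1 := by
  have hinj : Set.InjOn (fun t => t / H) (T : Set ℕ) := by
    intro t ht u hu htu
    simp only at htu
    by_contra hne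
    rcases Nat.lt_or_gt_of_ne hne with h | h
    · have h1 := hT t ht
      have h2 := hT u hu
      have h3 : ¬ u < nxt t := fun h4 => hn2 t h1.2.1 u h h4 h2.2.1
      have h4 : t / H + 1 ≤ u / H := by
        have : t / H + 1 = (t + H) / H := by
          rw [Nat.add_div_right _ (by omega)]
        rw [this]
        exact Nat.div_le_div_right (by omega)
      omega
    · have h1 := hT t ht
      have h2 := hT u hu
      have h3 : ¬ t < nxt u := fun h4 => hn2 u h2.2.1 t h h4 h1.2.1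
      have h4 : u / H + 1 ≤ t / H := by
        have : u / H + 1 = (u + H) / H := by
          rw [Nat.add_div_right _ (by omega)]
        rw [this]
        exact Nat.div_le_div_right (by omega)
      omega
  have hsub : T.image (fun t => t / H) ⊆ range (N / H + 1) := by
    intro a ha
    rw [Finset.mem_image] at ha
    obtain ⟨t, ht, rfl⟩ := ha
    rw [mem_range]
    have h1 := (hT t ht).1
    have h2 : t / H ≤ N / H := Nat.div_le_div_right h1.le
    omega
  have hcard : T.card ≤ N / H + 1 := by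
    rw [← Finset.card_image_of_injOn hinj]
    exact (Finset.card_le_card hsub).trans (by simp)
  have h1 : ((N / H : ℕ) : ℝ) ≤ (N : ℝ) / H := Nat.cast_div_le
  have h2 : (T.card : ℝ) ≤ ((N / H : ℕ) : ℝ) + 1 := by exact_mod_cast hcard
  linarith

theorem next_sum_bound {X : ℕ → ℝ} (hX : ∀ k, X k = 0 ∨ X k = 1) {nxt : ℕ → ℕ}
    (hn1 : ∀ t, X t = 1 → t < nxt t ∧ X (nxt t) = 1)
    (hn2 : ∀ t, X t = 1 → ∀ u, t < u → u < nxt t → X u = 0) {H : ℕ} (hH : 1 ≤ H) (N : ℕ) :
    |∑ t ∈ range N, X t * (-1 : ℝ) ^ (nxt t - t)|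
      ≤ |∑ t ∈ range N, X t * sig X H t| + (N / H + 1) := by
  classical
  set T := (range N).filter (fun t => X t = 1 ∧ t + H < nxt t) with hT
  have h1 : ∀ t ∈ range N, X t * (-1 : ℝ) ^ (nxt t - t) = X t * sig X H t
      + (if t ∈ T then (-1 : ℝ) ^ (nxt t - t) else 0) := by
    intro t ht
    rcases hX t with h | h
    · have : t ∉ T := by
        rw [hT, Finset.mem_filter]
        rintro ⟨-, h2, -⟩
        rw [h] at h2
        norm_num at h2
      rw [if_neg this, h]
      ring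
    · obtain ⟨h2, h3⟩ := hn1 t h
      by_cases hlong : t + H < nxt t
      · have hmem : t ∈ T := by
          rw [hT, Finset.mem_filter]
          exact ⟨ht, h, hlong⟩
        rw [if_pos hmem, sig_of_no_next, h]
        · ring
        · intro i hi hiH
          exact hn2 t h _ (by omega) (by omega)
      · have hmem : t ∉ T := by
          rw [hT, Finset.mem_filter]
          rintro ⟨-, -, h4⟩
          exact hlong h4
        have hg : t + (nxt t - t) = nxt t := by omega
        rw [if_neg hmem, sig_of_next (g := nxt t - t) (by omega) (by omega) (by rw [hg]; exact h3)]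
        · ring
        · intro i hi hi2
          exact hn2 t h _ (by omega) (by omega)
  rw [Finset.sum_congr rfl h1, Finset.sum_add_distrib]
  refine (abs_add_le _ _).trans (add_le_add le_rfl ?_)
  calc |∑ t ∈ range N, (if t ∈ T then (-1 : ℝ) ^ (nxt t - t) else 0)|
      ≤ ∑ t ∈ range N, |(if t ∈ T then (-1 : ℝ) ^ (nxt t - t) else 0)| :=
        Finset.abs_sum_le_sum_abs _ _
    _ = ∑ t ∈ range N, (if t ∈ T then (1 : ℝ) else 0) := by
        apply Finset.sum_congr rfl
        intro t _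
        split_ifs
        · rw [abs_pow, abs_neg, abs_one, one_pow]
        · simp
    _ = ((range N ∩ T).card : ℝ) := by
        rw [Finset.sum_ite_mem]
        simp
    _ ≤ (T.card : ℝ) := by exact_mod_cast Finset.card_le_card Finset.inter_subset_right
    _ ≤ N / H + 1 := by
        apply long_gaps (A := fun t => X t = 1) (nxt := nxt) hH
        · intro t ht u htu hu h
          rw [hn2 t ht u htu hu] at h
          norm_num at h
        · intro t ht
          rw [hT, Finset.mem_filter] at ht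
          exact ⟨Finset.mem_range.1 ht.1, ht.2.1, ht.2.2⟩

end Pool.Agent.Helper90.Twin
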