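import Pool.Agent.Helper90.TwinF

set_option autoImplicit false

open Finset

namespace Pool.Agent.Helper90.Twin

/-- `p` divides `6 k + 5` or `6 k + 7` -/
def bad (p k : ℕ) : Prop := p ∣ 6 * k + 5 ∨ p ∣ 6 * k + 7

instance (p k : ℕ) : Decidable (bad p k) := by unfold bad; infer_instance

noncomputable def yy (p k : ℕ) : ℝ := if bad p k then 1 else 0

/-- the primes in `[5, z]` -/
def Ps (z : ℕ) : Finset ℕ := (Icc 5 z).filter Nat.Prime

theorem mem_Ps {p z : ℕ} : p ∈ Ps z ↔ 5 ≤ p ∧ p ≤ z ∧ p.Prime := by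
  unfold Ps
  rw [Finset.mem_filter, Finset.mem_Icc]
  tauto

theorem Ps_mono {y z : ℕ} (h : y ≤ z) : Ps y ⊆ Ps z := by
  intro p hp
  rw [mem_Ps] at hp ⊢
  exact ⟨hp.1, hp.2.1.trans h, hp.2.2⟩

theorem card_root {p : ℕ} (hp : p.Prime) (h5 : 5 ≤ p) (c : ℕ) :
    ((range p).filter (fun x => p ∣ 6 * x + c)).card = 1 := by
  have : Fact p.Prime := ⟨hp⟩
  have h6 : ((6 : ℕ) : ZMod p) ≠ 0 := by
    rw [Ne, ZMod.natCast_eq_zero_iff]
    intro h
    have h1 : p ∣ 2 * 3 := by simpa using h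
    rcases (Nat.Prime.dvd_mul hp).1 h1 with h2 | h2
    · have := Nat.le_of_dvd (by norm_num) h2
      omega
    · have := Nat.le_of_dvd (by norm_num) h2
      omega
  rw [Finset.card_eq_one]
  refine ⟨(-(c : ZMod p) * ((6 : ℕ) : ZMod p)⁻¹).val, ?_⟩
  ext x
  rw [Finset.mem_filter, mem_range, Finset.mem_singleton]
  constructor
  · rintro ⟨hx, hdvd⟩
    have h1 : ((6 * x + c : ℕ) : ZMod p) = 0 := (ZMod.natCast_eq_zero_iff _ _).2 hdvd
    have h2 : (x : ZMod p) = -(c : ZMod p) * ((6 : ℕ) : ZMod p)⁻¹ := by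
      rw [eq_mul_inv_iff_mul_eq₀ h6]
      push_cast at h1 ⊢
      linear_combination h1
    rw [← h2, ZMod.val_natCast_of_lt hx]
  · intro hx
    have hlt : x < p := by
      rw [hx]
      exact ZMod.val_lt _
    refine ⟨hlt, ?_⟩
    rw [← ZMod.natCast_eq_zero_iff]
    have h2 : (x : ZMod p) = -(c : ZMod p) * ((6 : ℕ) : ZMod p)⁻¹ := by
      rw [hx, ZMod.natCast_zmod_val]
    push_cast
    rw [h2]
    have h6' : (6 : ZMod p) ≠ 0 := by exact_mod_cast h6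
    push_cast
    field_simp
    ring

theorem not_both {p k : ℕ} (h5 : 5 ≤ p) : ¬ (p ∣ 6 * k + 5 ∧ p ∣ 6 * k + 7) := by
  rintro ⟨h1, h2⟩
  have h3 : p ∣ (6 * k + 7) - (6 * k + 5) := Nat.dvd_sub h2 h1
  have h4 : (6 * k + 7) - (6 * k + 5) = 2 := by omega
  rw [h4] at h3
  have := Nat.le_of_dvd (by norm_num) h3
  omega

theorem yy_sum {p : ℕ} (hp : p.Prime) (h5 : 5 ≤ p) : ∑ x ∈ range p, yy p x = 2 := by
  have h1 : ∀ x, yy p x = (if p ∣ 6 * x + 5 then (1 : ℝ) else 0)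
      + (if p ∣ 6 * x + 7 then (1 : ℝ) else 0) := by
    intro x
    have := not_both (k := x) h5
    unfold yy bad
    by_cases ha : p ∣ 6 * x + 5 <;> by_cases hb : p ∣ 6 * x + 7 <;> simp [ha, hb]
    exact absurd ⟨ha, hb⟩ this
  simp_rw [h1]
  rw [Finset.sum_add_distrib, Finset.sum_boole, Finset.sum_boole, card_root hp h5,
    card_root hp h5]
  norm_num

theorem bad_per (p x : ℕ) : bad p (x + p) ↔ bad p x := by
  unfold bad
  have h1 : 6 * (x + p) + 5 = 6 * x + 5 + p * 6 := by ring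
  have h2 : 6 * (x + p) + 7 = 6 * x + 7 + p * 6 := by ring
  rw [h1, h2, Nat.dvd_add_left (Dvd.intro 6 rfl : p ∣ p * 6),
    Nat.dvd_add_left (Dvd.intro 6 rfl : p ∣ p * 6)]

theorem yy_per (p x : ℕ) : yy p (x + p) = yy p x := by
  unfold yy
  simp only [bad_per]

theorem sieveSys (z : ℕ) : SieveSys (Ps z) yy where
  odd := by
    intro p hp
    rw [mem_Ps] at hp
    exact hp.2.2.odd_of_ne_two (by omega)
  five := fun p hp => (mem_Ps.1 hp).1
  cop := by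
    intro p hp q hq hpq
    have h1 := (mem_Ps.1 (Finset.mem_coe.1 hp)).2.2
    have h2 := (mem_Ps.1 (Finset.mem_coe.1 hq)).2.2
    exact (Nat.coprime_primes h1 h2).2 hpq
  zero_one := by
    intro p _ x
    unfold yy
    split_ifs
    · exact Or.inr rfl
    · exact Or.inl rfl
  per := fun p _ x => yy_per p x
  two := by
    intro p hp
    rw [mem_Ps] at hp
    exact yy_sum hp.2.2 hp.1

theorem separated {p H : ℕ} (hp : p.Prime) (hH : 3 * H + 1 < p) (h5 : 5 ≤ p) (t i j : ℕ)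
    (hi : i ≤ H) (hj : j ≤ H) (hij : i ≠ j) (h1 : yy p (t + i) = 1) : yy p (t + j) = 0 := by
  have hb1 : bad p (t + i) := by
    unfold yy at h1
    by_contra h
    rw [if_neg h] at h1
    norm_num at h1
  unfold yy
  rw [if_neg]
  intro hb2
  have hpZ : Prime (p : ℤ) := Nat.prime_iff_prime_int.1 hp
  have key : ∀ e : ℤ, (e = 0 ∨ e = 1 ∨ e = -1) →
      (p : ℤ) ∣ 2 * (3 * ((i : ℤ) - j) + e) → False := by
    intro e he hdvd
    rcases hpZ.dvd_or_dvd hdvd with h | h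
    · have := Int.le_of_dvd (by norm_num) h
      omega
    · have h2 : |3 * ((i : ℤ) - j) + e| < p := by
        rw [abs_lt]
        constructor <;> omega
      have h3 := Int.eq_zero_of_abs_lt_dvd h h2
      omega
  rcases hb1 with ha | ha <;> rcases hb2 with hb | hb
  · apply key 0 (Or.inl rfl)
    have h2 : (p : ℤ) ∣ ((6 * (t + i) + 5 : ℕ) : ℤ) - ((6 * (t + j) + 5 : ℕ) : ℤ) :=
      dvd_sub (Int.natCast_dvd_natCast.2 ha) (Int.natCast_dvd_natCast.2 hb)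
    push_cast at h2
    have h3 : 6 * ((t : ℤ) + i) + 5 - (6 * ((t : ℤ) + j) + 5) = 2 * (3 * ((i : ℤ) - j) + 0) := by
      ring
    rwa [h3] at h2
  · apply key (-1) (Or.inr (Or.inr rfl))
    have h2 : (p : ℤ) ∣ ((6 * (t + i) + 5 : ℕ) : ℤ) - ((6 * (t + j) + 7 : ℕ) : ℤ) :=
      dvd_sub (Int.natCast_dvd_natCast.2 ha) (Int.natCast_dvd_natCast.2 hb)
    push_cast at h2
    have h3 : 6 * ((t : ℤ) + i) + 5 - (6 * ((t : ℤ) + j) + 7)
        = 2 * (3 * ((i : ℤ) - j) + (-1)) := by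
      ring
    rwa [h3] at h2
  · apply key 1 (Or.inr (Or.inl rfl))
    have h2 : (p : ℤ) ∣ ((6 * (t + i) + 7 : ℕ) : ℤ) - ((6 * (t + j) + 5 : ℕ) : ℤ) :=
      dvd_sub (Int.natCast_dvd_natCast.2 ha) (Int.natCast_dvd_natCast.2 hb)
    push_cast at h2
    have h3 : 6 * ((t : ℤ) + i) + 7 - (6 * ((t : ℤ) + j) + 5) = 2 * (3 * ((i : ℤ) - j) + 1) := by
      ring
    rwa [h3] at h2
  · apply key 0 (Or.inl rfl)
    have h2 : (p : ℤ) ∣ ((6 * (t + i) + 7 : ℕ) : ℤ) - ((6 * (t + j) + 7 : ℕ) : ℤ) :=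
      dvd_sub (Int.natCast_dvd_natCast.2 ha) (Int.natCast_dvd_natCast.2 hb)
    push_cast at h2
    have h3 : 6 * ((t : ℤ) + i) + 7 - (6 * ((t : ℤ) + j) + 7) = 2 * (3 * ((i : ℤ) - j) + 0) := by
      ring
    rwa [h3] at h2

/-! ### The density and its factors -/

noncomputable def Gz (z : ℕ) : ℝ := GG (Ps z)

noncomputable def Sz (z : ℕ) : ℝ := ∑ p ∈ Ps z, 1 / (p : ℝ)

theorem factor_pos {p z : ℕ} (hp : p ∈ Ps z) : (0 : ℝ) < 1 - 2 / (p : ℝ) := by
  have h5 : (5 : ℝ) ≤ p := by exact_mod_cast (mem_Ps.1 hp).1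
  rw [sub_pos, div_lt_one (by linarith)]
  linarith

theorem factor_le_one {p : ℕ} : 1 - 2 / (p : ℝ) ≤ 1 := by
  have : (0 : ℝ) ≤ 2 / (p : ℝ) := by positivity
  linarith

theorem Gz_pos (z : ℕ) : 0 < Gz z := Finset.prod_pos (fun _ hp => factor_pos hp)

theorem Gz_le_one (z : ℕ) : Gz z ≤ 1 :=
  Finset.prod_le_one (fun _ hp => (factor_pos hp).le) (fun _ _ => factor_le_one)

theorem Sz_nonneg (z : ℕ) : 0 ≤ Sz z := Finset.sum_nonneg (fun _ _ => by positivity)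

theorem inv_Gz_le (z : ℕ) : (Gz z)⁻¹ ≤ Real.exp (10 / 3 * Sz z) := by
  unfold Gz GG Sz
  rw [Finset.mul_sum, Real.exp_sum, ← Finset.prod_inv_distrib]
  apply Finset.prod_le_prod
  · intro p hp
    exact (inv_pos.2 (factor_pos hp)).le
  · intro p hp
    have h5 : (5 : ℝ) ≤ p := by exact_mod_cast (mem_Ps.1 hp).1
    have hf := factor_pos hp
    have h1 : (1 - 2 / (p : ℝ))⁻¹ = 2 / ((p : ℝ) - 2) + 1 := by
      have h2 : (p : ℝ) ≠ 0 := by linarith
      have h3 : (p : ℝ) - 2 ≠ 0 := by linarith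
      have h4 : 1 - 2 / (p : ℝ) = (p - 2) / p := by field_simp
      rw [h4, inv_div]
      field_simp
      ring
    rw [h1]
    refine (Real.add_one_le_exp _).trans ?_
    apply Real.exp_le_exp.2
    rw [div_le_iff₀ (by linarith)]
    have h6 : (10 : ℝ) / 3 * (1 / p) * (p - 2) = 10 / 3 - 20 / 3 * (1 / p) := by
      field_simp
      ring
    rw [h6]
    have h7 : (1 : ℝ) / p ≤ 1 / 5 := by
      apply one_div_le_one_div_of_le (by norm_num) h5
    linarith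

theorem Gz_le_exp (z : ℕ) : Gz z ≤ Real.exp (-2 * Sz z) := by
  unfold Gz GG Sz
  rw [Finset.mul_sum, Real.exp_sum]
  apply Finset.prod_le_prod
  · intro p hp
    exact (factor_pos hp).le
  · intro p hp
    have h := Real.add_one_le_exp (-2 * (1 / (p : ℝ)))
    have h1 : 1 - 2 / (p : ℝ) = -2 * (1 / (p : ℝ)) + 1 := by ring
    rw [h1]
    exact h

theorem cc_le {Y z k : ℕ} (hY : Y ≤ z) (hk : ∀ p ∈ Ps z \ Ps Y, 2 * k ≤ p) :
    cc (Ps z \ Ps Y) k ≤ (Gz z / Gz Y) ^ k := by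
  have h1 : Gz z / Gz Y = ∏ p ∈ Ps z \ Ps Y, (1 - 2 / (p : ℝ)) := by
    rw [div_eq_iff (Gz_pos Y).ne']
    unfold Gz GG
    rw [Finset.prod_sdiff (Ps_mono hY)]
  rw [h1, ← Finset.prod_pow]
  unfold cc
  apply Finset.prod_le_prod
  · intro p hp
    have h2 : (2 * k : ℝ) ≤ p := by exact_mod_cast hk p hp
    have h3 : (5 : ℝ) ≤ p := by exact_mod_cast (mem_Ps.1 (Finset.mem_sdiff.1 hp).1).1
    rw [sub_nonneg, div_le_one (by linarith)]
    exact h2
  · intro p hp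
    have h3 : (5 : ℝ) ≤ p := by exact_mod_cast (mem_Ps.1 (Finset.mem_sdiff.1 hp).1).1
    have h4 := one_add_mul_le_pow (a := -(2 / (p : ℝ))) (by
      have : (2 : ℝ) / p ≤ 2 := by
        rw [div_le_iff₀ (by linarith)]
        linarith
      linarith) k
    have h5 : 1 - 2 * (k : ℝ) / p = 1 + k * -(2 / (p : ℝ)) := by ring
    rw [h5]
    refine h4.trans (le_of_eq ?_)
    ring

end Pool.Agent.Helper90.Twin
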