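import Pool.Agent.Helper90.TwinJ

set_option autoImplicit false

open Finset Filter Topology

namespace Pool.Agent.Helper90.Twin

/-! ### Counting the sifted set -/

theorem count_bound (z m N : ℕ) :
    |∑ t ∈ range N, Xz z t - N * Gz z| ≤ errB (Ps z) 1 m N := by
  have hs := sieveSys z
  have h := brun (s := Ps z) (w := yy) (κ := 2) (fun p hp => hs.pos hp) hs.cop
    (fun p hp x => hs.y_nonneg hp x) (fun p hp x => hs.y_le_one hp x) hs.per (by norm_num)
    (fun p hp => (hs.two p hp).le) m N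
  have e1 : ∏ p ∈ Ps z, (1 - (∑ x ∈ range p, yy p x) / (p : ℝ)) = Gz z := by
    unfold Gz GG
    apply Finset.prod_congr rfl
    intro p hp
    rw [hs.two p hp]
  rw [e1] at h
  unfold errB
  push_cast
  simp only [mul_one]
  exact h

theorem alt_count_bound (z m N : ℕ) :
    |∑ t ∈ range N, (-1 : ℝ) ^ t * Xz z t| ≤ 3 * errB (insert 2 (Ps z)) 1 m N := by
  have hs := sieveSys z
  have h2 : 2 ∉ Ps z := by
    rw [mem_Ps]
    omega
  set w : ℕ → ℕ → ℝ := fun p t => if p = 2 then ((t % 2 : ℕ) : ℝ) else yy p t with hw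
  have hw2 : ∀ t, w 2 t = ((t % 2 : ℕ) : ℝ) := fun t => by simp [hw]
  have hwp : ∀ p ∈ Ps z, ∀ t, w p t = yy p t := by
    intro p hp t
    have : p ≠ 2 := by
      rintro rfl
      exact h2 hp
    simp [hw, this]
  have h := brun (s := insert 2 (Ps z)) (w := w) (κ := 2) ?_ ?_ ?_ ?_ ?_ (by norm_num) ?_ m N
  rotate_left
  · intro p hp
    rcases Finset.mem_insert.1 hp with rfl | hp
    · norm_num
    · exact hs.pos hp
  · intro p hp q hq hpq
    have hp' : p.Prime := by
      rcases Finset.mem_insert.1 (Finset.mem_coe.1 hp) with rfl | hp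
      · norm_num
      · exact (mem_Ps.1 hp).2.2
    have hq' : q.Prime := by
      rcases Finset.mem_insert.1 (Finset.mem_coe.1 hq) with rfl | hq
      · norm_num
      · exact (mem_Ps.1 hq).2.2
    exact (Nat.coprime_primes hp' hq').2 hpq
  · intro p hp x
    rcases Finset.mem_insert.1 hp with rfl | hp
    · rw [hw2]
      positivity
    · rw [hwp p hp]
      exact hs.y_nonneg hp x
  · intro p hp x
    rcases Finset.mem_insert.1 hp with rfl | hp
    · rw [hw2]
      exact_mod_cast (by omega : x % 2 ≤ 1)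
    · rw [hwp p hp]
      exact hs.y_le_one hp x
  · intro p hp x
    rcases Finset.mem_insert.1 hp with rfl | hp
    · rw [hw2, hw2]
      simp
    · rw [hwp p hp, hwp p hp]
      exact hs.per p hp x
  · intro p hp
    rcases Finset.mem_insert.1 hp with rfl | hp
    · simp [hw2, Finset.sum_range_succ]
    · simp_rw [hwp p hp]
      exact (hs.two p hp).le
  have e1 : ∏ p ∈ insert 2 (Ps z), (1 - (∑ x ∈ range p, w p x) / (p : ℝ)) = 1 / 2 * Gz z := by
    rw [Finset.prod_insert h2]
    congr 1
    · simp [hw2, Finset.sum_range_succ]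
      norm_num
    · unfold Gz GG
      apply Finset.prod_congr rfl
      intro p hp
      simp_rw [hwp p hp]
      rw [hs.two p hp]
  have e2 : ∀ t, ∏ p ∈ insert 2 (Ps z), (1 - w p t) = (1 + (-1 : ℝ) ^ t) / 2 * Xz z t := by
    intro t
    rw [Finset.prod_insert h2, hw2]
    congr 1
    · rcases Nat.even_or_odd t with h3 | h3
      · rw [h3.neg_one_pow, Nat.even_iff.1 h3]
        norm_num
      · rw [h3.neg_one_pow, Nat.odd_iff.1 h3]
        norm_num
    · unfold Xz XX
      apply Finset.prod_congr rfl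
      intro p hp
      rw [hwp p hp]
  rw [e1] at h
  simp_rw [e2] at h
  have e3 : 2 * (N : ℝ) * ((2 * ∑ p ∈ insert 2 (Ps z), 1 / (p : ℝ)) ^ m / (m.factorial : ℝ))
      + (1 + 2 * ((insert 2 (Ps z)).card : ℝ)) ^ m = errB (insert 2 (Ps z)) 1 m N := by
    unfold errB
    push_cast
    simp only [mul_one]
  rw [e3] at h
  have h4 := count_bound z m N
  have h5 : errB (Ps z) 1 m N ≤ errB (insert 2 (Ps z)) 1 m N :=
    errB_mono_card (Finset.subset_insert _ _) le_rfl m N
  have e4 : ∑ t ∈ range N, (-1 : ℝ) ^ t * Xz z t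
      = 2 * (∑ t ∈ range N, (1 + (-1 : ℝ) ^ t) / 2 * Xz z t - N * (1 / 2 * Gz z))
        - (∑ t ∈ range N, Xz z t - N * Gz z) := by
    have e5 : ∑ t ∈ range N, (1 + (-1 : ℝ) ^ t) / 2 * Xz z t
        = (∑ t ∈ range N, Xz z t) / 2 + (∑ t ∈ range N, (-1 : ℝ) ^ t * Xz z t) / 2 := by
      rw [Finset.sum_div, Finset.sum_div, ← Finset.sum_add_distrib]
      apply Finset.sum_congr rfl
      intro t _
      ring
    rw [e5]
    ring
  rw [e4]
  have h6 := abs_le.1 h
  have h7 := abs_le.1 h4
  rw [abs_le]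
  constructor <;> linarith [h6.1, h6.2, h7.1, h7.2]

/-! ### The error term -/

theorem exists_good_m (R : ℕ) {lam : ℝ} (hlam : 1 ≤ lam) {ε : ℝ} (hε : 0 < ε) :
    ∃ C : ℝ, 0 < C ∧ ∀ᶠ z : ℕ in atTop, ∀ N : ℕ, C * (Sz z * Real.log z) ≤ Real.log N →
      1 ≤ ε * (N * Gz z) ∧ ∃ m : ℕ,
        (R + 1) * (2 * lam / Gz z) ^ (R + 1) * errB (insert 2 (Ps z)) (R + 2) m N
          ≤ ε * (N * Gz z) := by
  set κ : ℝ := 2 * ((R : ℝ) + 2) with hκ
  set κ' : ℝ := 10 / 3 * ((R : ℝ) + 2) with hκ'
  have hκ0 : 0 < κ := by positivity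
  have hκ'0 : 0 < κ' := by positivity
  set B : ℝ := Real.exp 2 * κ + (κ' + 1) / 2 with hB
  have hB0 : 0 < B := by positivity
  set D : ℝ := 2 * ((R : ℝ) + 1) * (2 * lam) ^ (R + 1) / ε with hD
  have hD0 : 0 < D := by positivity
  refine ⟨|Real.log D| + κ' + 2 * (B + 1), by positivity, ?_⟩
  have hS1 : ∀ᶠ z : ℕ in atTop, 1 ≤ Sz z := tendsto_Sz.eventually_ge_atTop 1
  have hS2 : ∀ᶠ z : ℕ in atTop, Real.log (2 * D) ≤ Sz z := tendsto_Sz.eventually_ge_atTop _
  have hz1 : ∀ᶠ z : ℕ in atTop, κ + 1 ≤ (z : ℝ) := tendsto_natCast_atTop_atTop.eventually_ge_atTop _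
  have hz2 : ∀ᶠ z : ℕ in atTop, (3 : ℝ) ≤ (z : ℝ) :=
    tendsto_natCast_atTop_atTop.eventually_ge_atTop _
  filter_upwards [hS1, hS2, hz1, hz2] with z hS1 hS2 hz1 hz2
  intro N hN
  set S := Sz z with hSdef
  set G := Gz z with hGdef
  have hG : 0 < G := Gz_pos z
  have hG1 : G ≤ 1 := Gz_le_one z
  have hlogz : 1 ≤ Real.log z := by
    rw [Real.le_log_iff_exp_le (by linarith)]
    linarith [Real.exp_one_lt_d9]
  have hGinv : (G⁻¹) ^ (R + 2) ≤ Real.exp (κ' * S) := by
    calc (G⁻¹) ^ (R + 2) ≤ (Real.exp (10 / 3 * S)) ^ (R + 2) :=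
          pow_le_pow_left₀ (inv_pos.2 hG).le (inv_Gz_le z) _
      _ = Real.exp (κ' * S) := by
          rw [← Real.exp_nat_mul]
          congr 1
          rw [hκ']
          push_cast
          ring
  have hSlog : S ≤ S * Real.log z := by nlinarith only [hlogz, hS1]
  have hSlog1 : 1 ≤ S * Real.log z := by nlinarith only [hS1, hSlog]
  -- N is large
  have hC1 : Real.log D + κ' * S + 2 * (B + 1) * (S * Real.log z) ≤ Real.log N := by
    have h1 : Real.log D ≤ |Real.log D| * (S * Real.log z) := by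
      calc Real.log D ≤ |Real.log D| := le_abs_self _
        _ = |Real.log D| * 1 := (mul_one _).symm
        _ ≤ _ := mul_le_mul_of_nonneg_left hSlog1 (abs_nonneg _)
    have h2 : κ' * S ≤ κ' * (S * Real.log z) := mul_le_mul_of_nonneg_left hSlog hκ'0.le
    calc Real.log D + κ' * S + 2 * (B + 1) * (S * Real.log z)
        ≤ |Real.log D| * (S * Real.log z) + κ' * (S * Real.log z)
          + 2 * (B + 1) * (S * Real.log z) := by linarith only [h1, h2]
      _ = (|Real.log D| + κ' + 2 * (B + 1)) * (S * Real.log z) := by ring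
      _ ≤ _ := hN
  have hNpos : 0 < Real.log N := by
    have h3 : 0 < (|Real.log D| + κ' + 2 * (B + 1)) * (S * Real.log z) := by positivity
    linarith only [hN, h3]
  have hN0 : (0 : ℝ) < N := by
    rcases Nat.eq_zero_or_pos N with h | h
    · subst h
      simp at hNpos
    · exact_mod_cast h
  have hNbig : D * (Real.exp (κ' * S) * Real.exp (2 * (B + 1) * (S * Real.log z))) ≤ N := by
    calc D * (Real.exp (κ' * S) * Real.exp (2 * (B + 1) * (S * Real.log z)))
        = Real.exp (Real.log D) * (Real.exp (κ' * S) *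
            Real.exp (2 * (B + 1) * (S * Real.log z))) := by rw [Real.exp_log hD0]
      _ = Real.exp (Real.log D + (κ' * S + 2 * (B + 1) * (S * Real.log z))) := by
          rw [← Real.exp_add, ← Real.exp_add]
      _ ≤ Real.exp (Real.log N) := by
          apply Real.exp_le_exp.2
          linarith only [hC1]
      _ = N := Real.exp_log hN0
  have hDge : 2 / ε ≤ D := by
    rw [hD]
    apply div_le_div_of_nonneg_right _ hε.le
    have h4 : (1 : ℝ) ≤ (2 * lam) ^ (R + 1) := one_le_pow₀ (by linarith only [hlam])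
    have h5 : (1 : ℝ) ≤ (R : ℝ) + 1 := by
      have : (0 : ℝ) ≤ R := Nat.cast_nonneg _
      linarith
    nlinarith only [h4]
  have hexp1 : 1 ≤ Real.exp (2 * (B + 1) * (S * Real.log z)) := by
    apply Real.one_le_exp
    positivity
  constructor
  · -- 1 ≤ ε N G
    have h6 : (2 / ε) * (G⁻¹) ≤ N := by
      calc (2 / ε) * (G⁻¹) ≤ D * (Real.exp (κ' * S) *
            Real.exp (2 * (B + 1) * (S * Real.log z))) := by
            apply mul_le_mul hDge _ (inv_pos.2 hG).le hD0.le
            calc G⁻¹ = (G⁻¹) ^ 1 := (pow_one _).symm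
              _ ≤ (G⁻¹) ^ (R + 2) := pow_le_pow_right₀ ((one_le_inv₀ hG).2 hG1) (by omega)
              _ ≤ Real.exp (κ' * S) := hGinv
              _ = Real.exp (κ' * S) * 1 := (mul_one _).symm
              _ ≤ _ := mul_le_mul_of_nonneg_left hexp1 (Real.exp_pos _).le
        _ ≤ N := hNbig
    have h7 : (2 / ε) ≤ N * G := by
      rw [← div_eq_mul_inv, div_le_iff₀ hG] at h6
      exact h6
    rw [div_le_iff₀ hε] at h7
    linarith only [h7]
  · refine ⟨⌈B * S⌉₊, ?_⟩
    set m := ⌈B * S⌉₊ with hm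
    have hm1 : B * S ≤ m := Nat.le_ceil _
    have hm2 : (m : ℝ) ≤ (B + 1) * S := by
      have h8 : (m : ℝ) < B * S + 1 := Nat.ceil_lt_add_one (by positivity)
      linarith only [hS1, h8]
    have hsum2 : ∑ p ∈ insert 2 (Ps z), 1 / (p : ℝ) ≤ 2 * S := by
      rw [Finset.sum_insert (by rw [mem_Ps]; omega)]
      have : ∑ p ∈ Ps z, 1 / (p : ℝ) = S := rfl
      rw [this]
      push_cast
      linarith only [hS1]
    have hsum0 : 0 ≤ ∑ p ∈ insert 2 (Ps z), 1 / (p : ℝ) :=
      Finset.sum_nonneg (fun _ _ => by positivity)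
    have hcard : ((insert 2 (Ps z)).card : ℝ) ≤ z := by
      have h9 : insert 2 (Ps z) ⊆ Icc 1 z := by
        intro p hp
        rcases Finset.mem_insert.1 hp with rfl | hp
        · rw [Finset.mem_Icc]
          have : 3 ≤ z := by exact_mod_cast hz2
          omega
        · rw [mem_Ps] at hp
          rw [Finset.mem_Icc]
          omega
      have h10 := Finset.card_le_card h9
      rw [Nat.card_Icc] at h10
      exact_mod_cast (by omega : (insert 2 (Ps z)).card ≤ z)
    -- first part of the error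
    have hA : (2 * ((R + 2 : ℕ) : ℝ) * ∑ p ∈ insert 2 (Ps z), 1 / (p : ℝ)) ^ m
        / (m.factorial : ℝ) ≤ Real.exp (-(κ' + 1) * S) := by
      have h11 : (2 * ((R + 2 : ℕ) : ℝ) * ∑ p ∈ insert 2 (Ps z), 1 / (p : ℝ)) ^ m
          ≤ (2 * κ * S) ^ m := by
        apply pow_le_pow_left₀ (by positivity)
        calc 2 * ((R + 2 : ℕ) : ℝ) * ∑ p ∈ insert 2 (Ps z), 1 / (p : ℝ)
            ≤ 2 * ((R + 2 : ℕ) : ℝ) * (2 * S) :=
              mul_le_mul_of_nonneg_left hsum2 (by positivity)
          _ = 2 * κ * S := by rw [hκ]; push_cast; ring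
      have h12 : (2 * κ * S) ^ m / (m.factorial : ℝ)
          = (Real.exp 2 * (2 * κ * S)) ^ m / (m.factorial : ℝ) * Real.exp (-(2 * m)) := by
        rw [mul_pow (Real.exp 2) (2 * κ * S) m, ← Real.exp_nat_mul]
        have h13 : Real.exp ((m : ℝ) * 2) * Real.exp (-(2 * m)) = 1 := by
          rw [← Real.exp_add]
          rw [show (m : ℝ) * 2 + -(2 * m) = 0 by ring, Real.exp_zero]
        calc (2 * κ * S) ^ m / (m.factorial : ℝ)
            = (2 * κ * S) ^ m / (m.factorial : ℝ) * (Real.exp ((m : ℝ) * 2)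
              * Real.exp (-(2 * m))) := by rw [h13, mul_one]
          _ = _ := by ring
      have h14 : (Real.exp 2 * (2 * κ * S)) ^ m / (m.factorial : ℝ)
          ≤ Real.exp (Real.exp 2 * (2 * κ * S)) :=
        Real.pow_div_factorial_le_exp _ (by positivity) m
      calc (2 * ((R + 2 : ℕ) : ℝ) * ∑ p ∈ insert 2 (Ps z), 1 / (p : ℝ)) ^ m
          / (m.factorial : ℝ) ≤ (2 * κ * S) ^ m / (m.factorial : ℝ) :=
            div_le_div_of_nonneg_right h11 (by positivity)
        _ = (Real.exp 2 * (2 * κ * S)) ^ m / (m.factorial : ℝ) * Real.exp (-(2 * m)) := h12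
        _ ≤ Real.exp (Real.exp 2 * (2 * κ * S)) * Real.exp (-(2 * m)) :=
            mul_le_mul_of_nonneg_right h14 (Real.exp_pos _).le
        _ = Real.exp (Real.exp 2 * (2 * κ * S) + -(2 * m)) := (Real.exp_add _ _).symm
        _ ≤ Real.exp (-(κ' + 1) * S) := by
            apply Real.exp_le_exp.2
            have h15 : 2 * (B * S) ≤ 2 * m := by linarith only [hm1]
            have h15' : Real.exp 2 * (2 * κ * S) + (κ' + 1) * S = 2 * (B * S) := by
              rw [hB]
              ring
            linarith only [hm1, h15']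
    -- second part
    have hBd : (1 + 2 * ((R + 2 : ℕ) : ℝ) * ((insert 2 (Ps z)).card : ℝ)) ^ m
        ≤ Real.exp (2 * (B + 1) * (S * Real.log z)) := by
      have h16 : 1 + 2 * ((R + 2 : ℕ) : ℝ) * ((insert 2 (Ps z)).card : ℝ) ≤ (z : ℝ) ^ 2 := by
        have h17 : 2 * ((R + 2 : ℕ) : ℝ) * ((insert 2 (Ps z)).card : ℝ) ≤ κ * z := by
          have : 2 * ((R + 2 : ℕ) : ℝ) = κ := by rw [hκ]; push_cast; ring
          rw [this]
          exact mul_le_mul_of_nonneg_left hcard hκ0.le
        nlinarith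
      have h18 : (z : ℝ) ^ 2 = Real.exp (2 * Real.log z) := by
        rw [mul_comm, Real.exp_mul, Real.exp_log (by linarith)]
        norm_cast
      calc (1 + 2 * ((R + 2 : ℕ) : ℝ) * ((insert 2 (Ps z)).card : ℝ)) ^ m
          ≤ ((z : ℝ) ^ 2) ^ m := pow_le_pow_left₀ (by positivity) h16 m
        _ = Real.exp (m * (2 * Real.log z)) := by rw [h18, ← Real.exp_nat_mul]
        _ ≤ _ := by
            apply Real.exp_le_exp.2
            have h19 : (m : ℝ) * (2 * Real.log z) ≤ ((B + 1) * S) * (2 * Real.log z) :=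
              mul_le_mul_of_nonneg_right hm2 (by linarith only [hlogz])
            linarith only [h19]
    unfold errB
    set P := ((R : ℝ) + 1) * (2 * lam / G) ^ (R + 1) with hP
    have hPeq : P * 2 = ε * D * (G⁻¹) ^ (R + 1) := by
      rw [hP, hD, div_pow, inv_pow]
      field_simp
    have hP0 : 0 < P := by positivity
    have h20 : P * (2 * N * ((2 * ((R + 2 : ℕ) : ℝ) * ∑ p ∈ insert 2 (Ps z), 1 / (p : ℝ)) ^ m
        / (m.factorial : ℝ))) ≤ ε / 2 * (N * G) := by
      calc P * (2 * N * ((2 * ((R + 2 : ℕ) : ℝ) * ∑ p ∈ insert 2 (Ps z), 1 / (p : ℝ)) ^ m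
        / (m.factorial : ℝ)))
          ≤ P * (2 * N * Real.exp (-(κ' + 1) * S)) := by
            apply mul_le_mul_of_nonneg_left _ hP0.le
            exact mul_le_mul_of_nonneg_left hA (by positivity)
        _ = ε * D * N * (G * (G⁻¹) ^ (R + 2) * Real.exp (-(κ' + 1) * S)) := by
            have h21 : G * (G⁻¹) ^ (R + 2) = (G⁻¹) ^ (R + 1) := by
              rw [pow_succ, mul_comm, mul_assoc, inv_mul_cancel₀ hG.ne', mul_one]
            rw [h21]
            calc P * (2 * N * Real.exp (-(κ' + 1) * S))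
                = (P * 2) * (N * Real.exp (-(κ' + 1) * S)) := by ring
              _ = _ := by rw [hPeq]; ring
        _ ≤ ε * D * N * (G * Real.exp (κ' * S) * Real.exp (-(κ' + 1) * S)) := by
            apply mul_le_mul_of_nonneg_left _ (by positivity)
            apply mul_le_mul_of_nonneg_right _ (Real.exp_pos _).le
            exact mul_le_mul_of_nonneg_left hGinv hG.le
        _ = ε * D * (N * G) * Real.exp (-S) := by
            have h22 : Real.exp (κ' * S) * Real.exp (-(κ' + 1) * S) = Real.exp (-S) := by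
              rw [← Real.exp_add]
              congr 1
              ring
            calc ε * D * N * (G * Real.exp (κ' * S) * Real.exp (-(κ' + 1) * S))
                = ε * D * (N * G) * (Real.exp (κ' * S) * Real.exp (-(κ' + 1) * S)) := by ring
              _ = _ := by rw [h22]
        _ ≤ ε * D * (N * G) * (1 / (2 * D)) := by
            apply mul_le_mul_of_nonneg_left _ (by positivity)
            rw [Real.exp_neg, one_div]
            apply inv_anti₀ (by positivity)
            rwa [Real.log_le_iff_le_exp (by positivity)] at hS2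
        _ = ε / 2 * (N * G) := by
            field_simp
    have h23 : P * (1 + 2 * ((R + 2 : ℕ) : ℝ) * ((insert 2 (Ps z)).card : ℝ)) ^ m
        ≤ ε / 2 * (N * G) := by
      calc P * (1 + 2 * ((R + 2 : ℕ) : ℝ) * ((insert 2 (Ps z)).card : ℝ)) ^ m
          ≤ P * Real.exp (2 * (B + 1) * (S * Real.log z)) :=
            mul_le_mul_of_nonneg_left hBd hP0.le
        _ = ε / 2 * G * (D * ((G⁻¹) ^ (R + 2) * Real.exp (2 * (B + 1) * (S * Real.log z)))) := by
            have h21 : G * (G⁻¹) ^ (R + 2) = (G⁻¹) ^ (R + 1) := by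
              rw [pow_succ, mul_comm, mul_assoc, inv_mul_cancel₀ hG.ne', mul_one]
            have h24 : P = ε / 2 * D * (G * (G⁻¹) ^ (R + 2)) := by
              rw [h21]
              linarith only [hPeq]
            rw [h24]
            ring
        _ ≤ ε / 2 * G * (D * (Real.exp (κ' * S) * Real.exp (2 * (B + 1) * (S * Real.log z)))) := by
            apply mul_le_mul_of_nonneg_left _ (by positivity)
            apply mul_le_mul_of_nonneg_left _ hD0.le
            exact mul_le_mul_of_nonneg_right hGinv (Real.exp_pos _).le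
        _ ≤ ε / 2 * G * N := mul_le_mul_of_nonneg_left hNbig (by positivity)
        _ = _ := by ring
    rw [mul_add]
    linarith only [h20, h23]

end Pool.Agent.Helper90.Twin
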