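import Pool.Agent.Helper90.TwinK

set_option autoImplicit false

open Finset Filter Topology

namespace Pool.Agent.Helper90.Twin

theorem tendsto_inv_Gz : Tendsto (fun z => (Gz z)⁻¹) atTop atTop := by
  have h1 : Tendsto (fun z => 2 * Sz z) atTop atTop := tendsto_Sz.const_mul_atTop (by norm_num)
  refine tendsto_atTop_mono (fun z => ?_) h1
  have h2 : Real.exp (2 * Sz z) ≤ (Gz z)⁻¹ := by
    rw [← inv_inv (Real.exp (2 * Sz z)), ← Real.exp_neg]
    apply inv_anti₀ (Gz_pos z)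
    have h3 := Gz_le_exp z
    rwa [neg_mul] at h3
  have h4 := Real.add_one_le_exp (2 * Sz z)
  linarith

theorem LL_le (z : ℕ) (hz : 1 ≤ z) : LL z ≤ 2 * Real.log z + 1 := by
  unfold LL
  have h1 : (2 : ℝ) ^ (Nat.log 2 z) ≤ z := by
    exact_mod_cast Nat.pow_log_le_self 2 (by omega)
  have h2 : (Nat.log 2 z : ℝ) * Real.log 2 ≤ Real.log z := by
    rw [← Real.log_pow]
    exact Real.log_le_log (by positivity) h1
  have h3 : (1 : ℝ) / 2 ≤ Real.log 2 := by linarith [Real.log_two_gt_d9]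
  have h4 : (0 : ℝ) ≤ (Nat.log 2 z : ℝ) := Nat.cast_nonneg _
  nlinarith

theorem Yf_le {lam : ℝ} (hl : 1 ≤ lam) (z : ℕ) : (Yf lam z : ℝ) ≤ 7 * lam * (Gz z)⁻¹ := by
  have h1 := Hf_le hl z
  have h2 := one_le_div_Gz hl z
  unfold Yf
  push_cast
  have h3 : 7 * lam * (Gz z)⁻¹ = 3 * (2 * lam / Gz z) + lam / Gz z := by ring
  rw [h3]
  linarith

theorem eventually_Yf_le {lam : ℝ} (hl : 1 ≤ lam) : ∀ᶠ z : ℕ in atTop, Yf lam z ≤ z := by
  have h1 : ∀ᶠ x : ℝ in atTop, ‖Real.log x ^ 14‖ ≤ (7 * lam * Real.exp 14 * 3 ^ 14)⁻¹ * ‖id x‖ :=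
    (Asymptotics.isLittleO_iff.1 (Real.isLittleO_pow_log_id_atTop (n := 14))) (by positivity)
  have h2 := tendsto_natCast_atTop_atTop (R := ℝ) |>.eventually h1
  filter_upwards [h2, eventually_ge_atTop 3] with z hz hz3
  have hz3' : (3 : ℝ) ≤ z := by exact_mod_cast hz3
  have hlogz : 1 ≤ Real.log z := by
    rw [Real.le_log_iff_exp_le (by linarith)]
    linarith [Real.exp_one_lt_d9]
  have h4 : LL z ≤ 3 * Real.log z := by
    have := LL_le z (by omega)
    linarith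
  have h5 : (Yf lam z : ℝ) ≤ z := by
    calc (Yf lam z : ℝ) ≤ 7 * lam * (Gz z)⁻¹ := Yf_le hl z
      _ ≤ 7 * lam * (Real.exp 14 * LL z ^ 14) :=
          mul_le_mul_of_nonneg_left (inv_Gz_le_pow z) (by positivity)
      _ ≤ 7 * lam * (Real.exp 14 * (3 * Real.log z) ^ 14) := by
          apply mul_le_mul_of_nonneg_left _ (by positivity)
          apply mul_le_mul_of_nonneg_left _ (Real.exp_pos _).le
          exact pow_le_pow_left₀ (by linarith [LL_ge_one z]) h4 14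
      _ = (7 * lam * Real.exp 14 * 3 ^ 14) * Real.log z ^ 14 := by ring
      _ ≤ (7 * lam * Real.exp 14 * 3 ^ 14) * ((7 * lam * Real.exp 14 * 3 ^ 14)⁻¹ * z) := by
          apply mul_le_mul_of_nonneg_left _ (by positivity)
          have h6 : ‖Real.log (z : ℝ) ^ 14‖ = Real.log z ^ 14 := by
            rw [Real.norm_eq_abs, abs_of_nonneg (by positivity)]
          have h7 : ‖id (z : ℝ)‖ = z := by
            simp
          rw [h6, h7] at hz
          exact hz
      _ = z := by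
          rw [← mul_assoc, mul_inv_cancel₀ (by positivity), one_mul]
  exact_mod_cast h5

theorem eventually_Hf_ge {lam : ℝ} (hl : 1 ≤ lam) (K : ℕ) : ∀ᶠ z : ℕ in atTop, K ≤ Hf lam z := by
  filter_upwards [tendsto_inv_Gz.eventually_ge_atTop (K : ℝ)] with z hz
  have h1 := Hf_ge (lam := lam) z
  have h2 : (Gz z)⁻¹ ≤ lam / Gz z := by
    rw [div_eq_mul_inv]
    have := inv_pos.2 (Gz_pos z)
    nlinarith
  exact_mod_cast hz.trans (h2.trans h1)

theorem eventually_Phi_le {lam : ℝ} (hl : 1 ≤ lam) (K : ℕ) {ε : ℝ} (hε : 0 < ε) :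
    ∀ᶠ z : ℕ in atTop, Phi lam K z ≤ ε := by
  -- the auxiliary constant
  set A : ℝ := Real.sqrt (7 * lam) * (Real.exp 14 * 3 ^ 14) ^ K with hA
  have hA0 : 0 < A := by
    rw [hA]
    have : 0 < Real.sqrt (7 * lam) := Real.sqrt_pos.2 (by linarith)
    positivity
  have h1 : ∀ᶠ x : ℝ in atTop, ‖Real.log x ^ (2 * (14 * K))‖ ≤ (ε / A) ^ 2 * ‖id x‖ :=
    (Asymptotics.isLittleO_iff.1 (Real.isLittleO_pow_log_id_atTop (n := 2 * (14 * K)))) (by positivity)
  have hw : Tendsto (fun z => 7 * lam * (Gz z)⁻¹) atTop atTop :=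
    tendsto_inv_Gz.const_mul_atTop (by linarith)
  filter_upwards [hw.eventually h1, hw.eventually_ge_atTop 3] with z hz hz3
  set w := 7 * lam * (Gz z)⁻¹ with hwdef
  have hw0 : 0 < w := by linarith
  have hlogw : 1 ≤ Real.log w := by
    rw [Real.le_log_iff_exp_le (by linarith)]
    linarith [Real.exp_one_lt_d9]
  have hY1 : 1 ≤ Yf lam z := by unfold Yf; omega
  have hY0 : (0 : ℝ) < Yf lam z := by exact_mod_cast hY1
  have hYw : (Yf lam z : ℝ) ≤ w := Yf_le hl z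
  have hLY : LL (Yf lam z) ≤ 3 * Real.log w := by
    have h2 := LL_le (Yf lam z) hY1
    have h3 : Real.log (Yf lam z) ≤ Real.log w := Real.log_le_log hY0 hYw
    linarith
  have h4 : ((Gz (Yf lam z))⁻¹) ^ K ≤ (Real.exp 14 * 3 ^ 14) ^ K * Real.log w ^ (14 * K) := by
    calc ((Gz (Yf lam z))⁻¹) ^ K ≤ (Real.exp 14 * LL (Yf lam z) ^ 14) ^ K :=
          pow_le_pow_left₀ (inv_pos.2 (Gz_pos _)).le (inv_Gz_le_pow _) K
      _ ≤ (Real.exp 14 * (3 * Real.log w) ^ 14) ^ K := by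
          apply pow_le_pow_left₀ (by have := LL_ge_one (Yf lam z); positivity)
          apply mul_le_mul_of_nonneg_left _ (Real.exp_pos _).le
          exact pow_le_pow_left₀ (by linarith [LL_ge_one (Yf lam z)]) hLY 14
      _ = _ := by rw [mul_pow 3, ← mul_assoc, mul_pow, ← pow_mul]
  have h5 : Real.sqrt (Gz z) = Real.sqrt (7 * lam) / Real.sqrt w := by
    rw [← Real.sqrt_div (by linarith), hwdef]
    congr 1
    have := (Gz_pos z).ne'
    field_simp
  have hsw : 0 < Real.sqrt w := Real.sqrt_pos.2 hw0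
  have h6 : Real.log w ^ (14 * K) ≤ ε / A * Real.sqrt w := by
    have h7 : (Real.log w ^ (14 * K)) ^ 2 ≤ (ε / A * Real.sqrt w) ^ 2 := by
      rw [mul_pow, Real.sq_sqrt hw0.le, ← pow_mul, mul_comm (14 * K) 2]
      have h8 : ‖Real.log w ^ (2 * (14 * K))‖ = Real.log w ^ (2 * (14 * K)) := by
        rw [Real.norm_eq_abs, abs_of_nonneg (by positivity)]
      have h9 : ‖id w‖ = w := by
        simp only [id]
        rw [Real.norm_eq_abs, abs_of_pos hw0]
      rw [h8, h9] at hz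
      exact hz
    exact le_of_sq_le_sq h7 (by positivity)
  unfold Phi
  rw [h5]
  calc Real.sqrt (7 * lam) / Real.sqrt w * ((Gz (Yf lam z))⁻¹) ^ K
      ≤ Real.sqrt (7 * lam) / Real.sqrt w *
          ((Real.exp 14 * 3 ^ 14) ^ K * (ε / A * Real.sqrt w)) := by
        apply mul_le_mul_of_nonneg_left _ (by positivity)
        refine h4.trans ?_
        exact mul_le_mul_of_nonneg_left h6 (by positivity)
    _ = A * (ε / A) := by
        rw [hA]
        field_simp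
    _ = ε := by field_simp

/-- the choice of `R` -/
theorem exists_R (a : ℝ) {ε : ℝ} (hε : 0 < ε) :
    ∃ R : ℕ, a ^ (R + 1) / (R.factorial : ℝ) ≤ ε := by
  have h1 : Tendsto (fun n : ℕ => a ^ n / (n.factorial : ℝ)) atTop (𝓝 0) :=
    FloorSemiring.tendsto_pow_div_factorial_atTop a
  have h2 : Tendsto (fun n : ℕ => a * (a ^ n / (n.factorial : ℝ))) atTop (𝓝 (a * 0)) :=
    h1.const_mul a
  rw [mul_zero] at h2
  obtain ⟨R, hR⟩ := (h2.eventually (gt_mem_nhds hε)).exists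
  refine ⟨R, ?_⟩
  have h3 : a ^ (R + 1) / (R.factorial : ℝ) = a * (a ^ R / (R.factorial : ℝ)) := by
    rw [pow_succ]
    ring
  rw [h3]
  exact hR.le

/-- The core estimate. -/
theorem core {ε : ℝ} (hε : 0 < ε) :
    ∃ C : ℝ, 0 < C ∧ ∀ᶠ z : ℕ in atTop, ∀ N : ℕ, C * (Sz z * Real.log z) ≤ Real.log N →
      1 ≤ ε * (N * Gz z) ∧
      |∑ t ∈ range N, Xz z t - N * Gz z| ≤ ε * (N * Gz z) ∧
      |∑ t ∈ range N, (-1 : ℝ) ^ t * Xz z t| ≤ ε * (N * Gz z) ∧
      ∀ nxt : ℕ → ℕ, (∀ t, Xz z t = 1 → t < nxt t ∧ Xz z (nxt t) = 1) →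
        (∀ t, Xz z t = 1 → ∀ u, t < u → u < nxt t → Xz z u = 0) →
        |∑ t ∈ range N, Xz z t * (-1 : ℝ) ^ (nxt t - t)| ≤ ε * (N * Gz z) := by
  set lam : ℝ := max 1 (5 / ε) with hlamdef
  have hlam : 1 ≤ lam := le_max_left _ _
  have hlam2 : 1 / lam ≤ ε / 5 := by
    have h1 : 5 / ε ≤ lam := le_max_right _ _
    rw [div_le_iff₀ (by linarith)]
    rw [div_le_iff₀ hε] at h1
    linarith
  obtain ⟨R, hR⟩ := exists_R (4 * lam) (show 0 < ε / 5 by positivity)
  obtain ⟨C, hC, hCev⟩ := exists_good_m R hlam (show 0 < ε / 5 by positivity)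
  refine ⟨C, hC, ?_⟩
  have hPhi := eventually_Phi_le hlam (R + 4)
    (show 0 < ε / 5 / ((R + 1) * (2 * lam) ^ R) by positivity)
  filter_upwards [hCev, hPhi, eventually_Yf_le hlam, eventually_Hf_ge hlam (R + 2)]
    with z hz1 hz2 hz3 hz4
  intro N hN
  obtain ⟨h1, m, hm⟩ := hz1 N hN
  have hG : 0 < Gz z := Gz_pos z
  have hNG : 0 ≤ (N : ℝ) * Gz z := by positivity
  have hP1 : 1 ≤ ((R : ℝ) + 1) * (2 * lam / Gz z) ^ (R + 1) := by
    have h2 : (1 : ℝ) ≤ (2 * lam / Gz z) ^ (R + 1) := by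
      apply one_le_pow₀
      rw [le_div_iff₀ hG]
      linarith [Gz_le_one z]
    have h3 : (1 : ℝ) ≤ (R : ℝ) + 1 := by
      have : (0 : ℝ) ≤ R := Nat.cast_nonneg _
      linarith
    nlinarith
  set E := errB (insert 2 (Ps z)) (R + 2) m N with hE
  have hE0 : 0 ≤ E := errB_nonneg _ _ _ _
  have hEle : E ≤ ε / 5 * (N * Gz z) := by
    calc E = 1 * E := (one_mul _).symm
      _ ≤ ((R : ℝ) + 1) * (2 * lam / Gz z) ^ (R + 1) * E := mul_le_mul_of_nonneg_right hP1 hE0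
      _ ≤ _ := hm
  have hεNG : 0 ≤ ε * (N * Gz z) := by positivity
  have hE1 : errB (insert 2 (Ps z)) 1 m N ≤ E :=
    errB_mono_card (Finset.Subset.refl _) (by omega) m N
  have hE2 : errB (Ps z) 1 m N ≤ E :=
    (errB_mono_card (Finset.subset_insert 2 _) le_rfl m N).trans hE1
  have hE3 : errB (Ps z) (R + 2) m N ≤ E := errB_mono_card (Finset.subset_insert 2 _) le_rfl m N
  refine ⟨?_, ?_, ?_, ?_⟩
  · nlinarith
  · refine (count_bound z m N).trans ?_
    linarith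
  · refine (alt_count_bound z m N).trans ?_
    linarith
  · intro nxt hn1 hn2
    refine (main_ineq hlam R hz3 hz4 m N hn1 hn2).trans ?_
    have h5 : ((R : ℝ) + 1) * ((2 * lam) ^ R * Phi lam (R + 4) z) ≤ ε / 5 := by
      have h6 : 0 < ((R : ℝ) + 1) * (2 * lam) ^ R := by positivity
      rw [le_div_iff₀ h6] at hz2
      linarith
    have h7 : (N : ℝ) * Gz z * (((R : ℝ) + 1) * ((2 * lam) ^ R * Phi lam (R + 4) z)
        + (4 * lam) ^ (R + 1) / (R.factorial : ℝ) + 1 / lam)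
        ≤ N * Gz z * (ε / 5 + ε / 5 + ε / 5) := by
      apply mul_le_mul_of_nonneg_left _ hNG
      linarith
    have h8 : ((R : ℝ) + 1) * (2 * lam / Gz z) ^ (R + 1) * errB (Ps z) (R + 2) m N
        ≤ ε / 5 * (N * Gz z) := by
      refine le_trans ?_ hm
      exact mul_le_mul_of_nonneg_left hE3 (by linarith)
    linarith

end Pool.Agent.Helper90.Twin
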