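import Pool.Agent.Helper90.TwinM

set_option autoImplicit false

open Finset Filter Topology

namespace Pool.Agent.Helper90.Twin

/-! ### Controlled functions -/

/-- `F` is a linear combination of nonnegative functions with periods dividing `Q`; `μ` is its mean
and `L` bounds the sum of the absolute coefficients times the sums over a period. -/
def Ctl (Q : ℕ) (F : ℕ → ℝ) (μ L : ℝ) : Prop :=
  ∃ (ι : Type) (s : Finset ι) (c : ι → ℝ) (q : ι → ℕ) (f : ι → ℕ → ℝ),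
    (∀ i ∈ s, 0 < q i ∧ q i ∣ Q ∧ (∀ x, f i (x + q i) = f i x) ∧ ∀ x, 0 ≤ f i x) ∧
    (∀ t, F t = ∑ i ∈ s, c i * f i t) ∧
    μ = ∑ i ∈ s, c i * ((∑ x ∈ range (q i), f i x) / (q i : ℝ)) ∧
    ∑ i ∈ s, |c i| * (∑ x ∈ range (q i), f i x) ≤ L

theorem Ctl.bound {Q : ℕ} {F : ℕ → ℝ} {μ L : ℝ} (h : Ctl Q F μ L) (N : ℕ) :
    |∑ t ∈ range N, F t - N * μ| ≤ L := by
  obtain ⟨ι, s, c, q, f, h1, h2, h3, h4⟩ := h
  refine le_trans ?_ h4
  simp_rw [h2]
  rw [Finset.sum_comm, h3, Finset.mul_sum, ← Finset.sum_sub_distrib]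
  refine (Finset.abs_sum_le_sum_abs _ _).trans ?_
  apply Finset.sum_le_sum
  intro i hi
  obtain ⟨hq, -, hper, hnn⟩ := h1 i hi
  have h5 := abs_sum_sub_le hq hper hnn 0 N
  simp only [zero_add] at h5
  have h6 : ∑ t ∈ range N, c i * f i t - N * (c i * ((∑ x ∈ range (q i), f i x) / (q i : ℝ)))
      = c i * (∑ t ∈ range N, f i t - N * ((∑ x ∈ range (q i), f i x) / (q i : ℝ))) := by
    rw [← Finset.mul_sum]
    ring
  rw [h6, abs_mul]
  exact mul_le_mul_of_nonneg_left h5 (abs_nonneg _)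

theorem Ctl.mono {Q : ℕ} {F : ℕ → ℝ} {μ L L' : ℝ} (h : Ctl Q F μ L) (hL : L ≤ L') :
    Ctl Q F μ L' := by
  obtain ⟨ι, s, c, q, f, h1, h2, h3, h4⟩ := h
  exact ⟨ι, s, c, q, f, h1, h2, h3, h4.trans hL⟩

theorem Ctl.add {Q : ℕ} {F G : ℕ → ℝ} {μ μ' L L' : ℝ} (h : Ctl Q F μ L) (h' : Ctl Q G μ' L') :
    Ctl Q (fun t => F t + G t) (μ + μ') (L + L') := by
  obtain ⟨ι, s, c, q, f, h1, h2, h3, h4⟩ := h
  obtain ⟨ι', s', c', q', f', h1', h2', h3', h4'⟩ := h'
  refine ⟨ι ⊕ ι', s.disjSum s', Sum.elim c c', Sum.elim q q', Sum.elim f f', ?_, ?_, ?_, ?_⟩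
  · intro i hi
    rcases Finset.mem_disjSum.1 hi with ⟨a, ha, rfl⟩ | ⟨a, ha, rfl⟩
    · exact h1 a ha
    · exact h1' a ha
  · intro t
    show F t + G t = _
    rw [Finset.sum_disjSum, h2, h2']
    rfl
  · rw [Finset.sum_disjSum, h3, h3']
    rfl
  · rw [Finset.sum_disjSum]
    exact add_le_add h4 h4'

theorem Ctl.smul {Q : ℕ} {F : ℕ → ℝ} {μ L : ℝ} (h : Ctl Q F μ L) (a : ℝ) :
    Ctl Q (fun t => a * F t) (a * μ) (|a| * L) := by
  obtain ⟨ι, s, c, q, f, h1, h2, h3, h4⟩ := h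
  refine ⟨ι, s, fun i => a * c i, q, f, h1, ?_, ?_, ?_⟩
  · intro t
    simp only [h2, Finset.mul_sum]
    apply Finset.sum_congr rfl
    intro i _
    ring
  · rw [h3, Finset.mul_sum]
    apply Finset.sum_congr rfl
    intro i _
    ring
  · calc ∑ i ∈ s, |a * c i| * (∑ x ∈ range (q i), f i x)
        = |a| * ∑ i ∈ s, |c i| * (∑ x ∈ range (q i), f i x) := by
          rw [Finset.mul_sum]
          apply Finset.sum_congr rfl
          intro i _
          rw [abs_mul]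
          ring
      _ ≤ _ := mul_le_mul_of_nonneg_left h4 (abs_nonneg _)

theorem Ctl.zero (Q : ℕ) : Ctl Q (fun _ => 0) 0 0 :=
  ⟨Empty, ∅, fun _ => 0, fun _ => 1, fun _ _ => 0, by simp, by simp, by simp, by simp⟩

theorem Ctl.sum {Q : ℕ} {α : Type} (s : Finset α) {F : α → ℕ → ℝ} {μ L : α → ℝ}
    (h : ∀ i ∈ s, Ctl Q (F i) (μ i) (L i)) :
    Ctl Q (fun t => ∑ i ∈ s, F i t) (∑ i ∈ s, μ i) (∑ i ∈ s, L i) := by
  classical
  induction s using Finset.induction_on with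
  | empty => simpa using Ctl.zero Q
  | insert a s ha ih =>
    simp_rw [Finset.sum_insert ha]
    exact (h a (Finset.mem_insert_self a s)).add
      (ih (fun i hi => h i (Finset.mem_insert_of_mem hi)))

theorem Ctl.mul {Q Q' : ℕ} (hQ : Nat.Coprime Q Q') {F G : ℕ → ℝ} {μ μ' L L' : ℝ}
    (h : Ctl Q F μ L) (h' : Ctl Q' G μ' L') :
    Ctl (Q * Q') (fun t => F t * G t) (μ * μ') (L * L') := by
  obtain ⟨ι, s, c, q, f, h1, h2, h3, h4⟩ := h
  obtain ⟨ι', s', c', q', f', h1', h2', h3', h4'⟩ := h'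
  have hcop : ∀ i ∈ s, ∀ j ∈ s', Nat.Coprime (q i) (q' j) := fun i hi j hj =>
    Nat.Coprime.of_dvd (h1 i hi).2.1 (h1' j hj).2.1 hQ
  have hsum : ∀ i ∈ s, ∀ j ∈ s', ∑ x ∈ range (q i * q' j), f i x * f' j x
      = (∑ x ∈ range (q i), f i x) * (∑ x ∈ range (q' j), f' j x) := fun i hi j hj =>
    sum_range_mul_coprime (hcop i hi j hj) (h1 i hi).1 (h1' j hj).1 (h1 i hi).2.2.1
      (h1' j hj).2.2.1
  refine ⟨ι × ι', s ×ˢ s', fun p => c p.1 * c' p.2, fun p => q p.1 * q' p.2,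
    fun p t => f p.1 t * f' p.2 t, ?_, ?_, ?_, ?_⟩
  · rintro ⟨i, j⟩ hij
    rw [Finset.mem_product] at hij
    obtain ⟨a1, a2, a3, a4⟩ := h1 i hij.1
    obtain ⟨b1, b2, b3, b4⟩ := h1' j hij.2
    refine ⟨Nat.mul_pos a1 b1, Nat.mul_dvd_mul a2 b2, ?_, fun x => mul_nonneg (a4 x) (b4 x)⟩
    intro x
    have e1 : ∀ k, f i (x + q i * k) = f i x := by
      intro k
      induction k with
      | zero => simp
      | succ k ih =>
        have : x + q i * (k + 1) = x + q i * k + q i := by ring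
        rw [this, a3, ih]
    have e2 : ∀ k, f' j (x + q' j * k) = f' j x := by
      intro k
      induction k with
      | zero => simp
      | succ k ih =>
        have : x + q' j * (k + 1) = x + q' j * k + q' j := by ring
        rw [this, b3, ih]
    simp only
    rw [e1, mul_comm (q i) (q' j), e2]
  · intro t
    show F t * G t = _
    rw [h2, h2', Finset.sum_mul_sum, ← Finset.sum_product']
    apply Finset.sum_congr rfl
    rintro ⟨i, j⟩ _
    ring
  · rw [h3, h3', Finset.sum_mul_sum, ← Finset.sum_product']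
    apply Finset.sum_congr rfl
    rintro ⟨i, j⟩ hij
    rw [Finset.mem_product] at hij
    simp only
    rw [hsum i hij.1 j hij.2]
    push_cast
    have := (h1 i hij.1).1
    have := (h1' j hij.2).1
    field_simp
  · have hS0 : ∀ i ∈ s, 0 ≤ |c i| * (∑ x ∈ range (q i), f i x) := fun i hi =>
      mul_nonneg (abs_nonneg _) (Finset.sum_nonneg (fun x _ => (h1 i hi).2.2.2 x))
    have hS0' : ∀ i ∈ s', 0 ≤ |c' i| * (∑ x ∈ range (q' i), f' i x) := fun i hi =>
      mul_nonneg (abs_nonneg _) (Finset.sum_nonneg (fun x _ => (h1' i hi).2.2.2 x))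
    have e1 : ∑ p ∈ s ×ˢ s', |c p.1 * c' p.2| * ∑ x ∈ range (q p.1 * q' p.2), f p.1 x * f' p.2 x
        = (∑ i ∈ s, |c i| * (∑ x ∈ range (q i), f i x))
          * (∑ i ∈ s', |c' i| * (∑ x ∈ range (q' i), f' i x)) := by
      rw [Finset.sum_mul_sum, ← Finset.sum_product']
      apply Finset.sum_congr rfl
      rintro ⟨i, j⟩ hij
      rw [Finset.mem_product] at hij
      simp only
      rw [hsum i hij.1 j hij.2, abs_mul]
      ring
    rw [e1]
    exact mul_le_mul h4 h4' (Finset.sum_nonneg hS0') ((Finset.sum_nonneg hS0).trans h4)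

section Sieve

variable {S : Finset ℕ} {w : ℕ → ℕ → ℝ}

/-- the number of forbidden residues -/
noncomputable def nu (w : ℕ → ℕ → ℝ) (p : ℕ) : ℝ := ∑ x ∈ range p, w p x

theorem ctl_EE (hpos : ∀ p ∈ S, 0 < p) (hcop : (S : Set ℕ).Pairwise Nat.Coprime)
    (hw0 : ∀ p ∈ S, ∀ x, 0 ≤ w p x) (hw : ∀ p ∈ S, ∀ x, w p (x + p) = w p x) (j : ℕ) :
    Ctl (∏ p ∈ S, p) (fun t => EE S (fun p => w p t) j) (EE S (fun p => nu w p / p) j)
      (EE S (nu w) j) := by
  refine ⟨Finset ℕ, S.powersetCard j, fun _ => 1, fun t => ∏ p ∈ t, p,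
    fun t x => ∏ p ∈ t, w p x, ?_, ?_, ?_, ?_⟩
  · intro t ht
    rw [Finset.mem_powersetCard] at ht
    refine ⟨Finset.prod_pos (fun p hp => hpos p (ht.1 hp)), Finset.prod_dvd_prod_of_subset _ _ _ ht.1,
      fun x => periodic_prod (fun p hp => hw p (ht.1 hp)) x,
      fun x => Finset.prod_nonneg (fun p hp => hw0 p (ht.1 hp) x)⟩
  · intro t
    simp [EE]
  · unfold EE
    apply Finset.sum_congr rfl
    intro t ht
    rw [Finset.mem_powersetCard] at ht
    rw [sum_range_prod_coprime (fun p hp => hpos p (ht.1 hp)) (hcop.mono (by exact_mod_cast ht.1))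
      (fun p hp => hw p (ht.1 hp)), one_mul, Finset.prod_div_distrib]
    push_cast
    rfl
  · unfold EE
    apply le_of_eq
    apply Finset.sum_congr rfl
    intro t ht
    rw [Finset.mem_powersetCard] at ht
    rw [sum_range_prod_coprime (fun p hp => hpos p (ht.1 hp)) (hcop.mono (by exact_mod_cast ht.1))
      (fun p hp => hw p (ht.1 hp))]
    simp [nu]

theorem ctl_TT (hpos : ∀ p ∈ S, 0 < p) (hcop : (S : Set ℕ).Pairwise Nat.Coprime)
    (hw0 : ∀ p ∈ S, ∀ x, 0 ≤ w p x) (hw : ∀ p ∈ S, ∀ x, w p (x + p) = w p x) (m : ℕ) :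
    Ctl (∏ p ∈ S, p) (fun t => TT S (fun p => w p t) m) (TT S (fun p => nu w p / p) m)
      (∑ j ∈ range m, EE S (nu w) j) := by
  have h := Ctl.sum (range m) (Q := ∏ p ∈ S, p)
    (F := fun j t => (-1 : ℝ) ^ j * EE S (fun p => w p t) j)
    (μ := fun j => (-1 : ℝ) ^ j * EE S (fun p => nu w p / p) j)
    (L := fun j => EE S (nu w) j) ?_
  · exact h
  · intro j _
    have h1 := (ctl_EE hpos hcop hw0 hw j).smul ((-1 : ℝ) ^ j)
    have h2 : |(-1 : ℝ) ^ j| = 1 := by rw [abs_pow, abs_neg, abs_one, one_pow]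
    rw [h2, one_mul] at h1
    exact h1

end Sieve

end Pool.Agent.Helper90.Twin
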