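import Pool.Agent.Helper90.TwinS

set_option autoImplicit false

open Finset Filter Topology

namespace Pool.Agent.Helper90.Twin

variable {s s' : Finset ℕ} {y : ℕ → ℕ → ℝ}

/-- The correlation estimate used below: relative error `δ` and absolute error `E`. -/
def Corr (s s' : Finset ℕ) (y : ℕ → ℕ → ℝ) (H k N : ℕ) (δ E : ℝ) : Prop :=
  ∀ I : Finset ℕ, I.Nonempty → (∀ i ∈ I, i ≤ H) → I.card ≤ k →
    |∑ t ∈ range N, ∏ i ∈ I, XX (s ∪ s') y (t + i) - N * (cc s' I.card * avgI s y I)|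
      ≤ δ * (N * (cc s' I.card * avgI s y I)) + E

/-- the weights attached to a set of shifts -/
noncomputable def wI (y : ℕ → ℕ → ℝ) (I : Finset ℕ) (p t : ℕ) : ℝ := 1 - ∏ i ∈ I, (1 - y p (t + i))

theorem wI_prod (S : Finset ℕ) (I : Finset ℕ) (t : ℕ) :
    ∏ p ∈ S, (1 - wI y I p t) = ∏ i ∈ I, XX S y (t + i) := by
  unfold XX
  rw [Finset.prod_comm]
  apply Finset.prod_congr rfl
  intro p _
  simp [wI]

theorem wI_mean (hs : SieveSys (s ∪ s') y) (hdisj : Disjoint s s') {H : ℕ}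
    (hsep : ∀ p ∈ s', ∀ t, ∀ i ≤ H, ∀ j ≤ H, i ≠ j → y p (t + i) = 1 → y p (t + j) = 0)
    {I : Finset ℕ} (hI : ∀ i ∈ I, i ≤ H) :
    ∏ p ∈ s ∪ s', (1 - nu (wI y I) p / (p : ℝ)) = cc s' I.card * avgI s y I := by
  rw [Finset.prod_union hdisj, mul_comm]
  congr 1
  · unfold cc
    apply Finset.prod_congr rfl
    intro p hp
    have hp' : p ∈ s ∪ s' := Finset.mem_union_right _ hp
    have h3 : nu (wI y I) p = 2 * (I.card : ℝ) := by
      unfold nu wI
      calc ∑ x ∈ range p, (1 - ∏ i ∈ I, (1 - y p (x + i))) = ∑ x ∈ range p, ∑ i ∈ I, y p (x + i) := by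
            apply Finset.sum_congr rfl
            intro x _
            exact one_sub_prod_eq_sum (fun i _ => hs.zero_one p hp' _)
              (fun i hi j hj hij h1 => hsep p hp x i (hI i hi) j (hI j hj) hij h1)
        _ = ∑ i ∈ I, (2 : ℝ) := by
            rw [Finset.sum_comm]
            apply Finset.sum_congr rfl
            intro i _
            exact hs.shift_sum hp' i
        _ = 2 * (I.card : ℝ) := by
            rw [Finset.sum_const, nsmul_eq_mul]
            ring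
    rw [h3]
  · unfold avgI
    rw [(hs.mono Finset.subset_union_left).avg_prod I]
    apply Finset.prod_congr rfl
    intro p hp
    have hp' : p ∈ s ∪ s' := Finset.mem_union_left _ hp
    have hp0 : (p : ℝ) ≠ 0 := by exact_mod_cast (hs.pos hp').ne'
    unfold nu wI
    rw [Finset.sum_sub_distrib]
    simp
    field_simp
    ring

theorem wI_adm {I : Finset ℕ} : Adm (wI yy I) (2 * (I.card : ℝ)) := by
  have hy0 : ∀ p x, 0 ≤ yy p x := fun p x => by unfold yy; split_ifs <;> norm_num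
  have hy1 : ∀ p x, yy p x ≤ 1 := fun p x => by unfold yy; split_ifs <;> norm_num
  have hprod0 : ∀ p t, 0 ≤ ∏ i ∈ I, (1 - yy p (t + i)) := fun p t =>
    Finset.prod_nonneg (fun i _ => by linarith [hy1 p (t + i)])
  have hprod1 : ∀ p t, ∏ i ∈ I, (1 - yy p (t + i)) ≤ 1 := fun p t =>
    Finset.prod_le_one (fun i _ => by linarith [hy1 p (t + i)])
      (fun i _ => by linarith [hy0 p (t + i)])
  refine ⟨?_, ?_, ?_, ?_⟩
  · intro p _ _ x
    unfold wI
    linarith [hprod1 p x]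
  · intro p _ _ x
    unfold wI
    linarith [hprod0 p x]
  · intro p _ _ x
    unfold wI
    congr 1
    apply Finset.prod_congr rfl
    intro i _
    have h2 : x + p + i = x + i + p := by ring
    rw [h2, yy_per]
  · intro p hp h5
    unfold nu wI
    calc ∑ x ∈ range p, (1 - ∏ i ∈ I, (1 - yy p (x + i)))
        ≤ ∑ x ∈ range p, ∑ i ∈ I, yy p (x + i) := by
          apply Finset.sum_le_sum
          intro x _
          exact one_sub_prod_le_sum (fun i _ => hy0 p _) (fun i _ => hy1 p _)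
      _ = ∑ i ∈ I, (2 : ℝ) := by
          rw [Finset.sum_comm]
          apply Finset.sum_congr rfl
          intro i _
          rw [← yy_sum hp h5, ← sum_range_shift_periodic (yy_per p) i]
          apply Finset.sum_congr rfl
          intro j _
          rw [add_comm]
      _ = 2 * (I.card : ℝ) := by
          rw [Finset.sum_const, nsmul_eq_mul]
          ring

/-- the main terms summed -/
noncomputable def avS (s : Finset ℕ) (y : ℕ → ℕ → ℝ) (ε : ℕ → ℝ) (H r : ℕ) : ℝ :=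
  (∑ u ∈ range (∏ p ∈ s, p), XX s y u * ∑ g ∈ Icc 1 H,
          ε g * XX s y (u + g) * EE (Ioo 0 g) (fun i => XX s y (u + i)) r) /
          ((∏ p ∈ s, p : ℕ) : ℝ)

theorem sum_key {H r : ℕ} (ε : ℕ → ℝ) (X : ℕ → ℝ) (M : ℕ) :
    ∑ t ∈ range M, X t * ∑ g ∈ Icc 1 H, ε g * X (t + g) * EE (Ioo 0 g) (fun i => X (t + i)) r
      = ∑ g ∈ Icc 1 H, ∑ J ∈ (Ioo 0 g).powersetCard r,
          ε g * ∑ t ∈ range M, ∏ i ∈ insert 0 (insert g J), X (t + i) := by
  simp_rw [Finset.mul_sum]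
  rw [Finset.sum_comm]
  apply Finset.sum_congr rfl
  intro g hg
  rw [Finset.mem_Icc] at hg
  rw [Finset.sum_comm]
  apply Finset.sum_congr rfl
  intro t _
  unfold EE
  rw [Finset.mul_sum, Finset.mul_sum]
  apply Finset.sum_congr rfl
  intro J hJ
  rw [prod_insert_two (by omega) (Finset.mem_powersetCard.1 hJ).1]
  ring

theorem avS_eq (ε : ℕ → ℝ) (H r : ℕ) : avS s y ε H r
    = ∑ g ∈ Icc 1 H, ∑ J ∈ (Ioo 0 g).powersetCard r, ε g * avgI s y (insert 0 (insert g J)) := by
  unfold avS avgI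
  rw [sum_key, Finset.sum_div]
  apply Finset.sum_congr rfl
  intro g _
  rw [Finset.sum_div]
  apply Finset.sum_congr rfl
  intro J _
  ring

/-- generic transfer, with relative error -/
theorem transfer2 {H k N : ℕ} {δ E : ℝ} (hC : Corr s s' y H k N δ E) (hE : 0 ≤ E)
    (ε : ℕ → ℝ) (hε : ∀ g, |ε g| ≤ 1) {r : ℕ} (hr : r + 2 ≤ k) :
    |∑ t ∈ range N, XX (s ∪ s') y t * ∑ g ∈ Icc 1 H, ε g * XX (s ∪ s') y (t + g) *
        EE (Ioo 0 g) (fun i => XX (s ∪ s') y (t + i)) r
      - N * (cc s' (r + 2) * avS s y ε H r)|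
      ≤ δ * (N * (cc s' (r + 2) * avS s y (fun _ => 1) H r)) + (H : ℝ) ^ (r + 1) * E := by
  rw [sum_key, avS_eq, avS_eq]
  have e1 : N * (cc s' (r + 2) * ∑ g ∈ Icc 1 H, ∑ J ∈ (Ioo 0 g).powersetCard r,
        ε g * avgI s y (insert 0 (insert g J)))
      = ∑ g ∈ Icc 1 H, ∑ J ∈ (Ioo 0 g).powersetCard r,
          ε g * (N * (cc s' (r + 2) * avgI s y (insert 0 (insert g J)))) := by
    rw [Finset.mul_sum, Finset.mul_sum]
    apply Finset.sum_congr rfl
    intro g _
    rw [Finset.mul_sum, Finset.mul_sum]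
    apply Finset.sum_congr rfl
    intro J _
    ring
  have e2 : δ * (N * (cc s' (r + 2) * ∑ g ∈ Icc 1 H, ∑ J ∈ (Ioo 0 g).powersetCard r,
        (1 : ℝ) * avgI s y (insert 0 (insert g J))))
      = ∑ g ∈ Icc 1 H, ∑ J ∈ (Ioo 0 g).powersetCard r,
          δ * (N * (cc s' (r + 2) * avgI s y (insert 0 (insert g J)))) := by
    rw [Finset.mul_sum, Finset.mul_sum, Finset.mul_sum]
    apply Finset.sum_congr rfl
    intro g _
    rw [Finset.mul_sum, Finset.mul_sum, Finset.mul_sum]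
    apply Finset.sum_congr rfl
    intro J _
    ring
  rw [e1, e2, ← Finset.sum_sub_distrib]
  refine (Finset.abs_sum_le_sum_abs _ _).trans ?_
  have h1 : ∀ g ∈ Icc 1 H, |∑ J ∈ (Ioo 0 g).powersetCard r,
        ε g * ∑ t ∈ range N, ∏ i ∈ insert 0 (insert g J), XX (s ∪ s') y (t + i)
      - ∑ J ∈ (Ioo 0 g).powersetCard r,
          ε g * (N * (cc s' (r + 2) * avgI s y (insert 0 (insert g J))))|
      ≤ ∑ J ∈ (Ioo 0 g).powersetCard r,
          δ * (N * (cc s' (r + 2) * avgI s y (insert 0 (insert g J)))) + (H : ℝ) ^ r * E := by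
    intro g hg
    rw [Finset.mem_Icc] at hg
    rw [← Finset.sum_sub_distrib]
    refine (Finset.abs_sum_le_sum_abs _ _).trans ?_
    calc ∑ J ∈ (Ioo 0 g).powersetCard r,
          |ε g * ∑ t ∈ range N, ∏ i ∈ insert 0 (insert g J), XX (s ∪ s') y (t + i)
          - ε g * (N * (cc s' (r + 2) * avgI s y (insert 0 (insert g J))))|
        ≤ ∑ J ∈ (Ioo 0 g).powersetCard r,
          (δ * (N * (cc s' (r + 2) * avgI s y (insert 0 (insert g J)))) + E) := by
          apply Finset.sum_le_sum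
          intro J hJ
          have hcard := card_insert_two (by omega) hJ
          have h2 := hC (insert 0 (insert g J)) (Finset.insert_nonempty _ _)
            (insert_two_le hg.2 hJ) (by omega)
          rw [hcard] at h2
          rw [← mul_sub, abs_mul]
          calc |ε g| * |∑ t ∈ range N, ∏ i ∈ insert 0 (insert g J), XX (s ∪ s') y (t + i)
            - N * (cc s' (r + 2) * avgI s y (insert 0 (insert g J)))|
              ≤ 1 * |∑ t ∈ range N, ∏ i ∈ insert 0 (insert g J), XX (s ∪ s') y (t + i)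
            - N * (cc s' (r + 2) * avgI s y (insert 0 (insert g J)))| :=
                mul_le_mul_of_nonneg_right (hε g) (abs_nonneg _)
            _ ≤ _ := by rw [one_mul]; exact h2
      _ = ∑ J ∈ (Ioo 0 g).powersetCard r,
          δ * (N * (cc s' (r + 2) * avgI s y (insert 0 (insert g J))))
          + (((Ioo 0 g).powersetCard r).card : ℝ) * E := by
          rw [Finset.sum_add_distrib, Finset.sum_const, nsmul_eq_mul]
      _ ≤ _ := by
          apply add_le_add le_rfl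
          exact mul_le_mul_of_nonneg_right (card_powersetCard_Ioo_le hg.2) hE
  calc _ ≤ ∑ g ∈ Icc 1 H, (∑ J ∈ (Ioo 0 g).powersetCard r,
          δ * (N * (cc s' (r + 2) * avgI s y (insert 0 (insert g J)))) + (H : ℝ) ^ r * E) :=
        Finset.sum_le_sum h1
    _ = _ := by
      rw [Finset.sum_add_distrib, Finset.sum_const, Nat.card_Icc, nsmul_eq_mul]
      simp
      ring

theorem sigma_bound2 (hs : SieveSys (s ∪ s') y) {H : ℕ} (hH : 1 ≤ H)
    (hG : 0 < GG s) (R : ℕ) (hR : ∀ p ∈ s', 2 * (R + 2) ≤ p) {N : ℕ} {δ E : ℝ}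
    (hC : Corr s s' y H (R + 2) N δ E) (hδ : 0 ≤ δ) (hE : 0 ≤ E) :
    |∑ t ∈ range N, XX (s ∪ s') y t * sig (XX (s ∪ s') y) H t|
      ≤ ∑ r ∈ range R, (N * (cc s' (r + 2) * ((H : ℝ) ^ r * Real.sqrt H))
            + (δ * (N * (cc s' (r + 2) * ((GG s * (2 * (H * GG s)) ^ (r + 1)
                + (H : ℝ) ^ r / GG s ^ 2) / (r.factorial : ℝ)))) + (H : ℝ) ^ (r + 1) * E))
        + ((1 + δ) * (N * (cc s' (R + 2) * ((GG s * (2 * (H * GG s)) ^ (R + 1)
            + (H : ℝ) ^ R / GG s ^ 2) / (R.factorial : ℝ)))) + (H : ℝ) ^ (R + 1) * E) := by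
  set X := XX (s ∪ s') y with hX
  have hX0 : ∀ k, 0 ≤ X k := hs.XX_nonneg
  have hX1 : ∀ k, X k ≤ 1 := hs.XX_le_one
  have hss : SieveSys s y := hs.mono Finset.subset_union_left
  have hN0 : (0 : ℝ) ≤ N := Nat.cast_nonneg N
  -- pointwise Bonferroni
  have hpt : ∀ t, |sig X H t - ∑ r ∈ range R, (-1 : ℝ) ^ r * ∑ g ∈ Icc 1 H,
      (-1 : ℝ) ^ g * X (t + g) * EE (Ioo 0 g) (fun i => X (t + i)) r|
      ≤ ∑ g ∈ Icc 1 H, (1 : ℝ) * X (t + g) * EE (Ioo 0 g) (fun i => X (t + i)) R := by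
    intro t
    have e1 : sig X H t - ∑ r ∈ range R, (-1 : ℝ) ^ r * ∑ g ∈ Icc 1 H,
        (-1 : ℝ) ^ g * X (t + g) * EE (Ioo 0 g) (fun i => X (t + i)) r
        = ∑ g ∈ Icc 1 H, (-1 : ℝ) ^ g * X (t + g) * (∏ i ∈ Ioo 0 g, (1 - X (t + i))
          - TT (Ioo 0 g) (fun i => X (t + i)) R) := by
      unfold sig TT
      simp_rw [mul_sub, Finset.sum_sub_distrib, Finset.mul_sum]
      congr 1
      rw [Finset.sum_comm]
      apply Finset.sum_congr rfl
      intro g _
      apply Finset.sum_congr rfl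
      intro r _
      ring
    rw [e1]
    refine (Finset.abs_sum_le_sum_abs _ _).trans ?_
    apply Finset.sum_le_sum
    intro g _
    rw [abs_mul, abs_mul, abs_pow, abs_neg, abs_one, one_pow, abs_of_nonneg (hX0 _)]
    exact mul_le_mul_of_nonneg_left (bonferroni_abs (fun i _ => hX0 _) (fun i _ => hX1 _) R)
      (by linarith [hX0 (t + g)])
  have hcc : ∀ r, r ≤ R → 0 ≤ cc s' (r + 2) := fun r hr =>
    cc_nonneg (fun p hp => by have := hR p hp; omega)
  have htail : ∀ r, avS s y (fun _ => 1) H r ≤ (GG s * (2 * (H * GG s)) ^ (r + 1)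
                + (H : ℝ) ^ r / GG s ^ 2) / (r.factorial : ℝ) := fun r =>
    tail_main hss H r hH hG
  -- the alternating sums
  have hM : ∀ r ∈ range R, |∑ t ∈ range N, X t * ∑ g ∈ Icc 1 H,
      (-1 : ℝ) ^ g * X (t + g) * EE (Ioo 0 g) (fun i => X (t + i)) r|
      ≤ N * (cc s' (r + 2) * ((H : ℝ) ^ r * Real.sqrt H))
            + (δ * (N * (cc s' (r + 2) * ((GG s * (2 * (H * GG s)) ^ (r + 1)
                + (H : ℝ) ^ r / GG s ^ 2) / (r.factorial : ℝ)))) + (H : ℝ) ^ (r + 1) * E) := by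
    intro r hr
    rw [mem_range] at hr
    have h1 := transfer2 hC hE (fun g => (-1 : ℝ) ^ g)
      (fun g => by rw [abs_pow, abs_neg, abs_one, one_pow]) (r := r) (by omega)
    have h2 := alt_main hss H r hH
    have hc := hcc r hr.le
    have h3 : |(N : ℝ) * (cc s' (r + 2) * avS s y (fun g => (-1 : ℝ) ^ g) H r)|
        ≤ N * (cc s' (r + 2) * ((H : ℝ) ^ r * Real.sqrt H)) := by
      rw [abs_mul, abs_mul, Nat.abs_cast, abs_of_nonneg hc]
      exact mul_le_mul_of_nonneg_left (mul_le_mul_of_nonneg_left h2 hc) (Nat.cast_nonneg _)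
    have h4 := abs_le.1 h1
    have h5 := abs_le.1 h3
    have h6 : δ * (N * (cc s' (r + 2) * avS s y (fun _ => 1) H r))
        ≤ δ * (N * (cc s' (r + 2) * ((GG s * (2 * (H * GG s)) ^ (r + 1)
                + (H : ℝ) ^ r / GG s ^ 2) / (r.factorial : ℝ)))) :=
      mul_le_mul_of_nonneg_left (mul_le_mul_of_nonneg_left
        (mul_le_mul_of_nonneg_left (htail r) hc) hN0) hδ
    rw [abs_le]
    constructor <;> linarith [h4.1, h4.2, h5.1, h5.2]
  -- the tail
  have hTail : ∑ t ∈ range N, X t * ∑ g ∈ Icc 1 H, (1 : ℝ) * X (t + g) *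
      EE (Ioo 0 g) (fun i => X (t + i)) R
      ≤ (1 + δ) * (N * (cc s' (R + 2) * ((GG s * (2 * (H * GG s)) ^ (R + 1)
            + (H : ℝ) ^ R / GG s ^ 2) / (R.factorial : ℝ)))) + (H : ℝ) ^ (R + 1) * E := by
    have h1 := transfer2 hC hE (fun _ => (1 : ℝ)) (fun g => by simp) (r := R) le_rfl
    have hc := hcc R le_rfl
    have h3 := mul_le_mul_of_nonneg_left (mul_le_mul_of_nonneg_left (htail R) hc) hN0
    have h5 := mul_le_mul_of_nonneg_left h3 hδ
    have h4 := (abs_le.1 h1).2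
    linarith
  -- assemble
  have e2 : ∑ t ∈ range N, X t * sig X H t
      = ∑ r ∈ range R, (-1 : ℝ) ^ r * ∑ t ∈ range N, X t * ∑ g ∈ Icc 1 H,
          (-1 : ℝ) ^ g * X (t + g) * EE (Ioo 0 g) (fun i => X (t + i)) r
        + ∑ t ∈ range N, X t * (sig X H t - ∑ r ∈ range R, (-1 : ℝ) ^ r * ∑ g ∈ Icc 1 H,
          (-1 : ℝ) ^ g * X (t + g) * EE (Ioo 0 g) (fun i => X (t + i)) r) := by
    have e3 : ∑ r ∈ range R, (-1 : ℝ) ^ r * ∑ t ∈ range N, X t * ∑ g ∈ Icc 1 H,
          (-1 : ℝ) ^ g * X (t + g) * EE (Ioo 0 g) (fun i => X (t + i)) r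
        = ∑ t ∈ range N, X t * ∑ r ∈ range R, (-1 : ℝ) ^ r * ∑ g ∈ Icc 1 H,
          (-1 : ℝ) ^ g * X (t + g) * EE (Ioo 0 g) (fun i => X (t + i)) r := by
      simp_rw [Finset.mul_sum]
      rw [Finset.sum_comm]
      apply Finset.sum_congr rfl
      intro t _
      apply Finset.sum_congr rfl
      intro r _
      apply Finset.sum_congr rfl
      intro g _
      ring
    rw [e3, ← Finset.sum_add_distrib]
    apply Finset.sum_congr rfl
    intro t _
    ring
  rw [e2]
  refine (abs_add_le _ _).trans (add_le_add ?_ ?_)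
  · refine (Finset.abs_sum_le_sum_abs _ _).trans ?_
    apply Finset.sum_le_sum
    intro r hr
    rw [abs_mul, abs_pow, abs_neg, abs_one, one_pow, one_mul]
    exact hM r hr
  · refine (Finset.abs_sum_le_sum_abs _ _).trans (le_trans ?_ hTail)
    apply Finset.sum_le_sum
    intro t _
    rw [abs_mul, abs_of_nonneg (hX0 t)]
    exact mul_le_mul_of_nonneg_left (hpt t) (hX0 t)

end Pool.Agent.Helper90.Twin
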